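import Pool.Agent.Q221.Sm.GlobX

/-!
# Descent of ideals from `ℂ` to `k`
-/

set_option autoImplicit false
set_option linter.unusedSectionVars false

namespace Pool.Agent.Q221.EM

open MvPolynomial

section cw

variable {k : Type} [Field k] [Algebra k ℂ] {σ : Type}

/-- the coefficientwise action of a linear map -/
noncomputable def cw (Λ : ℂ →ₗ[k] k) (p : MvPolynomial σ ℂ) : MvPolynomial σ k :=
  ∑ d ∈ p.support, monomial d (Λ (coeff d p))

theorem coeff_cw (Λ : ℂ →ₗ[k] k) (p : MvPolynomial σ ℂ) (e : σ →₀ ℕ) :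
    coeff e (cw Λ p) = Λ (coeff e p) := by
  classical
  rw [cw, coeff_sum]
  simp only [coeff_monomial]
  rw [Finset.sum_ite_eq']
  split_ifs with h
  · rfl
  · rw [notMem_support_iff.1 h, map_zero]

theorem cw_add (Λ : ℂ →ₗ[k] k) (p q : MvPolynomial σ ℂ) : cw Λ (p + q) = cw Λ p + cw Λ q := by
  ext e
  rw [coeff_cw, coeff_add, coeff_add, coeff_cw, coeff_cw, map_add]

theorem cw_zero (Λ : ℂ →ₗ[k] k) : cw Λ (0 : MvPolynomial σ ℂ) = 0 := by
  ext e
  rw [coeff_cw, coeff_zero, coeff_zero, map_zero]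

theorem cw_mul (Λ : ℂ →ₗ[k] k) (p : MvPolynomial σ k) (q : MvPolynomial σ ℂ) :
    cw Λ (map (algebraMap k ℂ) p * q) = p * cw Λ q := by
  classical
  ext e
  rw [coeff_cw, coeff_mul, coeff_mul, map_sum]
  refine Finset.sum_congr rfl fun x _ => ?_
  rw [coeff_map, coeff_cw, ← Algebra.smul_def, map_smul, smul_eq_mul]

theorem cw_map {Λ : ℂ →ₗ[k] k} (h : Λ 1 = 1) (p : MvPolynomial σ k) :
    cw Λ (map (algebraMap k ℂ) p) = p := by
  ext e
  rw [coeff_cw, coeff_map, Algebra.algebraMap_eq_smul_one, map_smul, h, smul_eq_mul, mul_one]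

theorem exists_one : ∃ Λ : ℂ →ₗ[k] k, Λ 1 = 1 := by
  have h0 : ¬ ∀ Λ : Module.Dual k ℂ, Λ 1 = 0 := fun h =>
    one_ne_zero ((Module.forall_dual_apply_eq_zero_iff k (1 : ℂ)).1 h)
  push Not at h0
  obtain ⟨Λ, h1⟩ := h0
  exact ⟨(Λ 1)⁻¹ • Λ, by rw [LinearMap.smul_apply, smul_eq_mul, inv_mul_cancel₀ h1]⟩

theorem cw_mem (Λ : ℂ →ₗ[k] k) {T : Set (MvPolynomial σ k)} {q : MvPolynomial σ ℂ}
    (hq : q ∈ Ideal.span (map (algebraMap k ℂ) '' T)) : cw Λ q ∈ Ideal.span T := by
  have key : ∀ a : MvPolynomial σ ℂ, cw Λ (a * q) ∈ Ideal.span T := by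
    induction hq using Submodule.span_induction with
    | mem x hx =>
      intro a
      obtain ⟨t, ht, rfl⟩ := hx
      rw [mul_comm, cw_mul, mul_comm]
      exact Ideal.mul_mem_left _ _ (Ideal.subset_span ht)
    | zero =>
      intro a
      rw [mul_zero, cw_zero]
      exact Ideal.zero_mem _
    | add x y _ _ hx hy =>
      intro a
      rw [mul_add, cw_add]
      exact Ideal.add_mem _ (hx a) (hy a)
    | smul b x _ hx =>
      intro a
      rw [smul_eq_mul, ← mul_assoc]
      exact hx _
  have := key 1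
  rwa [one_mul] at this

/-- the ideals generated over `k` -/
theorem mem_of_map {T : Set (MvPolynomial σ k)} {p : MvPolynomial σ k}
    (h : map (algebraMap k ℂ) p ∈ Ideal.span (map (algebraMap k ℂ) '' T)) : p ∈ Ideal.span T := by
  obtain ⟨Λ, h1⟩ := exists_one (k := k)
  have := cw_mem Λ h
  rwa [cw_map h1] at this

theorem mem_of_cw {T : Set (MvPolynomial σ k)} {q : MvPolynomial σ ℂ}
    (h : ∀ Λ : ℂ →ₗ[k] k, cw Λ q ∈ Ideal.span T) :
    q ∈ Ideal.span (map (algebraMap k ℂ) '' T) := by
  classical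
  set b := Module.Basis.ofVectorSpace k ℂ with hb
  set I : Finset (Module.Basis.ofVectorSpaceIndex k ℂ) :=
    q.support.biUnion fun d => (b.repr (coeff d q)).support with hI
  have h1 : q = ∑ i ∈ I, C (b i) * map (algebraMap k ℂ) (cw (b.coord i) q) := by
    ext d
    rw [coeff_sum]
    simp only [coeff_C_mul, coeff_map, coeff_cw]
    by_cases hd : d ∈ q.support
    · have h2 := b.linearCombination_repr (coeff d q)
      rw [Finsupp.linearCombination_apply, Finsupp.sum] at h2
      rw [← Finset.sum_subset (Finset.subset_biUnion_of_mem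
        (fun d => (b.repr (coeff d q)).support) hd)]
      · conv_lhs => rw [← h2]
        refine Finset.sum_congr rfl fun i _ => ?_
        rw [Module.Basis.coord_apply, Algebra.smul_def, mul_comm]
      · intro i _ hi
        rw [Module.Basis.coord_apply, Finsupp.notMem_support_iff.1 hi, map_zero, mul_zero]
    · rw [notMem_support_iff.1 hd]
      refine (Finset.sum_eq_zero fun i _ => ?_).symm
      rw [map_zero, map_zero, mul_zero]
  rw [h1]
  refine Ideal.sum_mem _ fun i _ => Ideal.mul_mem_left _ _ ?_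
  have h2 : Ideal.span T ≤ (Ideal.span (map (algebraMap k ℂ) '' T)).comap
      (map (algebraMap k ℂ)) := by
    rw [Ideal.span_le]
    intro t ht
    exact Ideal.subset_span ⟨t, ht, rfl⟩
  exact h2 (h _)

/-- the flatness of `k ⊆ ℂ` -/
theorem nzd_map {T : Set (MvPolynomial σ k)} (hT : (Ideal.span T).IsPrime)
    {f : MvPolynomial σ k} (hf : f ∉ Ideal.span T) {q : MvPolynomial σ ℂ}
    (h : map (algebraMap k ℂ) f * q ∈ Ideal.span (map (algebraMap k ℂ) '' T)) :
    q ∈ Ideal.span (map (algebraMap k ℂ) '' T) := by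
  refine mem_of_cw fun Λ => ?_
  have h1 := cw_mem Λ h
  rw [cw_mul] at h1
  exact (hT.mem_or_mem h1).resolve_left hf

end cw

/-! ### Splitting the normal bundle -/

section split

variable {k : Type} [Field k] [Algebra k ℂ] {n r : ℕ}

/-- the Jacobian matrix of some columns -/
noncomputable def jk (g : Fin r → MvPolynomial (Fin n) k) (ι : Fin r → Fin n) :
    Matrix (Fin r) (Fin r) (MvPolynomial (Fin n) k) :=
  Matrix.of fun q l => pderiv (ι l) (g q)

theorem map_jk (g : Fin r → MvPolynomial (Fin n) k) (ι : Fin r → Fin n) :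
    map (algebraMap k ℂ) (jk g ι).det =
      (Sm.jm (fun q => map (algebraMap k ℂ) (g q)) ι).det := by
  rw [RingHom.map_det]
  congr 1
  ext q l
  show coeff _ (map (algebraMap k ℂ) (pderiv (ι l) (g q))) = coeff _ (pderiv (ι l)
    (map (algebraMap k ℂ) (g q)))
  rw [pderiv_map]

theorem isCI_spanK {g : Fin r → MvPolynomial (Fin n) k}
    (hg : Sm.IsCI fun q => map (algebraMap k ℂ) (g q)) :
    (1 : MvPolynomial (Fin n) k) ∈
      Ideal.span (Set.range g ∪ Set.range fun ι : Fin r → Fin n => (jk g ι).det) := by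
  refine mem_of_map ?_
  rw [Set.image_union, ← Set.range_comp, ← Set.range_comp, map_one]
  have h1 := Sm.isCI_span hg
  have h2 : (map (algebraMap k ℂ)) ∘ (fun ι : Fin r → Fin n => (jk g ι).det) =
      fun ι => (Sm.jm (fun q => map (algebraMap k ℂ) (g q)) ι).det :=
    funext fun ι => map_jk g ι
  rw [h2]
  exact (Ideal.eq_top_iff_one _).1 h1

/-- **A splitting of the normal bundle.** -/
theorem exists_split {g : Fin r → MvPolynomial (Fin n) k}
    (hg : Sm.IsCI fun q => map (algebraMap k ℂ) (g q)) :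
    ∃ B : Fin n → Fin r → MvPolynomial (Fin n) k, ∀ q l,
      ∑ i, pderiv i (g q) * B i l - (if q = l then 1 else 0) ∈ Ideal.span (Set.range g) := by
  classical
  have h1 := isCI_spanK hg
  rw [Ideal.span_union, Submodule.mem_sup] at h1
  obtain ⟨s, hs, t, ht, hst⟩ := h1
  obtain ⟨a, ha⟩ := Ideal.mem_span_range_iff_exists_fun.1 ht
  refine ⟨fun i l => ∑ ι : Fin r → Fin n, a ι * ∑ l', (if ι l' = i then 1 else 0) *
    (jk g ι).adjugate l' l, fun q l => ?_⟩
  have h2 : ∀ ι : Fin r → Fin n, ∑ l', pderiv (ι l') (g q) * (jk g ι).adjugate l' l =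
      (jk g ι).det * (if q = l then 1 else 0) := by
    intro ι
    have h3 := congrFun (congrFun (Matrix.mul_adjugate (jk g ι)) q) l
    rw [Matrix.mul_apply, Matrix.smul_apply, Matrix.one_apply, smul_eq_mul] at h3
    exact h3
  have h4 : ∑ i, pderiv i (g q) * ∑ ι : Fin r → Fin n, a ι * ∑ l', (if ι l' = i then 1 else 0) *
      (jk g ι).adjugate l' l = t * (if q = l then 1 else 0) := by
    calc _ = ∑ ι : Fin r → Fin n, a ι * ∑ l', ∑ i, (if ι l' = i then pderiv i (g q) *
          (jk g ι).adjugate l' l else 0) := by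
          simp only [Finset.mul_sum]
          rw [Finset.sum_comm]
          refine Finset.sum_congr rfl fun ι _ => ?_
          rw [Finset.sum_comm]
          refine Finset.sum_congr rfl fun l' _ => Finset.sum_congr rfl fun i _ => ?_
          split_ifs <;> ring
      _ = ∑ ι : Fin r → Fin n, a ι * ((jk g ι).det * (if q = l then 1 else 0)) := by
          refine Finset.sum_congr rfl fun ι _ => ?_
          rw [← h2 ι]
          congr 1
          refine Finset.sum_congr rfl fun l' _ => ?_
          rw [Finset.sum_ite_eq, if_pos (Finset.mem_univ _)]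
      _ = _ := by
          rw [← ha, Finset.sum_mul]
          exact Finset.sum_congr rfl fun ι _ => by ring
  rw [h4]
  have h5 : t * (if q = l then (1 : MvPolynomial (Fin n) k) else 0) - (if q = l then 1 else 0) =
      -(if q = l then (1 : MvPolynomial (Fin n) k) else 0) * s := by
    split_ifs
    · linear_combination hst
    · ring
  rw [h5]
  exact Ideal.mul_mem_left _ _ hs

end split

end Pool.Agent.Q221.EM
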