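import Pool.Agent.Q221.EM.Loc

/-!
# `b`-functions on smooth complete intersections over `k`
-/

set_option autoImplicit false
set_option linter.unusedSectionVars false
set_option linter.unusedVariables false

namespace Pool.Agent.Q221.EM

open Pool.Agent.Q221.Sm (famG exists_TZ)

/-- a polynomial which is zero at the natural numbers is zero -/
theorem eval_zero_of {K : Type} [CommRing K] [Algebra ℂ K] (Q : Polynomial K)
    (h : ∀ s : ℕ, Q.eval (s : K) = 0) (z : ℂ) : Q.eval (algebraMap ℂ K z) = 0 := by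
  refine (Module.forall_dual_apply_eq_zero_iff ℂ _).1 fun Λ => ?_
  set T : Polynomial ℂ := ∑ i ∈ Q.support, Polynomial.monomial i (Λ (Q.coeff i)) with hT
  have h1 : ∀ z : ℂ, Λ (Q.eval (algebraMap ℂ K z)) = T.eval z := by
    intro z
    rw [Polynomial.eval_eq_sum, Polynomial.sum, map_sum, hT, Polynomial.eval_finsetSum]
    refine Finset.sum_congr rfl fun i _ => ?_
    rw [Polynomial.eval_monomial, ← map_pow, mul_comm, ← Algebra.smul_def, map_smul, smul_eq_mul,
      mul_comm]
  have h2 : T = 0 := by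
    refine Polynomial.eq_zero_of_infinite_isRoot _ (Set.Infinite.mono ?_
      (Set.infinite_range_of_injective (Nat.cast_injective (R := ℂ))))
    rintro _ ⟨s, rfl⟩
    show T.eval (s : ℂ) = 0
    rw [← h1, map_natCast, h s, map_zero]
  rw [h1, h2, Polynomial.eval_zero]

/-- **`b(-1)` is in the ideal of `f`**, `f` not a zero divisor. -/
theorem eval_neg_one_nzd {A : Type} [CommRing A] [Algebra ℂ A] {f : A}
    (hf : f ∈ nonZeroDivisors A) {b : Polynomial ℂ} {P : ℕ → Module.End ℂ A}
    (hP : P ∈ famG (Set.univ : Set (Derivation ℂ A A)))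
    (h : ∀ s : ℕ, P s (f ^ (s + 1)) = b.eval (s : ℂ) • f ^ s) :
    ∃ a : A, algebraMap ℂ A (b.eval (-1)) = f * a := by
  let K := Localization.Away f
  have hle : Submonoid.powers f ≤ nonZeroDivisors A := by
    rintro _ ⟨n, rfl⟩
    exact pow_mem hf n
  have hinj : Function.Injective (algebraMap A K) := IsLocalization.injective K hle
  obtain ⟨T, h1, h2, h3⟩ := exists_TZ (K := K) f hP
  obtain ⟨q, hq⟩ := h1 (Polynomial.C (algebraMap A K f))
  obtain ⟨a, ha⟩ := h3 1
  have hu : IsUnit (algebraMap A K f) := IsLocalization.Away.algebraMap_isUnit f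
  have e1 : ∀ z : ℂ, (q - b.map (algebraMap ℂ K)).eval (algebraMap ℂ K z) = 0 := by
    refine eval_zero_of _ fun s => ?_
    have e2 := h2 s (algebraMap A K f) (f ^ (s + 1)) (by rw [map_pow, pow_succ'])
    rw [h s, Algebra.smul_def, map_mul, map_pow, ← IsScalarTower.algebraMap_apply] at e2
    have e3 := (hu.pow s).mul_right_cancel e2
    have e4 := hq s
    rw [Polynomial.eval_C, Int.cast_natCast] at e4
    rw [Polynomial.eval_sub, sub_eq_zero, ← e4, e3, ← map_natCast (algebraMap ℂ K) s,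
      Polynomial.eval_map_algebraMap, Polynomial.aeval_algebraMap_apply,
      Polynomial.coe_aeval_eq_eval]
  refine ⟨a, hinj ?_⟩
  rw [← ha, mul_one]
  have e5 := hq (-1)
  rw [Polynomial.eval_C, Int.cast_neg, Int.cast_one] at e5
  have e6 : (-1 : K) = algebraMap ℂ K (-1) := by rw [map_neg, map_one]
  have e7 := e1 (-1)
  rw [Polynomial.eval_sub, sub_eq_zero] at e7
  rw [e5, e6, e7, ← IsScalarTower.algebraMap_apply, Polynomial.eval_map_algebraMap,
    Polynomial.aeval_algebraMap_apply, Polynomial.coe_aeval_eq_eval]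

open MvPolynomial Pool.Agent.W428.MOT Pool.Agent.Q42.CU Pool.Agent.Q223.MM
open Pool.Agent.H628R4.TP (IsBFunction)

section cases

variable {k : Type} [Field k] {n r : ℕ} {f : MvPolynomial (Fin n) k}
  {g : Fin r → MvPolynomial (Fin n) k}

theorem dvd_jet {N : ℕ} {z : Pt k (Fin n × Fin (N + 1))} (hz : z ∈ JetX g f N)
    {p : MvPolynomial (Fin n) k} (hp : p ∈ Ideal.span (Set.range g)) {j : ℕ} (hj : j ≤ N) :
    PowerSeries.coeff j (aeval (arc z) p) = 0 := by
  have h1 : Ideal.span (Set.range g) ≤ (Ideal.span {(PowerSeries.X :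
      PowerSeries (AlgebraicClosure k)) ^ (N + 1)}).comap
        (aeval (arc z) : MvPolynomial (Fin n) k →ₐ[k]
          PowerSeries (AlgebraicClosure k)).toRingHom := by
    rw [Ideal.span_le]
    rintro _ ⟨i, rfl⟩
    show _ ∈ Ideal.span _
    rw [Ideal.mem_span_singleton]
    exact PowerSeries.X_pow_dvd_iff.2 fun m hm => hz.1 i m (by omega)
  exact PowerSeries.X_pow_dvd_iff.1 (Ideal.mem_span_singleton.1 (h1 hp)) j (by omega)

theorem JetX_of_mem (hf : f ∈ Ideal.span (Set.range g)) (N : ℕ) : JetX g f N = ∅ := by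
  rw [Set.eq_empty_iff_forall_notMem]
  intro z hz
  have h1 := dvd_jet hz hf le_rfl
  rw [hz.2 N le_rfl, if_pos rfl] at h1
  exact one_ne_zero h1

theorem JetX_of_one (hf : (1 : MvPolynomial (Fin n) k) ∈ Ideal.span (insert f (Set.range g)))
    {N : ℕ} (hN : 0 < N) : JetX g f N = ∅ := by
  rw [Set.eq_empty_iff_forall_notMem]
  intro z hz
  obtain ⟨a, s, hs, h1⟩ := Ideal.mem_span_insert.1 hf
  have h2 := dvd_jet hz hs (Nat.zero_le N)
  have h3 : PowerSeries.coeff 0 (aeval (arc z) f) = (0 : AlgebraicClosure k) := by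
    rw [hz.2 0 (Nat.zero_le N), if_neg (by omega)]
  have h4 := congrArg (fun p => PowerSeries.coeff 0 (aeval (arc z) p)) h1
  beta_reduce at h4
  rw [map_one, map_add, map_add, h2, map_mul, PowerSeries.coeff_zero_eq_constantCoeff_apply,
    PowerSeries.coeff_zero_eq_constantCoeff_apply, map_mul, map_one,
    ← PowerSeries.coeff_zero_eq_constantCoeff_apply (aeval (arc z) f), h3, mul_zero,
    add_zero] at h4
  exact one_ne_zero h4

theorem zetaX_zero [CharZero k] (h : ∀ N, 0 < N → JetX g f N = ∅) : zetaX g f = 0 := by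
  obtain ⟨M, hM⟩ := exists_meas (zer g f)
  ext N
  rw [map_zero]
  rcases Nat.eq_zero_or_pos N with rfl | hN
  · exact coeff_genR_zero _ _ _
  · rw [zetaX, coeff_genR _ _ _ N hN]
    have h1 : jetS g f N hN = 0 := by
      rw [jetS, ← hM.2 _ _ _ _ _ (jetX_valid g f N hN) (jetX_base g f N hN)]
      have h2 := jetX_valid g f N hN
      rw [h N hN] at h2 ⊢
      exact echi_empty M h2
    rw [h1, map_zero, zero_mul]

end cases

/-! ### The `b`-functions -/

section bf

variable {k : Type} [Field k] [Algebra k ℂ] {n r : ℕ} {f : MvPolynomial (Fin n) k}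
  {g : Fin r → MvPolynomial (Fin n) k}

theorem range_map (g : Fin r → MvPolynomial (Fin n) k) :
    Set.range (fun q => map (algebraMap k ℂ) (g q)) =
      map (algebraMap k ℂ) '' Set.range g := by
  rw [← Set.range_comp]
  rfl

/-- the `b`-functions are zero at `-1` -/
theorem neg_one_root (hI : (Ideal.span (Set.range g)).IsPrime)
    (h1 : f ∉ Ideal.span (Set.range g))
    (h2 : (1 : MvPolynomial (Fin n) k) ∉ Ideal.span (insert f (Set.range g)))
    {b : Polynomial ℂ} (hb : Sm.IsBX (map (algebraMap k ℂ) f)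
      (fun q => map (algebraMap k ℂ) (g q)) b) : b.eval (-1) = 0 := by
  by_contra hne
  obtain ⟨P, hP, h⟩ := hb
  have hnz : Ideal.Quotient.mk (Ideal.span (Set.range fun q => map (algebraMap k ℂ) (g q)))
      (map (algebraMap k ℂ) f) ∈ nonZeroDivisors (MvPolynomial (Fin n) ℂ ⧸
        Ideal.span (Set.range fun q => map (algebraMap k ℂ) (g q))) := by
    rw [mem_nonZeroDivisors_iff_left]
    intro x hx
    obtain ⟨q, rfl⟩ := Ideal.Quotient.mk_surjective x
    rw [← map_mul, Ideal.Quotient.eq_zero_iff_mem] at hx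
    rw [Ideal.Quotient.eq_zero_iff_mem]
    rw [range_map] at hx ⊢
    exact nzd_map hI h1 hx
  obtain ⟨a, ha⟩ := eval_neg_one_nzd hnz hP h
  obtain ⟨q, rfl⟩ := Ideal.Quotient.mk_surjective a
  apply h2
  refine mem_of_map ?_
  rw [map_one, Set.image_insert_eq, ← range_map]
  rw [← map_mul] at ha
  have h3 : C (b.eval (-1)) - map (algebraMap k ℂ) f * q ∈
      Ideal.span (Set.range fun q => map (algebraMap k ℂ) (g q)) :=
    (Ideal.Quotient.mk_eq_mk_iff_sub_mem _ _).1 ha
  have h4 : (1 : MvPolynomial (Fin n) ℂ) = C (b.eval (-1))⁻¹ * (map (algebraMap k ℂ) f * q) +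
      C (b.eval (-1))⁻¹ * (C (b.eval (-1)) - map (algebraMap k ℂ) f * q) := by
    rw [← mul_add, add_sub_cancel, ← C_mul, inv_mul_cancel₀ hne, C_1]
  rw [h4]
  refine Ideal.add_mem _ (Ideal.mul_mem_left _ _ (Ideal.mul_mem_right _ _
    (Ideal.subset_span (Set.mem_insert _ _)))) (Ideal.mul_mem_left _ _
      (Ideal.span_mono (Set.subset_insert _ _) h3))

theorem ne_top_map (hI : (Ideal.span (Set.range g)).IsPrime) :
    Ideal.span (Set.range fun q => map (algebraMap k ℂ) (g q)) ≠ ⊤ := by
  intro h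
  apply hI.ne_top
  rw [Ideal.eq_top_iff_one]
  refine mem_of_map ?_
  rw [map_one, ← range_map, h]
  exact Submodule.mem_top

theorem card_leK (hg : Sm.IsCI fun q => map (algebraMap k ℂ) (g q))
    (hI : (Ideal.span (Set.range g)).IsPrime) : r ≤ n := by
  have := Sm.card_le hg (ne_top_map hI)
  rwa [Fintype.card_fin] at this

/-- if `f + ∑ y_q g_q` is constant, then `f` is constant -/
theorem FK_const (h : (FK f g).totalDegree = 0) : ∃ c : k, f = C c := by
  obtain ⟨c, h1⟩ : ∃ c : k, FK f g = C c := ⟨_, totalDegree_eq_zero_iff_eq_C.1 h⟩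
  refine ⟨c, ?_⟩
  have h2 := congrArg (aeval (Fin.addCases (fun i : Fin n => (X i : MvPolynomial (Fin n) k))
    fun _ : Fin r => 0)) h1
  rw [FK, map_add, map_sum, aeval_rename] at h2
  have h3 : (Fin.addCases (fun i : Fin n => (X i : MvPolynomial (Fin n) k)) fun _ : Fin r => 0) ∘
      Fin.castAdd r = X := by
    funext i
    rw [Function.comp_apply, Fin.addCases_left]
  rw [h3, aeval_X_left_apply, Finset.sum_eq_zero, add_zero] at h2
  · rw [h2, aeval_C, MvPolynomial.algebraMap_eq]
  · intro k _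
    rw [map_mul, aeval_X, Fin.addCases_right, zero_mul]

theorem FK_deg (h1 : f ∉ Ideal.span (Set.range g))
    (h2 : (1 : MvPolynomial (Fin n) k) ∉ Ideal.span (insert f (Set.range g))) :
    (FK f g).totalDegree ≠ 0 := by
  intro h
  obtain ⟨c, rfl⟩ := FK_const h
  rcases eq_or_ne c 0 with rfl | hc
  · apply h1
    rw [C_0]
    exact Ideal.zero_mem _
  · apply h2
    have h3 : (1 : MvPolynomial (Fin n) k) = C c⁻¹ * C c := by
      rw [← C_mul, inv_mul_cancel₀ hc, C_1]
    rw [h3]
    exact Ideal.mul_mem_left _ _ (Ideal.subset_span (Set.mem_insert _ _))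

end bf

end Pool.Agent.Q221.EM
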