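import Pool.Agent.Q221.EM.Geo

/-!
# The classes of the jets do not depend on the additional variables
-/

set_option autoImplicit false
set_option linter.unusedSectionVars false
set_option linter.unusedVariables false

namespace Pool.Agent.Q221.EM

open MvPolynomial Pool.Agent.W428.MOT Pool.Agent.Q42.CU Pool.Agent.Q223.MM
open Pool.Agent.Q223.ID Pool.Agent.Q223.TW Pool.Agent.TH192.MT

variable {k : Type} [Field k] {n r : ℕ}

theorem coeff_ft {f : MvPolynomial (Fin n) k} {g : Fin r → MvPolynomial (Fin n) k}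
    {B : Fin n → Fin r → MvPolynomial (Fin n) k} {N : ℕ}
    {γ : Fin n → PowerSeries (AlgebraicClosure k)}
    (h : ∀ q, ∀ l < N, PowerSeries.coeff l (aeval γ (g q)) = 0) {l : ℕ} (hl : l < N) :
    PowerSeries.coeff l (aeval γ (ft f g B)) = PowerSeries.coeff l (aeval γ f) := by
  have h1 : (PowerSeries.X : PowerSeries (AlgebraicClosure k)) ^ N ∣
      aeval γ (∑ l, hB f B l * g l) := by
    rw [map_sum]
    refine Finset.dvd_sum fun q _ => ?_
    rw [map_mul]
    exact Dvd.dvd.mul_left (PowerSeries.X_pow_dvd_iff.2 (h q)) _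
  rw [ft, map_sub, map_sub, PowerSeries.X_pow_dvd_iff.1 h1 l hl, sub_zero]

section cmp

variable {R : Type} [CommRing R] (M : EMeas (0 : MvPolynomial (Fin n) k) R)
  (f : MvPolynomial (Fin n) k) (g : Fin r → MvPolynomial (Fin n) k)
  (B : Fin n → Fin r → MvPolynomial (Fin n) k) (κ : ℕ)

/-- the starting points in the larger space -/
def VK : Set (Pt k (Fin n ⊕ Fin κ)) :=
  {x | (fun i => x (Sum.inl i)) ∈ (zer g f).1 ∧ ∀ m, x (Sum.inr m) = 0}

theorem constr_VK : Constr (VK f g κ) :=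
  Constr.and ((zer g f).2.preimage (fun (x : Pt k (Fin n ⊕ Fin κ)) i => x (Sum.inl i))
    fun _ => IsPF.coord _) (Constr.all fun m => Constr.eqz (IsPF.coord (Sum.inr m)))

/-- **The comparison.** -/
theorem cmp (c : ℕ → ℕ) (N : ℕ) (w : Fin (N + 1) → ℤ) (d : ℕ)
    (h1 : Valid (0 : MvPolynomial (Fin n) k)
      (SV (gK g κ) (fK f g B κ) (VK f g κ) c (N + 1) (N + 1) N)
      (fun p => w p.2) d (bx Sum.inl N))
    (h2 : Valid (0 : MvPolynomial (Fin n) k)
      (SV g f (zer g f).1 c (N + 1) (N + 1) N) (fun p => w p.2) d (bx id N)) :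
    M.χ _ (SV (gK g κ) (fK f g B κ) (VK f g κ) c (N + 1) (N + 1) N)
      (fun p => w p.2) d (bx Sum.inl N) =
    M.χ _ (SV g f (zer g f).1 c (N + 1) (N + 1) N) (fun p => w p.2) d (bx id N) := by
  have e1 : ∀ (z : Pt k ((Fin n ⊕ Fin κ) × Fin (N + 1))) (p : MvPolynomial (Fin n) k),
      aeval (ar z) (rename (Sum.inl : _ → Fin n ⊕ Fin κ) p) =
        aeval (ar fun p : Fin n × Fin (N + 1) => z (Sum.inl p.1, p.2)) p :=
    fun z p => aeval_rename _ _ _
  have e2 : ∀ w : Pt k (Fin n × Fin (N + 1)), (fun p : Fin n × Fin (N + 1) =>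
      (fun p : (Fin n ⊕ Fin κ) × Fin (N + 1) =>
        (Sum.elim (fun i => w (i, p.2)) (fun _ => 0) p.1 : AlgebraicClosure k))
        (Sum.inl p.1, p.2)) = w := fun w => rfl
  have e3 : ∀ z ∈ SV (gK g κ) (fK f g B κ) (VK f g κ) c (N + 1) (N + 1) N,
      (fun p : Fin n × Fin (N + 1) => z (Sum.inl p.1, p.2)) ∈
        SV g f (zer g f).1 c (N + 1) (N + 1) N := by
    rintro z ⟨⟨hz1, hz2⟩, hz3, hz4⟩
    have h3 : ∀ q, ∀ l < N + 1, PowerSeries.coeff l (aeval (ar fun p : Fin n × Fin (N + 1) =>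
        z (Sum.inl p.1, p.2)) (g q)) = 0 := by
      intro q l hl
      rw [← e1]
      exact hz3 (Sum.inl q) l hl
    refine ⟨hz1, h3, fun l hl => ?_⟩
    rw [← hz4 l hl, fK, e1, coeff_ft h3 hl]
  have e4 : ∀ z ∈ SV (gK g κ) (fK f g B κ) (VK f g κ) c (N + 1) (N + 1) N,
      ∀ m a, z (Sum.inr m, a) = 0 := by
    rintro z ⟨-, hz3, -⟩ m a
    have h3 := hz3 (Sum.inr m) a a.2
    simp only [gK, Sum.elim_inr, aeval_X] at h3
    rw [coeff_ar' _ _ _ a.2] at h3
    exact h3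
  refine M.iso _ _ _ _ d d _ _ h1 h2 (fun z p => z (Sum.inl p.1, p.2))
    (fun w p => Sum.elim (fun i => w (i, p.2)) (fun _ => 0) p.1)
    (regularOn_poly (fun _ => IsPF.coord _) _) (regularOn_poly (fun p => ?_) _)
    (fun z hz => e3 z hz) ?_ ?_ ?_ ?_ ?_
  · rcases p with ⟨i | m, a⟩
    · exact IsPF.coord _
    · exact IsPF.zero
  · rintro w ⟨hw1, hw2, hw3⟩
    refine ⟨⟨hw1, fun m => rfl⟩, fun q l hl => ?_, fun l hl => ?_⟩
    · rcases q with q | m
      · simp only [gK, Sum.elim_inl]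
        rw [e1]
        exact hw2 q l hl
      · simp only [gK, Sum.elim_inr, aeval_X]
        rw [coeff_ar' _ _ _ hl]
        rfl
    · rw [fK, e1]
      exact (coeff_ft hw2 hl).trans (hw3 l hl)
  · intro z hz
    funext p
    rcases p with ⟨i | m, a⟩
    · rfl
    · exact (e4 z hz m a).symm
  · intro w _
    rfl
  · intro z _
    rfl
  · intro l _ z _
    rfl

/-- the class of the jets of level `m` of `X` on which `f = 0` -/
noncomputable def Y0 (m : ℕ) : R :=
  M.χ (Fin n × Fin (m + 1)) (SV g f (zer g f).1 0 (m + 1) (m + 1) m) 0 1 (bx id m)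

theorem Yc_K (m : ℕ) : Yc M (gK g κ) (fK f g B κ) (VK f g κ) Sum.inl m = Y0 M f g m :=
  cmp M f g B κ 0 m 0 1 (valid_zero0 (constr_SV _ _ (constr_VK f g κ) _ _ _ _) _)
    (valid_zero0 (constr_SV _ _ (zer g f).2 _ _ _ _) _)

theorem SV_JetX (N : ℕ) (hN : 0 < N) :
    SV g f (zer g f).1 (del N) (N + 1) (N + 1) N = JetX g f N := by
  ext z
  constructor
  · rintro ⟨-, h1, h2⟩
    refine ⟨fun i j hj => h1 i j (by omega), fun j hj => ?_⟩
    have h3 := h2 j (by omega)
    rw [← arc_eq] at h3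
    rw [h3, del]
    split_ifs
    · rw [Nat.cast_one]
    · rw [Nat.cast_zero]
  · intro h
    refine ⟨jetX_base g f N hN z h, fun q l hl => h.1 q l (by omega), fun l hl => ?_⟩
    rw [← arc_eq, h.2 l (by omega), del]
    split_ifs
    · rw [Nat.cast_one]
    · rw [Nat.cast_zero]

end cmp

section cls

variable {f : MvPolynomial (Fin n) k} {g : Fin r → MvPolynomial (Fin n) k}
  {M : EMeas (0 : MvPolynomial (Fin n) k) (K0S (zer g f))}

theorem Xc_K (hM : IsMeas (zer g f) M) (B : Fin n → Fin r → MvPolynomial (Fin n) k) (κ N : ℕ)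
    (hN : 0 < N) : Xc M (gK g κ) (fK f g B κ) (VK f g κ) Sum.inl N = jetS g f N hN := by
  have h1 := cmp M f g B κ (del N) N (fun a => ((a : ℕ) : ℤ)) N
    (valid_SV _ _ (constr_VK f g κ) hN Sum.inl (hcd N) _ _ _)
    (valid_SV _ _ (zer g f).2 hN id (hcd N) _ _ _)
  refine h1.trans ?_
  rw [SV_JetX f g N hN]
  exact hM.2 _ _ _ _ _ (jetX_valid g f N hN) (jetX_base g f N hN)

theorem datK_V {B : Fin n → Fin r → MvPolynomial (Fin n) k} {κ m : ℕ}
    {P : MvPolynomial (Fin m) k}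
    (ψ : MvPolynomial (Fin (n + r + (κ + κ))) k ≃ₐ[k] MvPolynomial (Fin m) k)
    (hψ : ψ (stb (FK f g) κ) = P) : (datK B ψ hψ).V = VK f g κ := by
  ext x
  constructor
  · rintro ⟨h1, h2⟩
    exact ⟨h1, fun m => (h2 (Sum.inr m)).trans
      (map_zero (aeval fun i => x (Sum.inl i) : MvPolynomial (Fin n) k →ₐ[k] AlgebraicClosure k))⟩
  · rintro ⟨h1, h2⟩
    refine ⟨h1, fun p => ?_⟩
    rcases p with i | m
    · exact (aeval_X (fun i => x (Sum.inl i)) i).symm
    · exact (h2 m).trans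
        (map_zero (aeval fun i => x (Sum.inl i) :
          MvPolynomial (Fin n) k →ₐ[k] AlgebraicClosure k)).symm

/-- the homomorphism -/
noncomputable def HK {m : ℕ} {P : MvPolynomial (Fin m) k} (s : Sec (zr P) (zer g f)) :
    K0Mu P →+* K0S (zer g f) := s.inv.hom.comp (homS P)

theorem HK_L {m : ℕ} {P : MvPolynomial (Fin m) k} (s : Sec (zr P) (zer g f)) :
    HK s (LMu P) = LS (zer g f) := by
  rw [HK, RingHom.comp_apply, homS_L, s.hom_L]

/-- **The image of the class of the jets.** -/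
theorem HK_jet (hM : IsMeas (zer g f) M) {B : Fin n → Fin r → MvPolynomial (Fin n) k}
    (hB' : ∀ q l, ∑ i, pderiv i (g q) * B i l - (if q = l then 1 else 0) ∈
      Ideal.span (Set.range g)) {κ m : ℕ} {P : MvPolynomial (Fin m) k}
    (ψ : MvPolynomial (Fin (n + r + (κ + κ))) k ≃ₐ[k] MvPolynomial (Fin m) k)
    (hψ : ψ (stb (FK f g) κ) = P) (N : ℕ) (hN : 0 < N) :
    HK (datK B ψ hψ).sec (jetCls P N hN) =
      jetS g f N hN * LS (zer g f) ^ (r + κ) * LS (zer g f) ^ ((r + κ) * N) +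
      ∑ m ∈ Finset.Ico 1 N, (LS (zer g f) ^ (r + κ) - 1) * Y0 M f g m *
        LS (zer g f) ^ ((n + κ) * (N - m)) * LS (zer g f) ^ ((r + κ) * N - (N - m)) := by
  have h1 : HK (datK B ψ hψ).sec (jetCls P N hN) =
      K0S.mk ((datK B ψ hψ).sec.pull (toS (diagVar (jetValid P N hN)))) := by
    rw [HK, RingHom.comp_apply, jetCls, homS_mk, Inv.hom_mk]
    rfl
  have hVg : ∀ x ∈ VK f g κ, ∀ q, aeval x (gK g κ q) = (0 : AlgebraicClosure k) := by
    intro x hx q
    rcases q with q | m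
    · simp only [gK, Sum.elim_inl, aeval_rename]
      exact hx.1.1 q
    · simp only [gK, Sum.elim_inr, aeval_X]
      exact hx.2 m
  have h2 := (datK B ψ hψ).jets hM N hN
  rw [datK_V ψ hψ, Ac_eq M (isSplit_K hB' κ fun x hx q => hx.1.1 q) (constr_VK f g κ) hVg hN] at h2
  have e1 : (datK B ψ hψ).b = Sum.inl := rfl
  rw [h1, h2, e1, Xc_K hM B κ N hN, hM.1]
  simp only [Yc_K, Fintype.card_sum, Fintype.card_fin]

end cls

end Pool.Agent.Q221.EM
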