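import Pool.Agent.Q221.EM.Tools

/-!
# Invariants over a constructible set and the classes of base changes
-/

set_option autoImplicit false
set_option linter.unusedSectionVars false
set_option linter.unusedVariables false

namespace Pool.Agent.Q221.EM

open MvPolynomial Pool.Agent.W428.MOT

variable {k : Type} [Field k] {m n : ℕ}

/-- `Z` in `𝔸 ^ n` -/
noncomputable def secId (Z : Base k n) : Sec (zr (0 : MvPolynomial (Fin n) k)) Z where
  φ := X
  ψ := X
  mem := fun x _ => ⟨fun i => i.elim0, map_zero _⟩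
  left := fun x _ => by
    funext i
    rw [aeval_X, aeval_X]

theorem secId_P (Z : Base k n) (x : Pt k (Fin n)) : (secId Z).P x = x := by
  funext i
  exact aeval_X _ _

theorem secId_Q (Z : Base k n) (x : Pt k (Fin n)) : (secId Z).Q x = x := by
  funext i
  exact aeval_X _ _

/-- the properties of the invariant with values in `K₀^μ̂(Var_Z)` -/
def IsMeas (Z : Base k n) (M : EMeas (0 : MvPolynomial (Fin n) k) (K0S Z)) : Prop :=
  M.L = LS Z ∧ ∀ (ι : Type) [Fintype ι] (S : Set (Pt k ι)) (ρ : ι → ℤ) (d : ℕ)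
    (β : Fin n → Option ι) (h : Valid (0 : MvPolynomial (Fin n) k) S ρ d β)
    (hZ : ∀ z ∈ S, cbase β z ∈ Z.1), M.χ ι S ρ d β = K0S.mk (diagS h hZ)

theorem exists_meas [CharZero k] (Z : Base k n) :
    ∃ M : EMeas (0 : MvPolynomial (Fin n) k) (K0S Z), IsMeas Z M := by
  obtain ⟨M₀, hL, hM⟩ := Pool.Agent.W358.ME.EK0.main k (0 : MvPolynomial (Fin n) k)
  refine ⟨emap M₀ ((secId Z).inv.hom.comp (homS 0)), ?_, ?_⟩
  · show ((secId Z).inv.hom.comp (homS 0)) M₀.L = _
    rw [hL, RingHom.comp_apply, homS_L, (secId Z).hom_L]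
  · intro ι _ S ρ d β h hZ
    show ((secId Z).inv.hom.comp (homS 0)) (M₀.χ ι S ρ d β) = _
    rw [hM ι S ρ d β h, RingHom.comp_apply, homS_mk, Inv.hom_mk]
    show K0S.mk ((secId Z).pull (toS (diagVar h))) = _
    have l1 : ∀ z : Pt k (Fin n), z ∈ Z.1 → (secId Z).In z := by
      intro z hz
      refine ⟨?_, ?_⟩
      · rw [secId_Q]
        exact hz
      · rw [secId_Q, secId_P]
    refine mk_iso ((secId Z).pull (toS (diagVar h))) (diagS h hZ) (fun z => z) (fun z => z) ?_
    exact
      { regular := regularOn_poly (fun i => IsPF.coord i) _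
        regular' := regularOn_poly (fun i => IsPF.coord i) _
        mapsTo := fun z hz => hz.1
        mapsTo' := fun z hz => ⟨hz, l1 _ (hZ _ hz)⟩
        left_inv := fun _ _ => rfl
        right_inv := fun _ _ => rfl
        overBase := fun z _ => ((secId_Q Z _).symm)
        equivariant := fun _ _ _ _ => rfl }

theorem isPF_cbase {ι : Type} (β : Fin n → Option ι) (i : Fin n) :
    IsPF fun z : Pt k ι => cbase β z i := by
  cases hb : β i with
  | none => simpa only [cbase, hb, Option.elim] using IsPF.zero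
  | some j => simpa only [cbase, hb, Option.elim] using IsPF.coord _

theorem cbase_dact {ι : Type} {β : Fin n → Option ι} {ρ : ι → ℤ}
    (h : ∀ i j, β i = some j → ρ j = 0) (l : AlgebraicClosure k) (z : Pt k ι) :
    cbase β (dact ρ l z) = cbase β z := by
  funext i
  simp only [cbase]
  cases hb : β i with
  | none => rfl
  | some j =>
    simp only [Option.elim, dact]
    rw [h i j hb, zpow_zero, one_mul]

/-- the set of the points of the base change, with the point of the base as coordinates -/
def PS {F : MvPolynomial (Fin m) k} {Z : Base k n} (s : Sec (zr F) Z) {ι : Type}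
    (S : Set (Pt k ι)) (β : Fin m → Option ι) : Set (Pt k (Fin n ⊕ ι)) :=
  {w | (fun i => w (Sum.inr i)) ∈ S ∧ (fun i => w (Sum.inl i)) ∈ Z.1 ∧
    cbase β (fun i => w (Sum.inr i)) = s.P fun i => w (Sum.inl i)}

theorem valid_PS {F : MvPolynomial (Fin m) k} {Z : Base k n} (s : Sec (zr F) Z) {ι : Type}
    {S : Set (Pt k ι)} {ρ : ι → ℤ} {d : ℕ} {β : Fin m → Option ι} (h : Valid F S ρ d β) :
    Valid (0 : MvPolynomial (Fin n) k) (PS s S β) (Sum.elim (fun _ => 0) ρ) d
      (fun i => some (Sum.inl i)) where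
  constr := by
    refine Constr.and (h.constr.preimage (fun w : Pt k (Fin n ⊕ ι) => fun i => w (Sum.inr i))
      fun _ => IsPF.coord _) (Constr.and (Z.2.preimage
        (fun w : Pt k (Fin n ⊕ ι) => fun i => w (Sum.inl i)) fun _ => IsPF.coord _) ?_)
    have h1 : {w : Pt k (Fin n ⊕ ι) | cbase β (fun i => w (Sum.inr i)) =
        s.P fun i => w (Sum.inl i)} = {w | ∀ j, cbase β (fun i => w (Sum.inr i)) j =
        s.P (fun i => w (Sum.inl i)) j} := by
      ext y
      exact funext_iff
    rw [h1]
    exact Constr.all fun j => Constr.eq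
      ((isPF_cbase β j).comp (fun w : Pt k (Fin n ⊕ ι) => fun i => w (Sum.inr i))
        fun _ => IsPF.coord _)
      ((s.isPF_P j).comp (fun w : Pt k (Fin n ⊕ ι) => fun i => w (Sum.inl i))
        fun _ => IsPF.coord _)
  pos := h.pos
  stable := fun l hl w hw => by
    have h1 : (fun i => dact (Sum.elim (fun _ => 0) ρ) l w (Sum.inr i)) =
        dact ρ l fun i => w (Sum.inr i) := rfl
    have h2 : (fun i => dact (Sum.elim (fun _ => 0) ρ) l w (Sum.inl i)) =
        fun i => w (Sum.inl i) := by
      funext i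
      simp [dact]
    refine ⟨?_, ?_, ?_⟩
    · rw [h1]
      exact h.stable l hl _ hw.1
    · rw [h2]
      exact hw.2.1
    · rw [h1, h2, cbase_dact h.inv]
      exact hw.2.2
  base := fun z _ => map_zero _
  inv := fun i j h => by
    rw [Option.some.injEq] at h
    rw [← h]
    rfl

/-- **The class of the base change of a variety with diagonal action.** -/
theorem pull_diag {F : MvPolynomial (Fin m) k} {Z : Base k n} (s : Sec (zr F) Z)
    {M : EMeas (0 : MvPolynomial (Fin n) k) (K0S Z)} (hM : IsMeas Z M) {ι : Type} [Fintype ι]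
    {S : Set (Pt k ι)} {ρ : ι → ℤ} {d : ℕ} {β : Fin m → Option ι} (h : Valid F S ρ d β) :
    K0S.mk (s.pull (toS (diagVar h))) =
      M.χ (Fin n ⊕ ι) (PS s S β) (Sum.elim (fun _ => 0) ρ) d fun i => some (Sum.inl i) := by
  have hZ : ∀ w ∈ PS s S β, cbase (fun i => some (Sum.inl i)) w ∈ Z.1 := fun w hw => hw.2.1
  rw [hM.2 _ _ _ _ _ (valid_PS s h) hZ]
  let a := Fintype.equivFin ι
  let c := Fintype.equivFin (Fin n ⊕ ι)
  set A : Pt k (Fin (Fintype.card ι)) → Pt k (Fin (Fintype.card (Fin n ⊕ ι))) := fun u j =>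
    (Sum.elim (s.Q (cbase β fun i => u (a i))) (fun i => u (a i)) : _ → AlgebraicClosure k)
      (c.symm j) with hA
  set B : Pt k (Fin (Fintype.card (Fin n ⊕ ι))) → Pt k (Fin (Fintype.card ι)) := fun v j =>
    v (c (Sum.inr (a.symm j))) with hB
  have a1 : ∀ u, (fun i => A u (c (Sum.inl i))) = s.Q (cbase β fun i => u (a i)) := by
    intro u
    funext i
    simp only [hA, Equiv.symm_apply_apply, Sum.elim_inl]
  have a2 : ∀ u, (fun i => A u (c (Sum.inr i))) = fun i => u (a i) := by
    intro u
    funext i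
    simp only [hA, Equiv.symm_apply_apply, Sum.elim_inr]
  have b1 : ∀ v, (fun i => B v (a i)) = fun i => v (c (Sum.inr i)) := by
    intro v
    funext i
    simp only [hB, Equiv.symm_apply_apply]
  have l1 : ∀ u : Pt k (Fin (Fintype.card ι)), (fun i => u (a i)) ∈ S →
      s.In (cbase β fun i => u (a i)) → (fun i => A u (c i)) ∈ PS s S β := by
    intro u h1 h2
    refine ⟨?_, ?_, ?_⟩
    · rw [a2]
      exact h1
    · rw [a1]
      exact h2.1
    · rw [a1, a2]
      exact h2.2.symm
  have l2 : ∀ v : Pt k (Fin (Fintype.card (Fin n ⊕ ι))), (fun i => v (c i)) ∈ PS s S β →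
      (fun i => B v (a i)) ∈ S ∧ s.In (cbase β fun i => B v (a i)) := by
    intro v hv
    rw [b1]
    refine ⟨hv.1, ?_⟩
    have h1 : cbase β (fun i => v (c (Sum.inr i))) = s.P fun i => v (c (Sum.inl i)) := hv.2.2
    rw [h1]
    exact s.In_P hv.2.1
  have l3 : ∀ u : Pt k (Fin (Fintype.card ι)), B (A u) = u := by
    intro u
    funext j
    have h1 := congrFun (a2 u) (a.symm j)
    simp only [Equiv.apply_symm_apply] at h1
    exact h1
  have l4 : ∀ v : Pt k (Fin (Fintype.card (Fin n ⊕ ι))), (fun i => v (c i)) ∈ PS s S β →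
      A (B v) = v := by
    intro v hv
    have h1 : cbase β (fun i => v (c (Sum.inr i))) = s.P fun i => v (c (Sum.inl i)) := hv.2.2
    have h2 : s.Q (cbase β fun i => B v (a i)) = fun i => v (c (Sum.inl i)) := by
      rw [b1, h1, s.QP hv.2.1]
    funext j
    obtain ⟨i, rfl⟩ := c.surjective j
    rcases i with i | i
    · rw [congrFun (a1 (B v)) i, h2]
    · rw [congrFun (a2 (B v)) i, congrFun (b1 v) i]
  have l5 : ∀ (l : AlgebraicClosure k) (u : Pt k (Fin (Fintype.card ι))),
      A (dact (fun i => ρ (a.symm i)) l u) =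
        dact (fun i => (Sum.elim (fun _ => 0) ρ : Fin n ⊕ ι → ℤ) (c.symm i)) l (A u) := by
    intro l u
    have h1 : (fun i => dact (fun i => ρ (a.symm i)) l u (a i)) = dact ρ l fun i => u (a i) := by
      funext i
      simp only [dact, Equiv.symm_apply_apply]
    funext j
    obtain ⟨i, rfl⟩ := c.surjective j
    rcases i with i | i
    · rw [congrFun (a1 _) i, h1, cbase_dact h.inv]
      show _ = l ^ (Sum.elim (fun _ => 0) ρ : Fin n ⊕ ι → ℤ) (c.symm (c (Sum.inl i))) *
        A u (c (Sum.inl i))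
      rw [Equiv.symm_apply_apply, congrFun (a1 u) i, Sum.elim_inl, zpow_zero, one_mul]
    · rw [congrFun (a2 _) i]
      show _ = l ^ (Sum.elim (fun _ => 0) ρ : Fin n ⊕ ι → ℤ) (c.symm (c (Sum.inr i))) *
        A u (c (Sum.inr i))
      rw [Equiv.symm_apply_apply, congrFun (a2 u) i, Sum.elim_inr]
      simp only [dact, Equiv.symm_apply_apply]
  refine mk_iso (s.pull (toS (diagVar h))) (diagS (valid_PS s h) hZ) A B ?_
  exact
    { regular := by
        refine regularOn_poly (fun j => ?_) _
        rcases hi : c.symm j with i | i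
        · simp only [hA, hi, Sum.elim_inl]
          exact ((s.isPF_Q i).comp (cbase β) fun _ => isPF_cbase β _).comp
            (fun u : Pt k (Fin (Fintype.card ι)) => fun i => u (a i)) fun _ => IsPF.coord _
        · simp only [hA, hi, Sum.elim_inr]
          exact IsPF.coord _
      regular' := regularOn_poly (fun _ => IsPF.coord _) _
      mapsTo := fun u hu => l1 u hu.1 hu.2
      mapsTo' := fun v hv => l2 v hv
      left_inv := fun u _ => l3 u
      right_inv := fun v hv => l4 v hv
      overBase := fun u _ => a1 u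
      equivariant := fun l _ u _ => l5 _ u }

end Pool.Agent.Q221.EM
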