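import Pool.Agent.Q221.EM.Dec
import Pool.Agent.Q221.EM.Meas

/-!
# The jets of a polynomial along a section
-/

set_option autoImplicit false
set_option linter.unusedSectionVars false
set_option linter.unusedVariables false

namespace Pool.Agent.Q221.EM

open MvPolynomial Pool.Agent.W428.MOT Pool.Agent.TH192.MT
open Pool.Agent.Q223.ID Pool.Agent.Q223.TW

variable {k : Type} [Field k]

theorem arc_eq {m N : ℕ} (z : Pt k (Fin m × Fin (N + 1))) : arc z = ar z := rfl

variable {m n : ℕ} {σ τ : Type} [Fintype σ] [Fintype τ]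

/-- `f + ∑ y_q g_q` -/
noncomputable def GS (g : τ → MvPolynomial σ k) (f : MvPolynomial σ k) :
    MvPolynomial (σ ⊕ τ) k :=
  rename Sum.inl f + ∑ q, X (Sum.inr q) * rename Sum.inl (g q)

/-- the data: an isomorphism which takes `f + ∑ y_q g_q` to `P`, and a section `x ↦ (sG(x), 0)` of
polynomials over `Z` -/
structure Dat (g : τ → MvPolynomial σ k) (f : MvPolynomial σ k) (P : MvPolynomial (Fin m) k)
    (Z : Base k n) where
  θ : MvPolynomial (σ ⊕ τ) k ≃ₐ[k] MvPolynomial (Fin m) k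
  hθ : θ (GS g f) = P
  b : Fin n → σ
  s : σ → MvPolynomial (Fin n) k
  hs : ∀ i, s (b i) = X i
  hf : ∀ x ∈ Z.1, aeval (fun p => aeval x (s p)) f = (0 : AlgebraicClosure k)

section

variable {g : τ → MvPolynomial σ k} {f : MvPolynomial σ k} {P : MvPolynomial (Fin m) k}
  {Z : Base k n} (D : Dat g f P Z)

/-- the section -/
noncomputable def Dat.sG (a : σ ⊕ τ) : MvPolynomial (Fin n) k := Sum.elim D.s (fun _ => 0) a

/-- the point over `x` -/
noncomputable def Dat.pt (x : Pt k (Fin n)) (a : σ ⊕ τ) : AlgebraicClosure k := aeval x (D.sG a)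

theorem Dat.aeval_sec (x : Pt k (Fin n)) (q : MvPolynomial (Fin m) k) :
    aeval (fun j => aeval x (aeval D.sG (D.θ.symm (X j)))) q = aeval (D.pt x) (D.θ.symm q) := by
  have h : (aeval (fun j => aeval x (aeval D.sG (D.θ.symm (X j)))) :
      MvPolynomial (Fin m) k →ₐ[k] AlgebraicClosure k) =
      (aeval (D.pt x)).comp D.θ.symm.toAlgHom := by
    apply MvPolynomial.algHom_ext
    intro j
    rw [aeval_X]
    show aeval x (aeval D.sG (D.θ.symm (X j))) = aeval (D.pt x) (D.θ.symm (X j))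
    generalize D.θ.symm (X j) = q
    induction q using MvPolynomial.induction_on with
    | C a => rw [algHom_C, algHom_C, MvPolynomial.algebraMap_eq, algHom_C]
    | add p q hp hq => rw [map_add, map_add, map_add, hp, hq]
    | mul_X p i hp => rw [map_mul, map_mul, map_mul, hp, aeval_X, aeval_X]; rfl
  exact DFunLike.congr_fun h q

theorem Dat.symm_P : D.θ.symm P = GS g f := (AlgEquiv.symm_apply_eq _).2 D.hθ.symm

theorem Dat.pt_inr (x : Pt k (Fin n)) (q : τ) : D.pt x (Sum.inr q) = 0 := map_zero _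

theorem Dat.pt_b (x : Pt k (Fin n)) (i : Fin n) : D.pt x (Sum.inl (D.b i)) = x i := by
  show aeval x (D.s (D.b i)) = x i
  rw [D.hs, aeval_X]

theorem aeval_GS {A : Type} [CommRing A] [Algebra k A] (g : τ → MvPolynomial σ k)
    (f : MvPolynomial σ k) (δ : σ ⊕ τ → A) :
    aeval δ (GS g f) = aeval (fun p => δ (Sum.inl p)) f +
      ∑ q, δ (Sum.inr q) * aeval (fun p => δ (Sum.inl p)) (g q) := by
  rw [GS, map_add, map_sum, aeval_rename]
  congr 1
  refine Finset.sum_congr rfl fun q _ => ?_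
  rw [map_mul, aeval_X, aeval_rename]
  rfl

/-- the section as closed immersion with retraction -/
noncomputable def Dat.sec : Sec (zr P) Z where
  φ := fun j => aeval D.sG (D.θ.symm (X j))
  ψ := fun i => D.θ (X (Sum.inl (D.b i)))
  mem := fun x hx => by
    refine ⟨fun i => i.elim0, ?_⟩
    rw [D.aeval_sec, D.symm_P, aeval_GS,
      Finset.sum_eq_zero fun q _ => by rw [D.pt_inr, zero_mul], add_zero]
    exact D.hf x hx
  left := fun x _ => by
    funext i
    rw [D.aeval_sec, AlgEquiv.symm_apply_apply, aeval_X, D.pt_b]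

theorem Dat.aeval_P (x : Pt k (Fin n)) (p : MvPolynomial (σ ⊕ τ) k) :
    aeval (D.sec.P x) (D.θ p) = aeval (D.pt x) p := by
  have := D.aeval_sec x (D.θ p)
  rw [AlgEquiv.symm_apply_apply] at this
  exact this

/-- the starting points -/
def Dat.V : Set (Pt k σ) :=
  {x | (fun i => x (D.b i)) ∈ Z.1 ∧ ∀ p, x p = aeval (fun i => x (D.b i)) (D.s p)}

theorem Dat.constr_V : Constr D.V :=
  Constr.and (Z.2.preimage (fun (x : Pt k σ) i => x (D.b i)) fun _ => IsPF.coord _)
    (Constr.all fun p => Constr.eq (IsPF.coord p) ((IsPF.poly (D.s p)).comp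
      (fun (x : Pt k σ) i => x (D.b i)) fun _ => IsPF.coord _))

theorem Dat.V_mem {x : Pt k σ} (hx : x ∈ D.V) :
    x = fun p => D.pt (fun i => x (D.b i)) (Sum.inl p) := funext hx.2

/-- the jet of `σ ⊕ τ` -/
noncomputable def dl {N : ℕ} (u : Pt k ((σ × Fin (N + 1)) ⊕ τ × Fin N)) :
    σ ⊕ τ → PowerSeries (AlgebraicClosure k) :=
  Sum.elim (ar fun p => u (Sum.inl p)) fun q => PowerSeries.X * yy u q

theorem FV_eq {N : ℕ} (u : Pt k ((σ × Fin (N + 1)) ⊕ τ × Fin N)) :
    FV g f u = aeval (dl u) (GS g f) := by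
  rw [aeval_GS, FV, Finset.mul_sum]
  congr 1
  exact Finset.sum_congr rfl fun q _ => mul_assoc _ _ _ |>.symm

theorem isPA_dl {N : ℕ} (s : σ ⊕ τ) :
    IsPA fun u : Pt k ((σ × Fin (N + 1)) ⊕ τ × Fin N) => dl u s := by
  rcases s with p | q
  · intro j
    simp only [dl, Sum.elim_inl, ar, PowerSeries.coeff_mk]
    split_ifs with h
    · exact IsPF.coord _
    · exact IsPF.zero
  · exact IsPA.X.mul (isPA_yy q)

/-- from the jets of `P` -/
noncomputable def Dat.fw (N : ℕ) (w : Pt k (Fin n ⊕ Fin m × Fin (N + 1))) :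
    Pt k ((σ × Fin (N + 1)) ⊕ τ × Fin N)
  | Sum.inl (p, a) => PowerSeries.coeff a (aeval (ar fun i => w (Sum.inr i)) (D.θ (X (Sum.inl p))))
  | Sum.inr (q, a) =>
    PowerSeries.coeff (a + 1) (aeval (ar fun i => w (Sum.inr i)) (D.θ (X (Sum.inr q))))

/-- to the jets of `P` -/
noncomputable def Dat.bw (N : ℕ) (u : Pt k ((σ × Fin (N + 1)) ⊕ τ × Fin N)) :
    Pt k (Fin n ⊕ Fin m × Fin (N + 1))
  | Sum.inl i => u (Sum.inl (D.b i, 0))
  | Sum.inr (j, a) => PowerSeries.coeff a (aeval (dl u) (D.θ.symm (X j)))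

theorem constCoeff_aeval {ν : Type} (γ : ν → PowerSeries (AlgebraicClosure k))
    (p : MvPolynomial ν k) : PowerSeries.coeff 0 (aeval γ p) =
      aeval (fun i => PowerSeries.coeff 0 (γ i)) p := by
  induction p using MvPolynomial.induction_on with
  | C a => rw [algHom_C, algHom_C, PowerSeries.algebraMap_apply, PowerSeries.coeff_zero_C]
  | add p q hp hq => rw [map_add, map_add, map_add, hp, hq]
  | mul_X p i hp =>
    rw [map_mul (aeval γ), map_mul (aeval _), PowerSeries.coeff_zero_eq_constantCoeff_apply,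
      map_mul, ← PowerSeries.coeff_zero_eq_constantCoeff_apply, hp, aeval_X, aeval_X,
      ← PowerSeries.coeff_zero_eq_constantCoeff_apply]

theorem aeval_aeval {ν μ : Type} (γ : ν → PowerSeries (AlgebraicClosure k))
    (φ : MvPolynomial μ k →ₐ[k] MvPolynomial ν k) (p : MvPolynomial μ k) :
    aeval (fun s => aeval γ (φ (X s))) p = aeval γ (φ p) := by
  have h : (aeval (fun s => aeval γ (φ (X s))) : MvPolynomial μ k →ₐ[k] _) =
      (aeval γ).comp φ := by
    apply MvPolynomial.algHom_ext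
    intro i
    rw [aeval_X, AlgHom.comp_apply]
  exact DFunLike.congr_fun h p

theorem Dat.fw_V {N : ℕ} {w : Pt k (Fin n ⊕ Fin m × Fin (N + 1))}
    (hw : (fun j => w (Sum.inr (j, 0))) = D.sec.P fun i => w (Sum.inl i)) (s : σ ⊕ τ) :
    PowerSeries.coeff 0 (aeval (ar fun i => w (Sum.inr i)) (D.θ (X s))) =
      D.pt (fun i => w (Sum.inl i)) s := by
  rw [constCoeff_ar, hw, D.aeval_P, aeval_X]

theorem Dat.dl_fw {N : ℕ} {w : Pt k (Fin n ⊕ Fin m × Fin (N + 1))}
    (hw : (fun j => w (Sum.inr (j, 0))) = D.sec.P fun i => w (Sum.inl i)) (s : σ ⊕ τ) (a : ℕ)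
    (ha : a ≤ N) : PowerSeries.coeff a (dl (D.fw N w) s) =
      PowerSeries.coeff a (aeval (ar fun i => w (Sum.inr i)) (D.θ (X s))) := by
  rcases s with p | q
  · show PowerSeries.coeff a (ar (fun p => D.fw N w (Sum.inl p)) p) = _
    rw [coeff_ar' _ _ _ (by omega)]
    rfl
  · show PowerSeries.coeff a (PowerSeries.X * yy (D.fw N w) q) = _
    rcases a with _ | a
    · rw [PowerSeries.coeff_zero_X_mul, D.fw_V hw, D.pt_inr]
    · rw [PowerSeries.coeff_succ_X_mul, yy, coeff_ser _ _ (by omega : a < N)]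
      rfl

theorem Dat.ar_bw {N : ℕ} (u : Pt k ((σ × Fin (N + 1)) ⊕ τ × Fin N)) (j : Fin m) (a : ℕ)
    (ha : a ≤ N) : PowerSeries.coeff a (ar (fun i => D.bw N u (Sum.inr i)) j) =
      PowerSeries.coeff a (aeval (dl u) (D.θ.symm (X j))) := by
  rw [coeff_ar' _ _ _ (by omega)]
  rfl

theorem Dat.coeff_bw {N : ℕ} (u : Pt k ((σ × Fin (N + 1)) ⊕ τ × Fin N))
    (p : MvPolynomial (Fin m) k) (a : ℕ) (ha : a ≤ N) :
    PowerSeries.coeff a (aeval (ar fun i => D.bw N u (Sum.inr i)) p) =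
      PowerSeries.coeff a (aeval (dl u) (D.θ.symm p)) := by
  have h1 := coeff_congr p N (ar fun i => D.bw N u (Sum.inr i))
    (fun j => aeval (dl u) (D.θ.symm (X j))) (fun j a ha => D.ar_bw u j a ha) a ha
  rw [h1]
  exact congrArg _ (aeval_aeval (dl u) D.θ.symm.toAlgHom p)

theorem Dat.coeff_fw {N : ℕ} {w : Pt k (Fin n ⊕ Fin m × Fin (N + 1))}
    (hw : (fun j => w (Sum.inr (j, 0))) = D.sec.P fun i => w (Sum.inl i))
    (p : MvPolynomial (σ ⊕ τ) k) (a : ℕ) (ha : a ≤ N) :
    PowerSeries.coeff a (aeval (dl (D.fw N w)) p) =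
      PowerSeries.coeff a (aeval (ar fun i => w (Sum.inr i)) (D.θ p)) := by
  have h1 := coeff_congr p N (dl (D.fw N w))
    (fun s => aeval (ar fun i => w (Sum.inr i)) (D.θ (X s))) (fun s a ha => D.dl_fw hw s a ha) a ha
  rw [h1]
  exact congrArg _ (aeval_aeval (ar fun i => w (Sum.inr i)) D.θ.toAlgHom p)

/-- **The class of the jets of `P` along the section.** -/
theorem Dat.jets {M : EMeas (0 : MvPolynomial (Fin n) k) (K0S Z)} (hM : IsMeas Z M) (N : ℕ)
    (hN : 0 < N) :
    K0S.mk (D.sec.pull (toS (diagVar (jetValid P N hN)))) = Ac M g f D.V D.b N := by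
  rw [pull_diag D.sec hM]
  have hPS : ∀ w ∈ PS D.sec (JetE P N) (fun i => some (i, 0)),
      (fun j => w (Sum.inr (j, 0))) = D.sec.P fun i => w (Sum.inl i) := fun w hw => hw.2.2
  refine M.iso _ _ _ _ N N _ _ (valid_PS D.sec (jetValid P N hN)) (valid_AV g f D.constr_V hN D.b)
    (D.fw N) (D.bw N) (regularOn_poly (fun i => ?_) _) (regularOn_poly (fun i => ?_) _)
    ?_ ?_ ?_ ?_ ?_ ?_
  · rcases i with ⟨p, a⟩ | ⟨q, a⟩
    · exact (isPF_coeff (D.θ (X (Sum.inl p))) (a : ℕ)).comp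
        (fun w : Pt k (Fin n ⊕ Fin m × Fin (N + 1)) => fun i => w (Sum.inr i)) fun _ => IsPF.coord _
    · exact (isPF_coeff (D.θ (X (Sum.inr q))) ((a : ℕ) + 1)).comp
        (fun w : Pt k (Fin n ⊕ Fin m × Fin (N + 1)) => fun i => w (Sum.inr i)) fun _ => IsPF.coord _
  · rcases i with i | ⟨j, a⟩
    · exact IsPF.coord _
    · exact isPA_aeval (fun s u => dl u s) isPA_dl (D.θ.symm (X j)) (a : ℕ)
  · intro w hw
    have h0 := hPS w hw
    have h1 : ∀ p, D.fw N w (Sum.inl (p, 0)) = D.pt (fun i => w (Sum.inl i)) (Sum.inl p) :=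
      fun p => D.fw_V h0 (Sum.inl p)
    have h2 : (fun i => D.fw N w (Sum.inl (D.b i, 0))) = fun i => w (Sum.inl i) := by
      funext i
      rw [h1, D.pt_b]
    refine ⟨⟨?_, fun p => ?_⟩, fun j hj => ?_⟩
    · show (fun i => D.fw N w (Sum.inl (D.b i, 0))) ∈ Z.1
      rw [h2]
      exact hw.2.1
    · show D.fw N w (Sum.inl (p, 0)) = aeval (fun i => D.fw N w (Sum.inl (D.b i, 0))) (D.s p)
      rw [h2, h1]
      rfl
    · rw [FV_eq, D.coeff_fw h0 _ j (by omega), D.hθ, ← arc_eq, hw.1 j (by omega), del]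
      split_ifs
      · rw [Nat.cast_one]
      · rw [Nat.cast_zero]
  · intro u hu
    obtain ⟨⟨h1, h2⟩, h3⟩ := hu
    refine ⟨fun j hj => ?_, h1, ?_⟩
    · rw [arc_eq, D.coeff_bw u P j hj, D.symm_P, ← FV_eq,
        h3 j (by omega), del]
      split_ifs
      · rw [Nat.cast_one]
      · rw [Nat.cast_zero]
    · funext j
      show D.bw N u (Sum.inr (j, 0)) = aeval _ (aeval D.sG (D.θ.symm (X j)))
      have h4 : D.bw N u (Sum.inr (j, 0)) =
          PowerSeries.coeff 0 (aeval (dl u) (D.θ.symm (X j))) := rfl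
      have h5 : (fun s => PowerSeries.coeff 0 (dl u s)) = D.pt fun i => u (Sum.inl (D.b i, 0)) := by
        funext s
        rcases s with p | q
        · show PowerSeries.coeff 0 (ar (fun p => u (Sum.inl p)) p) = _
          rw [coeff_ar' _ _ _ (Nat.succ_pos N)]
          exact h2 p
        · show PowerSeries.coeff 0 (PowerSeries.X * yy u q) = _
          rw [PowerSeries.coeff_zero_X_mul, D.pt_inr]
      rw [h4, constCoeff_aeval, h5]
      have h6 := D.aeval_sec (fun i => u (Sum.inl (D.b i, 0))) (X j)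
      rw [aeval_X] at h6
      exact h6.symm
  · intro w hw
    have h0 := hPS w hw
    funext i
    rcases i with i | ⟨j, a⟩
    · show D.fw N w (Sum.inl (D.b i, 0)) = _
      exact (D.fw_V h0 (Sum.inl (D.b i))).trans (D.pt_b _ i)
    · show PowerSeries.coeff a (aeval (dl (D.fw N w)) (D.θ.symm (X j))) = _
      have := a.2
      rw [D.coeff_fw h0 _ a (by omega), AlgEquiv.apply_symm_apply, aeval_X,
        coeff_ar' _ _ _ a.2]
  · intro u hu
    funext i
    rcases i with ⟨p, a⟩ | ⟨q, a⟩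
    · show PowerSeries.coeff a (aeval (ar fun i => D.bw N u (Sum.inr i)) (D.θ (X (Sum.inl p)))) = _
      have := a.2
      rw [D.coeff_bw u _ a (by omega), AlgEquiv.symm_apply_apply, aeval_X]
      show PowerSeries.coeff a (ar (fun p => u (Sum.inl p)) p) = _
      rw [coeff_ar' _ _ _ a.2]
    · show PowerSeries.coeff (a + 1) (aeval (ar fun i => D.bw N u (Sum.inr i))
        (D.θ (X (Sum.inr q)))) = _
      have := a.2
      rw [D.coeff_bw u _ _ (by omega), AlgEquiv.symm_apply_apply, aeval_X]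
      show PowerSeries.coeff (a + 1) (PowerSeries.X * yy u q) = _
      rw [PowerSeries.coeff_succ_X_mul, yy, coeff_ser _ _ a.2]
  · intro w hw
    have h0 := hPS w hw
    funext i
    exact (D.fw_V h0 (Sum.inl (D.b i))).trans (D.pt_b _ i)
  · intro l _ w _
    funext i
    have h1 : (fun i => dact (Sum.elim (fun _ => 0) fun p : Fin m × Fin (N + 1) =>
        ((p.2 : ℕ) : ℤ)) (l ^ N) w (Sum.inr i)) = dact (wx (Fin m) N) (l ^ N)
          fun i => w (Sum.inr i) := rfl
    rcases i with ⟨p, a⟩ | ⟨q, a⟩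
    · show PowerSeries.coeff a (aeval (ar _) _) = (l ^ N) ^ (((a : ℕ) : ℤ)) * _
      rw [h1, coeff_wx, zpow_natCast]
      rfl
    · show PowerSeries.coeff (a + 1) (aeval (ar _) _) = (l ^ N) ^ (((a : ℕ) : ℤ) + 1) * _
      rw [h1, coeff_wx, show (((a : ℕ) : ℤ) + 1) = (((a : ℕ) + 1 : ℕ) : ℤ) by push_cast; ring,
        zpow_natCast]
      rfl

end

end Pool.Agent.Q221.EM
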