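import Pool.Agent.Q221.EM.Rat

/-!
# The strong form from four members of the sequence
-/

set_option autoImplicit false

namespace Pool.Agent.Q221.EM

variable {R : Type} [CommRing R] {u : Rˣ}

/-- the shifted slope -/
theorem shift_div {ρ : ℕ} {q : ℤ × ℤ} (hq : 0 < q.2) :
    ((q.1 + ρ * q.2 : ℤ) : ℂ) / (q.2 : ℤ) = (q.1 : ℂ) / q.2 + ρ := by
  have hq0 : (q.2 : ℂ) ≠ 0 := by exact_mod_cast hq.ne'
  push_cast
  field_simp

/-- the slopes after the descent -/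
theorem shift_root {ρ : ℕ} {c : Polynomial ℂ} {q : ℤ × ℤ} (hq : 0 < q.2)
    (h : ((Polynomial.X + 1) * c.comp (Polynomial.X + Polynomial.C (ρ : ℂ))).eval
      ((q.1 : ℂ) / q.2) = 0) :
    c.eval (((q.1 + ρ * q.2 : ℤ) : ℂ) / (q.2 : ℤ)) = 0 ∨
      ((q.1 + ρ * q.2 : ℤ) : ℂ) / (q.2 : ℤ) = (ρ : ℂ) - 1 := by
  rw [shift_div hq]
  rw [Polynomial.eval_mul, Polynomial.eval_comp, mul_eq_zero, Polynomial.eval_add,
    Polynomial.eval_X, Polynomial.eval_one, Polynomial.eval_add, Polynomial.eval_X,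
    Polynomial.eval_C] at h
  rcases h with h | h
  · right
    linear_combination h
  · left
    exact h

/-- **The strong form from four members of the sequence.** -/
theorem core4 (Z Y : PowerSeries R) (ρ : ℕ) (c : Polynomial ℂ) (hc : c.eval (-1) = 0)
    (h : ∀ j < 4, ∃ S : Finset (ℤ × ℤ), (∀ p ∈ S, 0 < p.2 ∧
      ((Polynomial.X + 1) * c.comp (Polynomial.X + Polynomial.C ((ρ + j : ℕ) : ℂ))).eval
        ((p.1 : ℂ) / p.2) = 0) ∧ mem u Z Y (ρ + j) ∈ ratR u S) :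
    ∃ S : Finset (ℤ × ℤ), (∀ p ∈ S, 0 < p.2 ∧ c.eval ((p.1 : ℂ) / p.2) = 0) ∧ Z ∈ ratR u S := by
  classical
  obtain ⟨S0, hS0, z0⟩ := h 0 (by norm_num)
  obtain ⟨S1, hS1, z1⟩ := h 1 (by norm_num)
  obtain ⟨S2, hS2, z2⟩ := h 2 (by norm_num)
  obtain ⟨S3, hS3, z3⟩ := h 3 (by norm_num)
  have d0 := descend Z Y ρ (S := (S0 : Set (ℤ × ℤ))) (T := (S1 : Set (ℤ × ℤ)))
    (fun p hp => (hS0 p hp).1) (fun p hp => (hS1 p hp).1) z0 z1
  have d2 := descend Z Y (ρ + 2) (S := (S2 : Set (ℤ × ℤ))) (T := (S3 : Set (ℤ × ℤ)))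
    (fun p hp => (hS2 p hp).1) (fun p hp => (hS3 p hp).1) z2 z3
  have pos0 : ∀ p ∈ insert ((-1 : ℤ), (1 : ℤ)) (shn ρ (S0 : Set (ℤ × ℤ)) ∪
      shn (ρ + 1) (S1 : Set (ℤ × ℤ))), 0 < p.2 := by
    rintro p (rfl | hp | hp)
    · exact one_pos
    · exact shn_pos (fun q hq => (hS0 q hq).1) p hp
    · exact shn_pos (fun q hq => (hS1 q hq).1) p hp
  have pos2 : ∀ p ∈ insert ((-1 : ℤ), (1 : ℤ)) (shn (ρ + 2) (S2 : Set (ℤ × ℤ)) ∪
      shn (ρ + 2 + 1) (S3 : Set (ℤ × ℤ))), 0 < p.2 := by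
    rintro p (rfl | hp | hp)
    · exact one_pos
    · exact shn_pos (fun q hq => (hS2 q hq).1) p hp
    · exact shn_pos (fun q hq => (hS3 q hq).1) p hp
  have e1 : (((-1 : ℤ), (1 : ℤ)).1 : ℂ) / (((-1 : ℤ), (1 : ℤ)).2 : ℂ) = -1 := by norm_num
  have r0 : ∀ p ∈ insert ((-1 : ℤ), (1 : ℤ)) (shn ρ (S0 : Set (ℤ × ℤ)) ∪
      shn (ρ + 1) (S1 : Set (ℤ × ℤ))),
      c.eval ((p.1 : ℂ) / p.2) = 0 ∨ (p.1 : ℂ) / p.2 = (ρ : ℂ) - 1 ∨ (p.1 : ℂ) / p.2 = ρ := by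
    rintro p (rfl | ⟨q, hq, rfl⟩ | ⟨q, hq, rfl⟩)
    · left
      rw [e1]
      exact hc
    · rcases shift_root (hS0 q hq).1 (hS0 q hq).2 with h1 | h1
      · exact Or.inl h1
      · exact Or.inr (Or.inl h1)
    · rcases shift_root (hS1 q hq).1 (hS1 q hq).2 with h1 | h1
      · exact Or.inl h1
      · refine Or.inr (Or.inr (h1.trans ?_))
        push_cast
        ring
  have r2 : ∀ p ∈ insert ((-1 : ℤ), (1 : ℤ)) (shn (ρ + 2) (S2 : Set (ℤ × ℤ)) ∪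
      shn (ρ + 2 + 1) (S3 : Set (ℤ × ℤ))),
      c.eval ((p.1 : ℂ) / p.2) = 0 ∨ (p.1 : ℂ) / p.2 = (ρ : ℂ) + 1 ∨
        (p.1 : ℂ) / p.2 = ρ + 2 := by
    rintro p (rfl | ⟨q, hq, rfl⟩ | ⟨q, hq, rfl⟩)
    · left
      rw [e1]
      exact hc
    · rcases shift_root (hS2 q hq).1 (hS2 q hq).2 with h1 | h1
      · exact Or.inl h1
      · refine Or.inr (Or.inl (h1.trans ?_))
        push_cast
        ring
    · rcases shift_root (hS3 q hq).1 (hS3 q hq).2 with h1 | h1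
      · exact Or.inl h1
      · refine Or.inr (Or.inr (h1.trans ?_))
        push_cast
        ring
  obtain ⟨D, hD, hz⟩ := ratR_inter pos0 pos2 d0 d2
  have posI : ∀ p ∈ insert (-(D : ℤ), (D : ℤ)) {p ∈ insert ((-1 : ℤ), (1 : ℤ))
      (shn ρ (S0 : Set (ℤ × ℤ)) ∪ shn (ρ + 1) (S1 : Set (ℤ × ℤ))) |
      ∃ q ∈ insert ((-1 : ℤ), (1 : ℤ)) (shn (ρ + 2) (S2 : Set (ℤ × ℤ)) ∪
        shn (ρ + 2 + 1) (S3 : Set (ℤ × ℤ))), p.1 * q.2 = q.1 * p.2}, 0 < p.2 := by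
    rintro p (rfl | ⟨hp, -⟩)
    · exact Int.natCast_pos.2 hD
    · exact pos0 p hp
  obtain ⟨S, hS, hzS⟩ := exists_finset posI hz
  refine ⟨S, fun p hp => ⟨posI p (hS p hp), ?_⟩, hzS⟩
  rcases hS p hp with rfl | ⟨hp1, q, hq, hpq⟩
  · have h7 : (D : ℂ) ≠ 0 := by exact_mod_cast hD.ne'
    have h8 : (((-(D : ℤ), (D : ℤ)) : ℤ × ℤ).1 : ℂ) / (((-(D : ℤ), (D : ℤ)) : ℤ × ℤ).2 : ℂ) =
        -1 := by
      push_cast
      field_simp
    rw [h8]
    exact hc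
  · have hpp := pos0 p hp1
    have hqq := pos2 q hq
    have he : (p.1 : ℂ) / p.2 = (q.1 : ℂ) / q.2 := by
      have h1 : (p.2 : ℂ) ≠ 0 := by exact_mod_cast hpp.ne'
      have h2 : (q.2 : ℂ) ≠ 0 := by exact_mod_cast hqq.ne'
      rw [div_eq_div_iff h1 h2]
      exact_mod_cast hpq
    rcases r0 p hp1 with h1 | h1
    · exact h1
    · rcases r2 q hq with h2 | h2
      · rw [he]
        exact h2
      · exfalso
        rw [he] at h1
        have h3 : (ρ : ℂ) - 1 = ρ + 1 ∨ (ρ : ℂ) - 1 = ρ + 2 ∨ (ρ : ℂ) = ρ + 1 ∨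
            (ρ : ℂ) = ρ + 2 := by
          rcases h1 with h1 | h1 <;> rcases h2 with h2 | h2
          · exact Or.inl (h1.symm.trans h2)
          · exact Or.inr (Or.inl (h1.symm.trans h2))
          · exact Or.inr (Or.inr (Or.inl (h1.symm.trans h2)))
          · exact Or.inr (Or.inr (Or.inr (h1.symm.trans h2)))
        rcases h3 with h3 | h3 | h3 | h3
        · have h4 : (2 : ℂ) = 0 := by linear_combination -h3
          norm_num at h4
        · have h4 : (3 : ℂ) = 0 := by linear_combination -h3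
          norm_num at h4
        · have h4 : (1 : ℂ) = 0 := by linear_combination -h3
          norm_num at h4
        · have h4 : (2 : ℂ) = 0 := by linear_combination -h3
          norm_num at h4

end Pool.Agent.Q221.EM
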