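import Pool.Agent.Q221.EM.Jets

/-!
# The classes of the jets of `f + ∑ y_q g_q` with `y(0) = 0`
-/

set_option autoImplicit false
set_option linter.unusedSectionVars false
set_option linter.unusedVariables false

namespace Pool.Agent.Q221.EM

open MvPolynomial Pool.Agent.W428.MOT Pool.Agent.TH192.MT
open Pool.Agent.Q223.ID Pool.Agent.Q223.TW
open Pool.Agent.Q221.Sm (coeff_ser_mul)

variable {k : Type} [Field k] {n : ℕ} {R : Type} [CommRing R]
  (M : EMeas (0 : MvPolynomial (Fin n) k) R) {σ τ : Type} [Fintype σ] [Fintype τ]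
  (g : τ → MvPolynomial σ k) (f : MvPolynomial σ k) {V : Set (Pt k σ)}

/-- the weights of the coefficients of `y(t) / t` -/
def wy (τ : Type) (N : ℕ) (p : τ × Fin N) : ℤ := ((p.2 : ℕ) : ℤ) + 1

/-- the coordinates `y_q(t) / t` -/
noncomputable def yy {N : ℕ} (w : Pt k ((σ × Fin (N + 1)) ⊕ τ × Fin N)) (q : τ) :
    PowerSeries (AlgebraicClosure k) := ser fun a : Fin N => w (Sum.inr (q, a))

/-- the value of `f + ∑ y_q g_q` -/
noncomputable def FV {N : ℕ} (w : Pt k ((σ × Fin (N + 1)) ⊕ τ × Fin N)) :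
    PowerSeries (AlgebraicClosure k) :=
  aeval (ar fun p => w (Sum.inl p)) f +
    PowerSeries.X * ∑ q, yy w q * aeval (ar fun p => w (Sum.inl p)) (g q)

/-- the jets `(x(t), y(t))` with `x(0) ∈ V`, `y(0) = 0` and `f + ∑ y_q g_q = t ^ N mod t ^ (N + 1)` -/
def AV (V : Set (Pt k σ)) (N : ℕ) : Set (Pt k ((σ × Fin (N + 1)) ⊕ τ × Fin N)) :=
  {w | (fun p => w (Sum.inl (p, 0))) ∈ V ∧
    ∀ j < N + 1, PowerSeries.coeff j (FV g f w) = ((del N j : ℕ) : AlgebraicClosure k)}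

/-- the part with `g_q = 0` modulo `t ^ m` -/
def JA (V : Set (Pt k σ)) (N m : ℕ) : Set (Pt k ((σ × Fin (N + 1)) ⊕ τ × Fin N)) :=
  {w | w ∈ AV g f V N ∧
    ∀ q, ∀ l < m, PowerSeries.coeff l (aeval (ar fun p => w (Sum.inl p)) (g q)) = 0}

theorem isPA_x {N : ℕ} (p : MvPolynomial σ k) :
    IsPA fun w : Pt k ((σ × Fin (N + 1)) ⊕ τ × Fin N) => aeval (ar fun p => w (Sum.inl p)) p :=
  fun j => (isPF_coeff p j).comp
    (fun w : Pt k ((σ × Fin (N + 1)) ⊕ τ × Fin N) => fun i => w (Sum.inl i)) fun _ => IsPF.coord _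

theorem isPA_yy {N : ℕ} (q : τ) :
    IsPA fun w : Pt k ((σ × Fin (N + 1)) ⊕ τ × Fin N) => yy w q := by
  intro j
  by_cases h : j < N
  · simp only [yy, coeff_ser _ _ h]
    exact IsPF.coord _
  · simp only [yy, coeff_ser' _ _ h]
    exact IsPF.zero

theorem isPA_FV {N : ℕ} :
    IsPA fun w : Pt k ((σ × Fin (N + 1)) ⊕ τ × Fin N) => FV g f w :=
  (isPA_x f).add (IsPA.X.mul (IsPA.sum _ _ fun q _ => (isPA_yy q).mul (isPA_x (g q))))

theorem constr_AV (hV : Constr V) (N : ℕ) : Constr (AV g f V N) :=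
  Constr.and (hV.preimage (fun w : Pt k ((σ × Fin (N + 1)) ⊕ τ × Fin N) => fun p =>
    w (Sum.inl (p, 0))) fun _ => IsPF.coord _) (Constr.allLt _ fun j _ =>
      Constr.eq (isPA_FV g f j) (IsPF.natCast _))

theorem constr_JA (hV : Constr V) (N m : ℕ) : Constr (JA g f V N m) :=
  Constr.and (constr_AV g f hV N) (Constr.all fun q => Constr.allLt _ fun l _ =>
    Constr.eqz (isPA_x (g q) l))

theorem yy_dact {N : ℕ} (l : AlgebraicClosure k) (w : Pt k ((σ × Fin (N + 1)) ⊕ τ × Fin N))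
    (q : τ) : PowerSeries.X * yy (dact (Sum.elim (wx σ N) (wy τ N)) l w) q =
      PowerSeries.rescale l (PowerSeries.X * yy w q) := by
  ext j
  rw [PowerSeries.coeff_rescale]
  rcases j with _ | j
  · rw [PowerSeries.coeff_zero_X_mul, PowerSeries.coeff_zero_X_mul, mul_zero]
  · rw [PowerSeries.coeff_succ_X_mul, PowerSeries.coeff_succ_X_mul]
    by_cases h : j < N
    · rw [yy, yy, coeff_ser _ _ h, coeff_ser _ _ h]
      show l ^ (((j : ℕ) : ℤ) + 1) * _ = _
      congr 1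
      exact_mod_cast rfl
    · rw [yy, yy, coeff_ser' _ _ h, coeff_ser' _ _ h, mul_zero]

theorem x_dact {N : ℕ} (l : AlgebraicClosure k) (w : Pt k ((σ × Fin (N + 1)) ⊕ τ × Fin N))
    (p : MvPolynomial σ k) :
    aeval (ar fun p => dact (Sum.elim (wx σ N) (wy τ N)) l w (Sum.inl p)) p =
      PowerSeries.rescale l (aeval (ar fun p => w (Sum.inl p)) p) := by
  have h1 : (fun p => dact (Sum.elim (wx σ N) (wy τ N)) l w (Sum.inl p)) =
      dact (wx σ N) l fun p => w (Sum.inl p) := rfl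
  rw [h1, show ar (dact (wx σ N) l fun p => w (Sum.inl p)) = fun i =>
    PowerSeries.rescale l (ar (fun p => w (Sum.inl p)) i) from funext fun i => ar_wx l _ i,
    aeval_resc]

theorem FV_dact {N : ℕ} (l : AlgebraicClosure k) (w : Pt k ((σ × Fin (N + 1)) ⊕ τ × Fin N)) :
    FV g f (dact (Sum.elim (wx σ N) (wy τ N)) l w) = PowerSeries.rescale l (FV g f w) := by
  rw [FV, FV, map_add, x_dact, Finset.mul_sum, Finset.mul_sum, map_sum]
  congr 1
  refine Finset.sum_congr rfl fun q _ => ?_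
  rw [x_dact, ← mul_assoc, yy_dact, ← mul_assoc, map_mul _ (PowerSeries.X * yy w q)]

theorem x0_dact {N : ℕ} (l : AlgebraicClosure k) (w : Pt k ((σ × Fin (N + 1)) ⊕ τ × Fin N)) :
    (fun p => dact (Sum.elim (wx σ N) (wy τ N)) l w (Sum.inl (p, 0))) =
      fun p => w (Sum.inl (p, 0)) := by
  funext p
  simp [dact, wx]

theorem valid_JA (hV : Constr V) {N : ℕ} (hN : 0 < N) (b : Fin n → σ) (m : ℕ) :
    Valid (0 : MvPolynomial (Fin n) k) (JA g f V N m) (Sum.elim (wx σ N) (wy τ N)) N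
      (fun i => (bx b N i).map Sum.inl) where
  constr := constr_JA g f hV N m
  pos := hN
  stable := fun l hl w hw => by
    refine ⟨⟨?_, fun j hj => ?_⟩, fun q j hj => ?_⟩
    · rw [x0_dact]
      exact hw.1.1
    · rw [FV_dact, PowerSeries.coeff_rescale, hw.1.2 j hj, hcd N l hl]
    · rw [x_dact, PowerSeries.coeff_rescale, hw.2 q j hj, mul_zero]
  base := fun _ _ => map_zero _
  inv := fun i j h => by
    rw [bx, Option.map_some, Option.some.injEq] at h
    rw [← h]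
    rfl

theorem valid_AV (hV : Constr V) {N : ℕ} (hN : 0 < N) (b : Fin n → σ) :
    Valid (0 : MvPolynomial (Fin n) k) (AV g f V N) (Sum.elim (wx σ N) (wy τ N)) N
      (fun i => (bx b N i).map Sum.inl) := by
  have h := valid_JA g f hV hN b 0
  have h1 : JA g f V N 0 = AV g f V N := by
    ext w
    exact ⟨fun h => h.1, fun h => ⟨h, fun _ _ hl => absurd hl (Nat.not_lt_zero _)⟩⟩
  rwa [h1] at h

theorem coeff_FV_zero {N : ℕ} (w : Pt k ((σ × Fin (N + 1)) ⊕ τ × Fin N)) :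
    PowerSeries.coeff 0 (FV g f w) =
      PowerSeries.coeff 0 (aeval (ar fun p => w (Sum.inl p)) f) := by
  rw [FV, map_add, PowerSeries.coeff_zero_X_mul, add_zero]

theorem coeff_FV_succ {N : ℕ} (w : Pt k ((σ × Fin (N + 1)) ⊕ τ × Fin N)) (j : ℕ) :
    PowerSeries.coeff (j + 1) (FV g f w) =
      PowerSeries.coeff (j + 1) (aeval (ar fun p => w (Sum.inl p)) f) +
      PowerSeries.coeff j (∑ q, yy w q * aeval (ar fun p => w (Sum.inl p)) (g q)) := by
  rw [FV, map_add, PowerSeries.coeff_succ_X_mul]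

theorem low {N m : ℕ} {w : Pt k ((σ × Fin (N + 1)) ⊕ τ × Fin N)}
    (h : ∀ q, ∀ l < m, PowerSeries.coeff l (aeval (ar fun p => w (Sum.inl p)) (g q)) = 0)
    {j : ℕ} (hj : j < m) :
    PowerSeries.coeff j (∑ q, yy w q * aeval (ar fun p => w (Sum.inl p)) (g q)) = 0 := by
  rw [map_sum]
  refine Finset.sum_eq_zero fun q _ => ?_
  rw [PowerSeries.coeff_mul]
  refine Finset.sum_eq_zero fun p hp => ?_
  have h1 := Finset.HasAntidiagonal.mem_antidiagonal.1 hp
  rw [h q p.2 (by omega), mul_zero]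

/-- the matrix of the equations -/
noncomputable def Bm (N m : ℕ) (i : Fin (N - m)) (b : τ × Fin N) (z : Pt k (σ × Fin (N + 1))) :
    AlgebraicClosure k :=
  if (b.2 : ℕ) ≤ m + i then PowerSeries.coeff (m + i - b.2) (aeval (ar z) (g b.1)) else 0

/-- the right hand sides -/
noncomputable def cm (N m : ℕ) (i : Fin (N - m)) (z : Pt k (σ × Fin (N + 1))) :
    AlgebraicClosure k :=
  ((del N (m + 1 + i) : ℕ) : AlgebraicClosure k) - PowerSeries.coeff (m + 1 + i) (aeval (ar z) f)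

theorem isPF_Bm (N m : ℕ) (i : Fin (N - m)) (b : τ × Fin N) : IsPF (Bm g N m i b) := by
  unfold Bm
  split_ifs
  · exact isPF_coeff (g b.1) _
  · exact IsPF.zero

theorem isPF_cm (N m : ℕ) (i : Fin (N - m)) : IsPF (cm f N m i) :=
  (IsPF.natCast _).sub (isPF_coeff f _)

theorem sum_Bm {N m : ℕ} (i : Fin (N - m)) (w : Pt k ((σ × Fin (N + 1)) ⊕ τ × Fin N)) :
    ∑ b, Bm g N m i b (fun p => w (Sum.inl p)) * w (Sum.inr b) = PowerSeries.coeff (m + i)
      (∑ q, yy w q * aeval (ar fun p => w (Sum.inl p)) (g q)) := by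
  rw [Fintype.sum_prod_type, map_sum]
  refine Finset.sum_congr rfl fun q _ => ?_
  have := i.2
  rw [yy, coeff_ser_mul _ _ _ (by omega)]
  rfl

theorem eqn_iff {N m : ℕ} (i : Fin (N - m)) (w : Pt k ((σ × Fin (N + 1)) ⊕ τ × Fin N)) :
    ∑ b, Bm g N m i b (fun p => w (Sum.inl p)) * w (Sum.inr b) = cm f N m i
      (fun p => w (Sum.inl p)) ↔
      PowerSeries.coeff (m + i + 1) (FV g f w) = ((del N (m + i + 1) : ℕ) : AlgebraicClosure k) := by
  rw [sum_Bm, coeff_FV_succ, cm, show m + 1 + (i : ℕ) = m + i + 1 by ring, eq_sub_iff_add_eq,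
    add_comm]

/-- the base of the part of order `m` -/
def Sb (V : Set (Pt k σ)) (m N : ℕ) : Set (Pt k (σ × Fin (N + 1))) :=
  SV g f V 0 m (m + 1) N \ SV g f V 0 (m + 1) (m + 1) N

theorem Bm_surj {N m : ℕ} (z : Pt k (σ × Fin (N + 1))) (hz : z ∈ Sb g f V m N)
    (v : Fin (N - m) → AlgebraicClosure k) :
    ∃ y : τ × Fin N → AlgebraicClosure k, ∀ i, ∑ b, Bm g N m i b z * y b = v i := by
  classical
  obtain ⟨⟨h1, h2, h3⟩, h4⟩ := hz
  obtain ⟨q, hq⟩ : ∃ q, PowerSeries.coeff m (aeval (ar z) (g q)) ≠ 0 := by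
    by_contra hcon
    push Not at hcon
    refine h4 ⟨h1, fun q l hl => ?_, h3⟩
    rcases Nat.lt_succ_iff_lt_or_eq.1 hl with h5 | rfl
    · exact h2 q l h5
    · exact hcon q
  obtain ⟨U, hU⟩ := PowerSeries.X_pow_dvd_iff.2 (h2 q)
  have hU0 : PowerSeries.constantCoeff U ≠ 0 := by
    rw [hU] at hq
    have h5 := PowerSeries.coeff_X_pow_mul U m 0
    rw [zero_add] at h5
    rw [h5, PowerSeries.coeff_zero_eq_constantCoeff_apply] at hq
    exact hq
  set y : τ × Fin N → AlgebraicClosure k := fun b =>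
    if b.1 = q then PowerSeries.coeff (b.2 : ℕ) (U⁻¹ * ser v) else 0 with hy
  refine ⟨y, fun i => ?_⟩
  have hi := i.2
  have h5 := sum_Bm g (N := N) (m := m) i (Sum.elim z y : (σ × Fin (N + 1)) ⊕ τ × Fin N → _)
  simp only [Sum.elim_inl, Sum.elim_inr] at h5
  rw [h5, map_sum, Finset.sum_eq_single q]
  · rw [hU, mul_left_comm, add_comm m, PowerSeries.coeff_X_pow_mul]
    have h6 : ∀ j ≤ (i : ℕ), PowerSeries.coeff j (yy (Sum.elim z y :
        (σ × Fin (N + 1)) ⊕ τ × Fin N → _) q) = PowerSeries.coeff j (U⁻¹ * ser v) := by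
      intro j hj
      rw [yy, coeff_ser _ _ (by omega : j < N), Sum.elim_inr, hy]
      beta_reduce
      rw [if_pos rfl]
    rw [mul_comm, coeff_mul_congr U _ (U⁻¹ * ser v) i h6, ← mul_assoc,
      PowerSeries.mul_inv_cancel _ hU0, one_mul, coeff_ser _ _ hi]
  · intro l _ hl
    have h6 : yy (Sum.elim z y : (σ × Fin (N + 1)) ⊕ τ × Fin N → _) l = 0 := by
      ext j
      rw [map_zero]
      by_cases h : j < N
      · rw [yy, coeff_ser _ _ h, Sum.elim_inr, hy]
        beta_reduce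
        rw [if_neg hl]
      · rw [yy, coeff_ser' _ _ h]
    rw [h6, zero_mul, map_zero]
  · intro h
    exact absurd (Finset.mem_univ q) h

theorem JA_sdiff {N m : ℕ} (hm : m < N) : JA g f V N m \ JA g f V N (m + 1) =
    {w | (fun p => w (Sum.inl p)) ∈ Sb g f V m N ∧ ∀ i : Fin (N - m),
      ∑ b, Bm g N m i b (fun p => w (Sum.inl p)) * w (Sum.inr b) = cm f N m i
        fun p => w (Sum.inl p)} := by
  have hdel : ∀ j ≤ m, del N j = 0 := fun j hj => if_neg (by omega)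
  have key : ∀ w : Pt k ((σ × Fin (N + 1)) ⊕ τ × Fin N),
      (∀ q, ∀ l < m, PowerSeries.coeff l (aeval (ar fun p => w (Sum.inl p)) (g q)) = 0) →
      ∀ j ≤ m, PowerSeries.coeff j (FV g f w) =
        PowerSeries.coeff j (aeval (ar fun p => w (Sum.inl p)) f) := by
    intro w hw j hj
    rcases j with _ | j
    · exact coeff_FV_zero g f w
    · rw [coeff_FV_succ, low g hw (by omega), add_zero]
  ext w
  constructor
  · rintro ⟨⟨⟨h1, h2⟩, h3⟩, h4⟩
    have h5 : (fun p => w (Sum.inl p)) ∈ SV g f V 0 m (m + 1) N := by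
      refine ⟨h1, h3, fun l hl => ?_⟩
      rw [← key w h3 l (by omega), h2 l (by omega), hdel l (by omega)]
      rfl
    refine ⟨⟨h5, fun h6 => h4 ⟨⟨h1, h2⟩, h6.2.1⟩⟩, fun i => ?_⟩
    rw [eqn_iff]
    have := i.2
    exact h2 _ (by omega)
  · rintro ⟨⟨⟨h1, h2, h3⟩, h4⟩, h5⟩
    refine ⟨⟨⟨h1, fun j hj => ?_⟩, h2⟩, fun h6 => h4 ⟨h1, h6.2, h3⟩⟩
    by_cases h : j ≤ m
    · rw [key w h2 j h, h3 j (by omega), hdel j h]
      rfl
    · have h6 := (eqn_iff g f (⟨j - m - 1, by omega⟩ : Fin (N - m)) w).1 (h5 _)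
      have h7 : m + (j - m - 1) + 1 = j := by omega
      simp only [h7] at h6
      exact h6

theorem JA_top {N : ℕ} (w : Pt k ((σ × Fin (N + 1)) ⊕ τ × Fin N)) :
    w ∈ JA g f V N N ↔ (fun p => w (Sum.inl p)) ∈ SV g f V (del N) N (N + 1) N := by
  constructor
  · rintro ⟨⟨h1, h2⟩, h3⟩
    refine ⟨h1, h3, fun j hj => ?_⟩
    rw [← h2 j hj]
    rcases j with _ | j
    · exact (coeff_FV_zero g f w).symm
    · rw [coeff_FV_succ, low g h3 (by omega), add_zero]
  · rintro ⟨h1, h2, h3⟩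
    refine ⟨⟨h1, fun j hj => ?_⟩, h2⟩
    rw [← h3 j hj]
    rcases j with _ | j
    · exact coeff_FV_zero g f w
    · rw [coeff_FV_succ, low g h2 (by omega), add_zero]

/-! ### The classes -/

variable [DecidableEq τ] (B : σ → τ → MvPolynomial σ k)

/-- the class of the jets of level `m` on which `f = 0`, with the trivial action -/
noncomputable def Yc (V : Set (Pt k σ)) (b : Fin n → σ) (m : ℕ) : R :=
  M.χ (σ × Fin (m + 1)) (SV g f V 0 (m + 1) (m + 1) m) 0 1 (bx b m)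

/-- the class of the jets of level `N` on which `f = t ^ N` -/
noncomputable def Xc (V : Set (Pt k σ)) (b : Fin n → σ) (N : ℕ) : R :=
  M.χ (σ × Fin (N + 1)) (SV g f V (del N) (N + 1) (N + 1) N) (wx σ N) N (bx b N)

/-- the class of the jets of `f + ∑ y_q g_q` with `y(0) = 0` -/
noncomputable def Ac (V : Set (Pt k σ)) (b : Fin n → σ) (N : ℕ) : R :=
  M.χ _ (AV g f V N) (Sum.elim (wx σ N) (wy τ N)) N fun i => (bx b N i).map Sum.inl

variable {g f B}

theorem echi_Sb (hB : IsSplit g f B V) (hV : Constr V) {N m : ℕ} (hm0 : 0 < m) (hm : m < N)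
    (b : Fin n → σ) : M.χ _ (Sb g f V m N) (wx σ N) N (bx b N) =
      (M.L ^ Fintype.card τ - 1) * Yc M g f V b m * M.L ^ (Fintype.card σ * (N - m)) := by
  have hN : 0 < N := by omega
  have hv1 := valid_SV g f hV hN b (hc0 (k := k) N) m (m + 1) N
  have hv2 := valid_SV g f hV hN b (hc0 (k := k) N) (m + 1) (m + 1) N
  rw [Sb, echi_diff M hv1 hv2 fun z hz => ⟨hz.1, fun q l hl => hz.2.1 q l (by omega), hz.2.2⟩]
  obtain ⟨l, rfl⟩ : ∃ l, N = m + l := ⟨N - m, by omega⟩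
  rw [echi_SV_add M g f hV hN b (hc0 _) m (m + 1) m l (by omega) le_rfl,
    echi_SV_add M g f hV hN b (hc0 _) (m + 1) (m + 1) m l le_rfl le_rfl, Nat.add_sub_cancel_left]
  obtain ⟨m, rfl⟩ : ∃ m', m = m' + 1 := ⟨m - 1, by omega⟩
  rw [echi_tube M g f B hB hV hN b (hc0 _) m]
  have h1 : M.χ _ (SV g f V 0 (m + 2) (m + 2) (m + 1)) (wx σ (m + 1)) (m + 1 + l)
      (bx b (m + 1)) = Yc M g f V b (m + 1) :=
    Pool.Agent.Q57.QE.gm_trivial M (valid_SV g f hV hN b (hc0 _) _ _ _)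
      (fun s _ z hz => stable_SV g f (fun a => by simp) hz)
      (valid_zero0 (constr_SV g f hV _ _ _ _) _)
  rw [h1]
  ring

theorem echi_JA_step (hB : IsSplit g f B V) (hV : Constr V) {N m : ℕ} (hm0 : 0 < m) (hm : m < N)
    (b : Fin n → σ) :
    M.χ _ (JA g f V N m) (Sum.elim (wx σ N) (wy τ N)) N (fun i => (bx b N i).map Sum.inl) =
      M.χ _ (JA g f V N (m + 1)) (Sum.elim (wx σ N) (wy τ N)) N
        (fun i => (bx b N i).map Sum.inl) +
      (M.L ^ Fintype.card τ - 1) * Yc M g f V b m * M.L ^ (Fintype.card σ * (N - m)) *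
        M.L ^ (Fintype.card τ * N - (N - m)) := by
  have hN : 0 < N := by omega
  have hv1 := valid_SV g f hV hN b (hc0 (k := k) N) m (m + 1) N
  have hv2 := valid_SV g f hV hN b (hc0 (k := k) N) (m + 1) (m + 1) N
  have h1 := echi_diff M (valid_JA g f hV hN b m) (valid_JA g f hV hN b (m + 1))
    fun w hw => ⟨hw.1, fun q l hl => hw.2 q l (by omega)⟩
  have h2 := (echi_lin M (S := Sb g f V m N) (valid_diff hv1 hv2) (μ := wy τ N)
    (ν := fun i : Fin (N - m) => ((m + i : ℕ) : ℤ) + 1) (B := Bm g N m)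
    (isPF_Bm g N m) (c := cm f N m) (isPF_cm f N m) ?_ ?_
    (fun z hz v => Bm_surj g f z hz v)).2
  · rw [← JA_sdiff g f hm, h1, echi_Sb M hB hV hm0 hm b, Fintype.card_prod, Fintype.card_fin,
      sub_eq_iff_eq_add] at h2
    rw [h2]
    ring
  · intro l hl z _ i c
    have hl0 := ne_zero_of_pow hN hl
    rw [Bm, Bm]
    split_ifs with h
    · rw [coeff_wx]
      congr 1
      rw [← zpow_natCast]
      congr 1
      rw [wy]
      push_cast [Nat.cast_sub h]
      ring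
    · rw [mul_zero]
  · intro l hl z _ i
    have hl0 := ne_zero_of_pow hN hl
    rw [cm, cm, coeff_wx, mul_sub]
    have h3 : l ^ (((m + i : ℕ) : ℤ) + 1) = l ^ (m + 1 + (i : ℕ)) := by
      rw [← zpow_natCast]
      congr 1
      push_cast
      ring
    rw [h3]
    congr 1
    exact (hcd N l hl _).symm

/-- **The class of the jets of `f + ∑ y_q g_q`.** -/
theorem Ac_eq (hB : IsSplit g f B V) (hV : Constr V) (hVg : ∀ x ∈ V, ∀ q, aeval x (g q) = 0)
    {N : ℕ} (hN : 0 < N) (b : Fin n → σ) :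
    Ac M g f V b N = Xc M g f V b N * M.L ^ Fintype.card τ * M.L ^ (Fintype.card τ * N) +
      ∑ m ∈ Finset.Ico 1 N, (M.L ^ Fintype.card τ - 1) * Yc M g f V b m *
        M.L ^ (Fintype.card σ * (N - m)) * M.L ^ (Fintype.card τ * N - (N - m)) := by
  have hfirst : AV g f V N = JA g f V N 1 := by
    ext w
    refine ⟨fun h => ⟨h, fun q l hl => ?_⟩, fun h => h.1⟩
    obtain rfl : l = 0 := by omega
    rw [constCoeff_ar]
    exact hVg _ h.1 q
  have key : ∀ m, 0 < m → m ≤ N → M.χ _ (JA g f V N 1) (Sum.elim (wx σ N) (wy τ N)) N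
      (fun i => (bx b N i).map Sum.inl) =
      M.χ _ (JA g f V N m) (Sum.elim (wx σ N) (wy τ N)) N (fun i => (bx b N i).map Sum.inl) +
      ∑ m ∈ Finset.Ico 1 m, (M.L ^ Fintype.card τ - 1) * Yc M g f V b m *
        M.L ^ (Fintype.card σ * (N - m)) * M.L ^ (Fintype.card τ * N - (N - m)) := by
    intro m
    induction m with
    | zero => intro h; exact absurd h (lt_irrefl 0)
    | succ m ih =>
      intro _ hm
      rcases Nat.eq_zero_or_pos m with rfl | hm0
      · simp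
      · rw [ih hm0 (by omega), echi_JA_step M hB hV hm0 (by omega) b,
          Finset.sum_Ico_succ_top (by omega : 1 ≤ m)]
        ring
  have htop := (echi_split M (Equiv.refl ((σ × Fin (N + 1)) ⊕ τ × Fin N))
    (S := JA g f V N N) (T := SV g f V (del N) N (N + 1) N)
    (ρ' := Sum.elim (wx σ N) (wy τ N)) (β' := fun i => (bx b N i).map Sum.inl)
    (valid_SV g f hV hN b (hcd (k := k) N) N (N + 1) N) (fun _ => rfl) (fun _ => rfl)
    fun w => JA_top g f w).2
  obtain ⟨N, rfl⟩ : ∃ N', N = N' + 1 := ⟨N - 1, by omega⟩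
  rw [echi_tube M g f B hB hV hN b (hcd _) N, Fintype.card_prod, Fintype.card_fin] at htop
  rw [Ac, hfirst, key (N + 1) hN le_rfl, htop]
  rfl

end Pool.Agent.Q221.EM
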