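import Pool.Agent.W428.MOT.EShort

/-!
# Varieties with an action of `μ̂` over a constructible set

`k` is a field, `Z` a constructible subset of `k̄ ^ n` defined over `k`. This is the Grothendieck ring of
`Pool.Agent.W428.MOT.EDefs` with the base `Z` instead of the zero set of one polynomial.
-/

set_option autoImplicit false

namespace Pool.Agent.Q221.EM

open MvPolynomial Pool.Agent.W428.MOT

/-- A constructible subset of `k̄ ^ n` defined over `k`. -/
def Base (k : Type) [Field k] (n : ℕ) : Type := {Z : Set (Pt k (Fin n)) // Constr Z}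

/-- A `Z`-variety with an action of `μ̂` which factors through `μ_d`: a constructible set `S` defined
over `k`, a regular map `π : S → Z`, and an action of `μ_d`, regular over `k`, which preserves the
fibres of `π`. -/
structure SVar {k : Type} [Field k] {n : ℕ} (Z : Base k n) where
  N : ℕ
  S : Set (Pt k (Fin N))
  constr : Constr S
  π : Pt k (Fin N) → Pt k (Fin n)
  regular_π : RegularOn S π
  π_mem : ∀ z ∈ S, π z ∈ Z.1
  d : ℕ
  d_pos : 0 < d
  act : AlgebraicClosure k → Pt k (Fin N) → Pt k (Fin N)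
  regular_act : RegularOn (muProd d S) (fun w => act (w none) (fun i => w (some i)))
  act_mem : ∀ ζ : AlgebraicClosure k, ζ ^ d = 1 → ∀ z ∈ S, act ζ z ∈ S
  act_one : ∀ z ∈ S, act 1 z = z
  act_mul : ∀ ζ ζ' : AlgebraicClosure k, ζ ^ d = 1 → ζ' ^ d = 1 → ∀ z ∈ S,
    act (ζ * ζ') z = act ζ (act ζ' z)
  π_act : ∀ ζ : AlgebraicClosure k, ζ ^ d = 1 → ∀ z ∈ S, π (act ζ z) = π z

section

variable {k : Type} [Field k] {n : ℕ} {Z : Base k n}

/-- `φ`, `ψ` are mutually inverse isomorphisms between `V` and `W` over `Z`, compatible with the actions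
of `μ̂`: the element `(ξ_m)_m` of `μ̂` acts on `V` by `ξ_d`, `d = V.d`; if `λ = ξ_{d d'}`, `d' = W.d`, then
`ξ_d = λ ^ d'` and `ξ_d' = λ ^ d`. -/
structure IsIso (V W : SVar Z) (φ : Pt k (Fin V.N) → Pt k (Fin W.N))
    (ψ : Pt k (Fin W.N) → Pt k (Fin V.N)) : Prop where
  regular : RegularOn V.S φ
  regular' : RegularOn W.S ψ
  mapsTo : Set.MapsTo φ V.S W.S
  mapsTo' : Set.MapsTo ψ W.S V.S
  left_inv : ∀ z ∈ V.S, ψ (φ z) = z
  right_inv : ∀ w ∈ W.S, φ (ψ w) = w
  overBase : ∀ z ∈ V.S, W.π (φ z) = V.π z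
  equivariant : ∀ l : AlgebraicClosure k, l ^ (V.d * W.d) = 1 → ∀ z ∈ V.S,
    φ (V.act (l ^ W.d) z) = W.act (l ^ V.d) (φ z)

/-- The restriction of `V` to a constructible subset stable under the action. -/
def SVar.restrict (V : SVar Z) (T : Set (Pt k (Fin V.N))) (hT : Constr T) (hTS : T ⊆ V.S)
    (hst : ∀ ζ : AlgebraicClosure k, ζ ^ V.d = 1 → ∀ z ∈ T, V.act ζ z ∈ T) : SVar Z where
  N := V.N
  S := T
  constr := hT
  π := V.π
  regular_π := fun i => by
    obtain ⟨P, Q, h⟩ := V.regular_π i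
    exact ⟨P, Q, fun z hz => h z (hTS hz)⟩
  π_mem := fun z hz => V.π_mem z (hTS hz)
  d := V.d
  d_pos := V.d_pos
  act := V.act
  regular_act := fun i => by
    obtain ⟨P, Q, h⟩ := V.regular_act i
    exact ⟨P, Q, fun z hz => h z ⟨hz.1, hTS hz.2⟩⟩
  act_mem := hst
  act_one := fun z hz => V.act_one z (hTS hz)
  act_mul := fun ζ ζ' h h' z hz => V.act_mul ζ ζ' h h' z (hTS hz)
  π_act := fun ζ h z hz => V.π_act ζ h z (hTS hz)

/-- `P` is the fibre product of `V` and `W` over `Z`, with the diagonal action. -/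
structure IsFib (V W P : SVar Z) (p : Pt k (Fin P.N) → Pt k (Fin V.N))
    (q : Pt k (Fin P.N) → Pt k (Fin W.N)) (j : Pt k (Fin V.N ⊕ Fin W.N) → Pt k (Fin P.N)) :
    Prop where
  regular_p : RegularOn P.S p
  regular_q : RegularOn P.S q
  regular_j : RegularOn {w | (fun i => w (Sum.inl i)) ∈ V.S ∧ (fun i => w (Sum.inr i)) ∈ W.S ∧
    V.π (fun i => w (Sum.inl i)) = W.π (fun i => w (Sum.inr i))} j
  mapsTo : ∀ z ∈ P.S, p z ∈ V.S ∧ q z ∈ W.S ∧ V.π (p z) = W.π (q z) ∧ V.π (p z) = P.π z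
  mapsTo' : ∀ v ∈ V.S, ∀ w ∈ W.S, V.π v = W.π w → j (Sum.elim v w) ∈ P.S ∧
    p (j (Sum.elim v w)) = v ∧ q (j (Sum.elim v w)) = w
  inj : ∀ z ∈ P.S, j (Sum.elim (p z) (q z)) = z
  equivariant_p : ∀ l : AlgebraicClosure k, l ^ (P.d * V.d) = 1 → ∀ z ∈ P.S,
    p (P.act (l ^ V.d) z) = V.act (l ^ P.d) (p z)
  equivariant_q : ∀ l : AlgebraicClosure k, l ^ (P.d * W.d) = 1 → ∀ z ∈ P.S,
    q (P.act (l ^ W.d) z) = W.act (l ^ P.d) (q z)

/-- The base `Z` with the trivial action. -/
def SVar.base (Z : Base k n) : SVar Z where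
  N := n
  S := Z.1
  constr := Z.2
  π := fun z => z
  regular_π := regularOn_poly (fun i => IsPF.coord i) _
  π_mem := fun _ hz => hz
  d := 1
  d_pos := one_pos
  act := fun _ z => z
  regular_act := regularOn_poly (fun i => IsPF.coord (some i)) _
  act_mem := fun _ _ _ hz => hz
  act_one := fun _ _ => rfl
  act_mul := fun _ _ _ _ _ _ => rfl
  π_act := fun _ _ _ _ => rfl

/-- The affine space `𝔸 ^ r × Z` over `Z` with the trivial action. -/
def SVar.aff (Z : Base k n) (r : ℕ) : SVar Z where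
  N := n + r
  S := {z | (fun i => z (Fin.castAdd r i)) ∈ Z.1}
  constr := Z.2.preimage (fun (z : Pt k (Fin (n + r))) i => z (Fin.castAdd r i))
    (fun _ => IsPF.coord _)
  π := fun z i => z (Fin.castAdd r i)
  regular_π := regularOn_poly (fun _ => IsPF.coord _) _
  π_mem := fun _ hz => hz
  d := 1
  d_pos := one_pos
  act := fun _ z => z
  regular_act := regularOn_poly (fun i => IsPF.coord (some i)) _
  act_mem := fun _ _ _ hz => hz
  act_one := fun _ _ => rfl
  act_mul := fun _ _ _ _ _ _ => rfl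
  π_act := fun _ _ _ _ => rfl

/-- `P` is `V × 𝔸 ^ r`, the action of `P` lifts the action of `V` and is given by affine maps
between the fibres of `P → V`. -/
structure IsAff (V P : SVar Z) (r : ℕ) (p : Pt k (Fin P.N) → Pt k (Fin V.N))
    (q : Pt k (Fin P.N) → Pt k (Fin r)) (j : Pt k (Fin V.N ⊕ Fin r) → Pt k (Fin P.N)) :
    Prop where
  regular_p : RegularOn P.S p
  regular_q : RegularOn P.S q
  regular_j : RegularOn {w | (fun i => w (Sum.inl i)) ∈ V.S} j
  mapsTo : ∀ z ∈ P.S, p z ∈ V.S ∧ V.π (p z) = P.π z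
  mapsTo' : ∀ v ∈ V.S, ∀ w, j (Sum.elim v w) ∈ P.S ∧ p (j (Sum.elim v w)) = v ∧
    q (j (Sum.elim v w)) = w
  inj : ∀ z ∈ P.S, j (Sum.elim (p z) (q z)) = z
  equivariant_p : ∀ l : AlgebraicClosure k, l ^ (P.d * V.d) = 1 → ∀ z ∈ P.S,
    p (P.act (l ^ V.d) z) = V.act (l ^ P.d) (p z)
  affine : ∀ l : AlgebraicClosure k, l ^ P.d = 1 → ∀ v ∈ V.S,
    ∃ (A : Matrix (Fin r) (Fin r) (AlgebraicClosure k)) (b : Fin r → AlgebraicClosure k),
      ∀ z ∈ P.S, p z = v → q (P.act l z) = A.mulVec (q z) + b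

/-- The defining relations of the Grothendieck ring `K₀^μ̂(Var_Z)`:
* `[V] = [W]` if there is an equivariant isomorphism between `V` and `W` over `Z`;
* `[V] = [T] + [V ∖ T]` if `T ⊆ V` is stable under the action;
* `[V ×_Z W] = [V] [W]`;
* `[Z] = 1`;
* `[V × 𝔸 ^ r] = [V] [𝔸 ^ r × Z]` if the action on `V × 𝔸 ^ r` lifts the action on `V` and is affine on
  the fibres. -/
inductive Rel (Z : Base k n) : MvPolynomial (SVar Z) ℤ → Prop
  | iso (V W : SVar Z) (φ : Pt k (Fin V.N) → Pt k (Fin W.N))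
      (ψ : Pt k (Fin W.N) → Pt k (Fin V.N)) (h : IsIso V W φ ψ) : Rel Z (X V - X W)
  | scissors (V : SVar Z) (T : Set (Pt k (Fin V.N))) (hT : Constr T) (hTS : T ⊆ V.S) (hst)
      (hT' : Constr (V.S \ T)) (hst') :
      Rel Z (X V - (X (V.restrict T hT hTS hst) +
        X (V.restrict (V.S \ T) hT' Set.sdiff_subset hst')))
  | prod (V W P : SVar Z) (p q j) (h : IsFib V W P p q j) : Rel Z (X P - X V * X W)
  | one : Rel Z (X (SVar.base Z) - 1)
  | affine (V P : SVar Z) (r : ℕ) (p q j) (h : IsAff V P r p q j) :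
      Rel Z (X P - X V * X (SVar.aff Z r))

/-- The Grothendieck ring `K₀^μ̂(Var_Z)`. -/
def K0S (Z : Base k n) : Type :=
  MvPolynomial (SVar Z) ℤ ⧸ Ideal.span {x | Rel Z x}

noncomputable instance (Z : Base k n) : CommRing (K0S Z) :=
  Ideal.Quotient.commRing (Ideal.span {x | Rel Z x})

/-- The class of a `Z`-variety with action of `μ̂`. -/
noncomputable def K0S.mk (V : SVar Z) : K0S Z :=
  Ideal.Quotient.mk (Ideal.span {x | Rel Z x}) (X V)

/-- `𝕃 = [𝔸 ^ 1 × Z]`. -/
noncomputable def LS (Z : Base k n) : K0S Z := K0S.mk (SVar.aff Z 1)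

/-- The localised ring `𝓜^μ̂_Z`. -/
abbrev MS (Z : Base k n) : Type := Localization.Away (LS Z)

/-- `𝕃` as a unit. -/
noncomputable def LuS (Z : Base k n) : (MS Z)ˣ :=
  (IsLocalization.Away.algebraMap_isUnit (S := MS Z) (LS Z)).unit

end

/-! ### Diagonal actions -/

section Diag

variable {k : Type} [Field k] {n : ℕ}

/-- The `Z`-variety `S` with the diagonal action of `μ_M` with weights `ρ` and the projection to some of
the coordinates (`Valid 0`: `S` is constructible and stable, the coordinates used for the projection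
have the weight `0`). -/
noncomputable def diagS {Z : Base k n} {ι : Type} [Fintype ι] {S : Set (Pt k ι)}
    {ρ : ι → ℤ} {M : ℕ} {β : Fin n → Option ι}
    (h : Valid (0 : MvPolynomial (Fin n) k) S ρ M β) (hZ : ∀ z ∈ S, cbase β z ∈ Z.1) : SVar Z where
  N := Fintype.card ι
  S := toFin S
  constr := (diagVar h).constr
  π := fun z => cbase β (fun i => z (Fintype.equivFin ι i))
  regular_π := (diagVar h).regular_π
  π_mem := fun _ hz => hZ _ hz
  d := M
  d_pos := (diagVar h).d_pos
  act := fun l z => dact (fun i => ρ ((Fintype.equivFin ι).symm i)) l z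
  regular_act := (diagVar h).regular_act
  act_mem := (diagVar h).act_mem
  act_one := (diagVar h).act_one
  act_mul := (diagVar h).act_mul
  π_act := (diagVar h).π_act

end Diag

/-! ### Jets on closed subvarieties of affine spaces -/

section Jets

variable {k : Type} [Field k] {n r : ℕ}

/-- The common zeros of the `g_i` and `f`. -/
def zer (g : Fin r → MvPolynomial (Fin n) k) (f : MvPolynomial (Fin n) k) : Base k n :=
  ⟨{x | (∀ i, aeval x (g i) = 0) ∧ aeval x f = 0},
    Constr.and (Constr.all fun i => Constr.zero (g i)) (Constr.zero f)⟩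

/-- The set `X_{N,1}` of the `N`-jets `ψ` of `X : g_1 = ⋯ = g_r = 0` with
`f(ψ) = t ^ N mod t ^ (N + 1)`. -/
def JetX (g : Fin r → MvPolynomial (Fin n) k) (f : MvPolynomial (Fin n) k) (N : ℕ) :
    Set (Pt k (Fin n × Fin (N + 1))) :=
  {z | (∀ i, ∀ j ≤ N, PowerSeries.coeff j (aeval (arc z) (g i)) = 0) ∧
    ∀ j ≤ N, PowerSeries.coeff j (aeval (arc z) f) = if j = N then 1 else 0}

theorem coeff_zero_arc {N : ℕ} (z : Pt k (Fin n × Fin (N + 1))) (p : MvPolynomial (Fin n) k) :
    PowerSeries.coeff 0 (aeval (arc z) p) = aeval (cbase (fun i => some (i, 0)) z) p := by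
  induction p using MvPolynomial.induction_on with
  | C a =>
    rw [algHom_C, algHom_C, PowerSeries.algebraMap_apply, PowerSeries.coeff_zero_C]
  | add p q hp hq => rw [map_add, map_add, map_add, hp, hq]
  | mul_X p i hp =>
    have e1 : aeval (arc z) (p * X i) = aeval (arc z) p * arc z i := by
      rw [map_mul, aeval_X]
    have e2 : aeval (cbase (fun i => some (i, 0)) z) (p * X i) =
        aeval (cbase (fun i => some (i, 0)) z) p *
          cbase (fun i => some (i, (0 : Fin (N + 1)))) z i := by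
      rw [map_mul, aeval_X]
    rw [e1, e2, ← hp]
    simp only [PowerSeries.coeff_zero_eq_constantCoeff_apply, map_mul]
    congr 1

/-- The jets `X_{N,1}` form a variety with action `ψ(t) ↦ ψ(λ t)` of `μ_N`. -/
theorem jetX_valid (g : Fin r → MvPolynomial (Fin n) k) (f : MvPolynomial (Fin n) k) (N : ℕ)
    (hN : 0 < N) : Valid (0 : MvPolynomial (Fin n) k) (JetX g f N)
      (fun p : Fin n × Fin (N + 1) => ((p.2 : ℕ) : ℤ)) N (fun i => some (i, 0)) where
  constr := Constr.and (Constr.all fun i => Constr.allLe N fun j _ =>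
    Constr.eqz (IsPA.aeval (fun i z => arc z i) (fun i => isPA_arc i) (g i) j))
    (Constr.allLe N fun j _ => by
      refine Constr.eq (IsPA.aeval (fun i z => arc z i) (fun i => isPA_arc i) f j) ?_
      split_ifs
      · exact IsPF.one
      · exact IsPF.zero)
  pos := hN
  stable := fun l hl z hz => by
    have h1 : arc (dact (fun p : Fin n × Fin (N + 1) => ((p.2 : ℕ) : ℤ)) l z) =
        fun i => PowerSeries.rescale l (arc z i) := funext fun i => arc_dact l z i
    refine ⟨fun i j hj => ?_, fun j hj => ?_⟩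
    · rw [h1, aeval_rescale, PowerSeries.coeff_rescale, hz.1 i j hj, mul_zero]
    · rw [h1, aeval_rescale, PowerSeries.coeff_rescale, hz.2 j hj]
      split_ifs with h
      · rw [h, hl, one_mul]
      · rw [mul_zero]
  base := fun z _ => map_zero _
  inv := fun i j h => by
    rw [Option.some.injEq] at h
    rw [← h]
    rfl

theorem jetX_base (g : Fin r → MvPolynomial (Fin n) k) (f : MvPolynomial (Fin n) k) (N : ℕ)
    (hN : 0 < N) : ∀ z ∈ JetX g f N, cbase (fun i => some (i, 0)) z ∈ (zer g f).1 := by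
  intro z hz
  refine ⟨fun i => ?_, ?_⟩
  · rw [← coeff_zero_arc]
    exact hz.1 i 0 (Nat.zero_le N)
  · rw [← coeff_zero_arc, hz.2 0 (Nat.zero_le N), if_neg (by omega)]

/-- The class of the jets `X_{N,1}` with their action of `μ_N`. -/
noncomputable def jetS (g : Fin r → MvPolynomial (Fin n) k) (f : MvPolynomial (Fin n) k) (N : ℕ)
    (h : 0 < N) : K0S (zer g f) :=
  K0S.mk (diagS (jetX_valid g f N h) (jetX_base g f N h))

/-- The equivariant motivic zeta function `Z_f(T) = ∑_{N ≥ 1} [X_{N,1}] 𝕃 ^ (- d N) T ^ N` of `f` on the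
smooth variety `X : g_1 = ⋯ = g_r = 0` of dimension `d = n - r`, in `𝓜^μ̂_{X_s}[[T]]`,
`X_s = {x ∈ X | f(x) = 0}`. -/
noncomputable def zetaX (g : Fin r → MvPolynomial (Fin n) k) (f : MvPolynomial (Fin n) k) :
    PowerSeries (MS (zer g f)) :=
  genR (n - r) (LuS (zer g f)) fun N h => algebraMap (K0S (zer g f)) (MS (zer g f)) (jetS g f N h)

end Jets

end Pool.Agent.Q221.EM
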