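import Pool.Agent.Q221.EM.Main

/-!
# The final forms
-/

set_option autoImplicit false

namespace Pool.Agent.Q221.EM

open MvPolynomial Pool.Agent.W428.MOT Pool.Agent.Q42.CU Pool.Agent.Q223.MM

variable {k : Type} [Field k] [Algebra k ℂ]

theorem Q1P_ofA {m : ℕ} {F : MvPolynomial (Fin m) k} (h : Q1A F) : Q1P F := Q1P_of h

theorem smoothCI_elim0 {m : ℕ} : SmoothCI (Fin.elim0 : Fin 0 → MvPolynomial (Fin m) k) :=
  ⟨isCI_elim0K, prime_elim0K⟩

theorem reduce_hyp {n r : ℕ} {f : MvPolynomial (Fin n) k} {g : Fin r → MvPolynomial (Fin n) k}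
    (hg : SmoothCI g) (κ : ℕ) (h : ∀ j < 4, Q1A (hyp (FK f g) (κ + j))) : Q1X g f :=
  reduce_stb hg.1 hg.2 κ fun j hj => Q1P_ofA (h j hj)

/-- **The reduction to triple systems.** -/
theorem equiv_spanA [CharZero k] (S : Set k) (hS : (1 : k) ∈ S) (N : ℕ) :
    (∀ (n r : ℕ) (g : Fin r → MvPolynomial (Fin n) k) (f : MvPolynomial (Fin n) k),
      SmoothCI g → (∀ q d, coeff d (g q) ∈ Submodule.span ℚ S) →
      (∀ d, coeff d f ∈ Submodule.span ℚ S) → Q1X g f) ↔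
    ∀ (m r : ℕ) (E : Fin r → Finset (Fin m)) (c : Fin r → k), 0 < m → IsTriple S E c →
      MinExp N (map (algebraMap k ℂ) (Phi 24⁻¹ E c)) → Q1A (Phi 24⁻¹ E c) := by
  constructor
  · intro h m r E c _ hc _
    exact h _ 0 Fin.elim0 _ smoothCI_elim0 (fun q => q.elim0) (Phi_span inv24k hS hc)
  · intro h n r g f hg hgS hfS
    exact (equiv_span S hS N).2 (fun m r E c hm hc hN => Q1P_ofA (h m r E c hm hc hN)) n r g f
      hg.1 hg.2 hgS hfS

end Pool.Agent.Q221.EM
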