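import Pool.Agent.Q221.EM.Defs
import Pool.Agent.Q221.Sm.Defs

/-!
# The statement of the conjecture for smooth varieties
-/

set_option autoImplicit false

namespace Pool.Agent.Q221.EM

open MvPolynomial Pool.Agent.W428.MOT

variable {k : Type} [Field k]

/-- the polynomial `f + ∑ y_q g_q` in the variables `x_1, …, x_n, y_1, …, y_r` -/
noncomputable def FK {n r : ℕ} (f : MvPolynomial (Fin n) k)
    (g : Fin r → MvPolynomial (Fin n) k) : MvPolynomial (Fin (n + r)) k :=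
  rename (Fin.castAdd r) f + ∑ q, X (Fin.natAdd n q) * rename (Fin.castAdd r) (g q)

/-- the polynomial `F + ∑ y_m z_m` in the variables `x_1, …, x_n, y_1, …, y_κ, z_1, …, z_κ` -/
noncomputable def hyp {n : ℕ} (F : MvPolynomial (Fin n) k) (κ : ℕ) :
    MvPolynomial (Fin (n + (κ + κ))) k :=
  rename (Fin.castAdd (κ + κ)) F +
    ∑ m : Fin κ, X (Fin.natAdd n (Fin.castAdd κ m)) * X (Fin.natAdd n (Fin.natAdd κ m))

variable [Algebra k ℂ]

/-- **Q1 for `f` on `X : g_1 = ⋯ = g_r = 0`.** If `b ≠ 0` and `b(s) f ^ s = P(s) f ^ (s + 1)` on `X`,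
there is a finite set `S` of pairs `(a, d)` with `d > 0` and `b(a / d) = 0` such that the motivic zeta
function of `f` is in `𝓜^μ̂_{X_s}[T, 1 / (1 - 𝕃 ^ a T ^ d)]_{(a, d) ∈ S}`. -/
def Q1X {n r : ℕ} (g : Fin r → MvPolynomial (Fin n) k) (f : MvPolynomial (Fin n) k) : Prop :=
  ∀ b : Polynomial ℂ, b ≠ 0 →
    Sm.IsBX (map (algebraMap k ℂ) f) (fun q => map (algebraMap k ℂ) (g q)) b →
    ∃ S : Finset (ℤ × ℤ), (∀ p ∈ S, 0 < p.2 ∧ b.eval ((p.1 : ℂ) / p.2) = 0) ∧
      InRat (LuS (zer g f)) S (zetaX g f)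

/-- **Q1 for the polynomial `F` on an affine space.** -/
def Q1A {m : ℕ} (F : MvPolynomial (Fin m) k) : Prop :=
  Q1X (Fin.elim0 : Fin 0 → MvPolynomial (Fin m) k) F

/-- `X = {g_1 = ⋯ = g_r = 0}` is a smooth irreducible complete intersection over `k`, with reduced
equations. -/
def SmoothCI {n r : ℕ} (g : Fin r → MvPolynomial (Fin n) k) : Prop :=
  Sm.IsCI (fun q => map (algebraMap k ℂ) (g q)) ∧ (Ideal.span (Set.range g)).IsPrime

end Pool.Agent.Q221.EM
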