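import Pool.Agent.Q221.EM.Conn
import Pool.Agent.Q221.EM.Alg
import Pool.Agent.Q221.EM.Stmt
import Pool.Agent.Q42.CU.Mot

/-!
# The polynomials `f + ∑ y_q g_q + ∑ y_m z_m`
-/

set_option autoImplicit false
set_option linter.unusedSectionVars false

namespace Pool.Agent.Q221.EM

open MvPolynomial Pool.Agent.W428.MOT Pool.Agent.Q42.CU Pool.Agent.Q223.MM

variable {k : Type} [Field k]

/-! ### Shears -/

section shear

variable {σ τ : Type}

/-- `Y_q ↦ Y_q + h_q` -/
noncomputable def shearH (h : τ → MvPolynomial σ k) :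
    MvPolynomial (σ ⊕ τ) k →ₐ[k] MvPolynomial (σ ⊕ τ) k :=
  aeval (Sum.elim (fun p => X (Sum.inl p)) fun q => X (Sum.inr q) + rename Sum.inl (h q))

theorem shearH_inl (h : τ → MvPolynomial σ k) (p : MvPolynomial σ k) :
    shearH h (rename Sum.inl p) = rename Sum.inl p := by
  have h1 : (shearH h).comp (rename Sum.inl) = rename Sum.inl := by
    apply MvPolynomial.algHom_ext
    intro i
    rw [AlgHom.comp_apply, rename_X, shearH, aeval_X]
    rfl
  exact DFunLike.congr_fun h1 p

theorem shearH_inr (h : τ → MvPolynomial σ k) (q : τ) :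
    shearH h (X (Sum.inr q)) = X (Sum.inr q) + rename Sum.inl (h q) := by
  rw [shearH, aeval_X]
  rfl

theorem shearH_comp (h h' : τ → MvPolynomial σ k) (hh : ∀ q, h q + h' q = 0) :
    (shearH h).comp (shearH h') = AlgHom.id k _ := by
  apply MvPolynomial.algHom_ext
  intro i
  rw [AlgHom.comp_apply, AlgHom.id_apply]
  rcases i with p | q
  · have h1 : (X (Sum.inl p) : MvPolynomial (σ ⊕ τ) k) = rename Sum.inl (X p) :=
      (rename_X _ _).symm
    rw [h1, shearH_inl, shearH_inl]
  · rw [shearH_inr, map_add, shearH_inr, shearH_inl, add_assoc, ← map_add, hh, map_zero, add_zero]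

/-- the shear as an isomorphism -/
noncomputable def shearE (h : τ → MvPolynomial σ k) :
    MvPolynomial (σ ⊕ τ) k ≃ₐ[k] MvPolynomial (σ ⊕ τ) k :=
  AlgEquiv.ofAlgHom (shearH h) (shearH fun q => -h q)
    (shearH_comp _ _ fun _ => add_neg_cancel _) (shearH_comp _ _ fun _ => neg_add_cancel _)

end shear

variable {n r : ℕ}

theorem map_FK [Algebra k ℂ] (f : MvPolynomial (Fin n) k) (g : Fin r → MvPolynomial (Fin n) k) :
    map (algebraMap k ℂ) (FK f g) =
      Sm.FN (map (algebraMap k ℂ) f) fun q => map (algebraMap k ℂ) (g q) := by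
  rw [FK, Sm.FN, map_add, map_rename, map_sum]
  congr 1
  refine Finset.sum_congr rfl fun q _ => ?_
  rw [map_mul, map_X, map_rename]

/-! ### The equations -/

section eqs

variable (f : MvPolynomial (Fin n) k) (g : Fin r → MvPolynomial (Fin n) k)
  (B : Fin n → Fin r → MvPolynomial (Fin n) k) (κ : ℕ)

/-- the equations `g_q = 0`, `z_m = 0` -/
noncomputable def gK (q : Fin r ⊕ Fin κ) : MvPolynomial (Fin n ⊕ Fin κ) k :=
  Sum.elim (fun q => rename Sum.inl (g q)) (fun m => X (Sum.inr m)) q

/-- the derivative of `f` in the normal directions -/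
noncomputable def hB (l : Fin r) : MvPolynomial (Fin n) k := ∑ i, pderiv i f * B i l

/-- `f` modified so that its normal derivatives are zero -/
noncomputable def ft : MvPolynomial (Fin n) k := f - ∑ l, hB f B l * g l

/-- the same in the larger space -/
noncomputable def fK : MvPolynomial (Fin n ⊕ Fin κ) k := rename Sum.inl (ft f g B)

/-- the splitting in the larger space -/
noncomputable def BK (p : Fin n ⊕ Fin κ) (l : Fin r ⊕ Fin κ) : MvPolynomial (Fin n ⊕ Fin κ) k :=
  Sum.elim (fun i => Sum.elim (fun l => rename Sum.inl (B i l)) (fun _ => 0) l)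
    (fun m => Sum.elim (fun _ => 0) (fun m' => if m = m' then 1 else 0) l) p

variable {f g B}

theorem aeval_ft {A : Type} [CommRing A] [Algebra k A] {x : Fin n → A}
    (hx : ∀ q, aeval x (g q) = 0) : aeval x (ft f g B) = aeval x f := by
  rw [ft, map_sub, map_sum, Finset.sum_eq_zero fun l _ => by rw [map_mul, hx, mul_zero], sub_zero]

theorem split_pt (hB' : ∀ q l, ∑ i, pderiv i (g q) * B i l - (if q = l then 1 else 0) ∈
    Ideal.span (Set.range g)) {x : Pt k (Fin n)} (hx : ∀ q, aeval x (g q) = 0) :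
    (∀ q l, ∑ i, aeval x (pderiv i (g q)) * aeval x (B i l) =
      if q = l then (1 : AlgebraicClosure k) else 0) ∧
    ∀ l, ∑ i, aeval x (pderiv i (ft f g B)) * aeval x (B i l) = (0 : AlgebraicClosure k) := by
  have h0 : ∀ p ∈ Ideal.span (Set.range g), aeval x p = (0 : AlgebraicClosure k) := by
    intro p hp
    have h1 : Ideal.span (Set.range g) ≤ RingHom.ker (aeval x : MvPolynomial (Fin n) k →ₐ[k]
        AlgebraicClosure k).toRingHom := by
      rw [Ideal.span_le]
      rintro _ ⟨q, rfl⟩
      exact hx q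
    exact h1 hp
  have h1 : ∀ q l, ∑ i, aeval x (pderiv i (g q)) * aeval x (B i l) =
      if q = l then (1 : AlgebraicClosure k) else 0 := by
    intro q l
    have h2 := h0 _ (hB' q l)
    rw [map_sub, map_sum, sub_eq_zero] at h2
    simp only [map_mul] at h2
    rw [h2]
    split_ifs
    · rw [map_one]
    · rw [map_zero]
  refine ⟨h1, fun l => ?_⟩
  have h2 : ∀ i, aeval x (pderiv i (ft f g B)) = aeval x (pderiv i f) -
      ∑ l', aeval x (hB f B l') * aeval x (pderiv i (g l')) := by
    intro i
    rw [ft, map_sub, map_sub, map_sum, map_sum]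
    congr 1
    refine Finset.sum_congr rfl fun l' _ => ?_
    rw [Derivation.leibniz, smul_eq_mul, smul_eq_mul, map_add, map_mul, map_mul, hx, zero_mul,
      add_zero]
  simp only [h2, sub_mul, Finset.sum_sub_distrib, Finset.sum_mul]
  rw [Finset.sum_comm, sub_eq_zero]
  have h3 : ∀ l', ∑ i, aeval x (hB f B l') * aeval x (pderiv i (g l')) * aeval x (B i l) =
      aeval x (hB f B l') * (if l' = l then (1 : AlgebraicClosure k) else 0) := by
    intro l'
    rw [← h1 l' l, Finset.mul_sum]
    exact Finset.sum_congr rfl fun i _ => mul_assoc _ _ _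
  rw [Finset.sum_congr rfl fun l' _ => h3 l']
  simp only [mul_ite, mul_one, mul_zero]
  rw [Finset.sum_ite_eq', if_pos (Finset.mem_univ l), hB, map_sum]
  exact Finset.sum_congr rfl fun i _ => (map_mul _ _ _).symm

theorem pderiv_inl {σ ρ : Type} (i : σ) (p : MvPolynomial σ k) :
    pderiv (Sum.inl i : σ ⊕ ρ) (rename Sum.inl p) = rename Sum.inl (pderiv i p) := by
  classical
  induction p using MvPolynomial.induction_on with
  | C a => rw [rename_C, pderiv_C, pderiv_C, map_zero]
  | add p q hp hq => rw [map_add, map_add, hp, hq, map_add, map_add]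
  | mul_X p j hp =>
    rw [map_mul, Derivation.leibniz, Derivation.leibniz, hp, rename_X, pderiv_X, pderiv_X,
      smul_eq_mul, smul_eq_mul, smul_eq_mul, smul_eq_mul, map_add, map_mul, map_mul, rename_X]
    congr 2
    by_cases h : j = i
    · subst h
      rw [Pi.single_eq_same, Pi.single_eq_same, map_one]
    · rw [Pi.single_eq_of_ne h, Pi.single_eq_of_ne (fun h' => h (Sum.inl.inj h')), map_zero]

theorem pderiv_inr {σ ρ : Type} (i : ρ) (p : MvPolynomial σ k) :
    pderiv (Sum.inr i : σ ⊕ ρ) (rename Sum.inl p) = 0 := by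
  classical
  induction p using MvPolynomial.induction_on with
  | C a => rw [rename_C, pderiv_C]
  | add p q hp hq => rw [map_add, map_add, hp, hq, add_zero]
  | mul_X p j hp =>
    rw [map_mul, Derivation.leibniz, hp, rename_X, pderiv_X, smul_zero, add_zero,
      Pi.single_eq_of_ne' (by simp), smul_zero]

/-- **The splitting in the larger space.** -/
theorem isSplit_K (hB' : ∀ q l, ∑ i, pderiv i (g q) * B i l - (if q = l then 1 else 0) ∈
    Ideal.span (Set.range g)) (κ : ℕ) {V : Set (Pt k (Fin n ⊕ Fin κ))}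
    (hV : ∀ x ∈ V, ∀ q, aeval (fun i => x (Sum.inl i)) (g q) = 0) :
    IsSplit (gK g κ) (fK f g B κ) (BK B κ) V := by
  classical
  intro x hx
  obtain ⟨h1, h2⟩ := split_pt (f := f) hB' (hV x hx)
  have e1 : ∀ p : MvPolynomial (Fin n) k, aeval x (rename (Sum.inl : _ → Fin n ⊕ Fin κ) p) =
      aeval (fun i => x (Sum.inl i)) p := fun p => aeval_rename _ _ _
  refine ⟨fun q l => ?_, fun l => ?_⟩
  · rw [Fintype.sum_sum_type]
    rcases q with q | m <;> rcases l with l | m'
    · simp only [gK, BK, Sum.elim_inl, Sum.elim_inr, pderiv_inl, e1, map_zero, mul_zero,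
        Finset.sum_const_zero, add_zero, Sum.inl.injEq]
      exact h1 q l
    · simp only [gK, BK, Sum.elim_inl, Sum.elim_inr, pderiv_inr, map_zero, mul_zero, zero_mul,
        Finset.sum_const_zero, add_zero, reduceCtorEq, if_false]
    · simp only [gK, BK, Sum.elim_inl, Sum.elim_inr, pderiv_X, map_zero, mul_zero,
        Finset.sum_const_zero, add_zero, reduceCtorEq, if_false]
      refine Finset.sum_eq_zero fun i _ => ?_
      rw [Pi.single_eq_of_ne' (by simp), map_zero, zero_mul]
    · simp only [gK, BK, Sum.elim_inl, Sum.elim_inr, pderiv_X, map_zero, mul_zero,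
        Finset.sum_const_zero, zero_add, Sum.inr.injEq]
      rw [Finset.sum_eq_single m]
      · rw [Pi.single_eq_same, map_one, one_mul]
        split_ifs
        · rw [map_one]
        · rw [map_zero]
      · intro b _ hb
        rw [Pi.single_eq_of_ne (fun h => hb (Sum.inr.inj h).symm), map_zero, zero_mul]
      · intro h
        exact absurd (Finset.mem_univ m) h
  · rw [Fintype.sum_sum_type]
    rcases l with l | m'
    · simp only [fK, BK, Sum.elim_inl, Sum.elim_inr, pderiv_inl, e1, map_zero, mul_zero,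
        Finset.sum_const_zero, add_zero]
      exact h2 l
    · simp only [fK, BK, Sum.elim_inl, Sum.elim_inr, pderiv_inr, map_zero, mul_zero, zero_mul,
        Finset.sum_const_zero, add_zero]

end eqs

/-! ### The isomorphism -/

section iso

/-- the renaming of the variables -/
def rnE (n r κ : ℕ) : (Fin n ⊕ Fin κ) ⊕ (Fin r ⊕ Fin κ) ≃ Fin (n + r + (κ + κ)) :=
  (Equiv.sumSumSumComm (Fin n) (Fin κ) (Fin r) (Fin κ)).trans
    ((Equiv.sumCongr finSumFinEquiv finSumFinEquiv).trans finSumFinEquiv)

variable (f : MvPolynomial (Fin n) k) (g : Fin r → MvPolynomial (Fin n) k)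
  (B : Fin n → Fin r → MvPolynomial (Fin n) k) (κ : ℕ)

/-- the isomorphism -/
noncomputable def θ0 : MvPolynomial ((Fin n ⊕ Fin κ) ⊕ (Fin r ⊕ Fin κ)) k ≃ₐ[k]
    MvPolynomial (Fin (n + r + (κ + κ))) k :=
  (shearE (Sum.elim (fun q => rename Sum.inl (hB f B q)) fun _ => 0)).trans
    (renameEquiv k (rnE n r κ))

theorem θ0_GS : θ0 f B κ (GS (gK g κ) (fK f g B κ)) = stb (FK f g) κ := by
  have h1 : shearE (Sum.elim (fun q => rename Sum.inl (hB f B q)) fun _ : Fin κ => 0)
      (GS (gK g κ) (fK f g B κ)) = rename Sum.inl (rename Sum.inl f) +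
      ∑ q, X (Sum.inr (Sum.inl q)) * rename Sum.inl (rename Sum.inl (g q)) +
      ∑ m, X (Sum.inr (Sum.inr m)) * X (Sum.inl (Sum.inr m)) := by
    show shearH _ _ = _
    rw [GS, map_add, map_sum, shearH_inl]
    have h2 : ∀ q : Fin r ⊕ Fin κ, shearH (Sum.elim (fun q => rename Sum.inl (hB f B q))
        fun _ : Fin κ => 0) (X (Sum.inr q) * rename Sum.inl (gK g κ q)) =
        (X (Sum.inr q) + rename Sum.inl (Sum.elim (fun q => rename Sum.inl (hB f B q))
          (fun _ : Fin κ => 0) q)) * rename Sum.inl (gK g κ q) := by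
      intro q
      rw [map_mul, shearH_inr, shearH_inl]
    rw [Finset.sum_congr rfl fun q _ => h2 q, Fintype.sum_sum_type]
    simp only [gK, fK, ft, Sum.elim_inl, Sum.elim_inr, map_zero, add_zero, rename_X, map_sub,
      map_sum, map_mul, add_mul, Finset.sum_add_distrib]
    ring
  rw [θ0, AlgEquiv.trans_apply, h1, renameEquiv_apply, map_add, map_add, map_sum, map_sum, stb,
    FK, map_add, map_sum]
  simp only [map_mul, rename_rename, rename_X, yv, zv]
  congr 1
  exact Finset.sum_congr rfl fun m _ => mul_comm _ _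

end iso

/-! ### The data -/

section dat

variable {f : MvPolynomial (Fin n) k} {g : Fin r → MvPolynomial (Fin n) k}

/-- the data for a polynomial stably equivalent to `f + ∑ y_q g_q` -/
noncomputable def datK (B : Fin n → Fin r → MvPolynomial (Fin n) k) {κ m : ℕ}
    {P : MvPolynomial (Fin m) k}
    (ψ : MvPolynomial (Fin (n + r + (κ + κ))) k ≃ₐ[k] MvPolynomial (Fin m) k)
    (hψ : ψ (stb (FK f g) κ) = P) : Dat (gK g κ) (fK f g B κ) P (zer g f) where
  θ := (θ0 f B κ).trans ψ
  hθ := by rw [AlgEquiv.trans_apply, θ0_GS, hψ]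
  b := Sum.inl
  s := Sum.elim X 0
  hs := fun _ => rfl
  hf := fun x hx => by
    rw [fK, aeval_rename]
    have h1 : (fun p : Fin n ⊕ Fin κ => aeval x (Sum.elim X 0 p : MvPolynomial (Fin n) k)) ∘
        Sum.inl = x := by
      funext i
      exact aeval_X _ _
    rw [h1, aeval_ft hx.1, hx.2]

end dat

end Pool.Agent.Q221.EM
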