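import Pool.Agent.Q221.EM.Defs

/-!
# Homomorphisms between the Grothendieck rings
-/

set_option autoImplicit false
set_option linter.unusedSectionVars false

namespace Pool.Agent.Q221.EM

open MvPolynomial Pool.Agent.W428.MOT

section lift

variable {k : Type} [Field k] {n : ℕ} {Z : Base k n}

theorem mk_eq_of_rel {x y : MvPolynomial (SVar Z) ℤ} (h : Rel Z (x - y)) :
    (Ideal.Quotient.mk (Ideal.span {x | Rel Z x}) x) =
      Ideal.Quotient.mk (Ideal.span {x | Rel Z x}) y :=
  (Ideal.Quotient.mk_eq_mk_iff_sub_mem _ _).2 (Ideal.subset_span h)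

theorem mk_iso (V W : SVar Z) (φ : Pt k (Fin V.N) → Pt k (Fin W.N))
    (ψ : Pt k (Fin W.N) → Pt k (Fin V.N)) (h : IsIso V W φ ψ) : K0S.mk V = K0S.mk W :=
  mk_eq_of_rel (Rel.iso V W φ ψ h)

theorem mk_scissors (V : SVar Z) (T : Set (Pt k (Fin V.N))) (hT : Constr T) (hTS : T ⊆ V.S) (hst)
    (hT' : Constr (V.S \ T)) (hst') : K0S.mk V = K0S.mk (V.restrict T hT hTS hst) +
      K0S.mk (V.restrict (V.S \ T) hT' Set.sdiff_subset hst') := by
  have h1 := mk_eq_of_rel (Rel.scissors V T hT hTS hst hT' hst')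
  rw [map_add] at h1
  exact h1

theorem mk_prod (V W P : SVar Z) (p q j) (h : IsFib V W P p q j) :
    K0S.mk P = K0S.mk V * K0S.mk W := by
  have h1 := mk_eq_of_rel (Rel.prod V W P p q j h)
  rw [map_mul] at h1
  exact h1

theorem mk_one : K0S.mk (SVar.base Z) = 1 := by
  have h1 := mk_eq_of_rel (Rel.one (Z := Z))
  rw [map_one] at h1
  exact h1

theorem mk_aff (V P : SVar Z) (r : ℕ) (p q j) (h : IsAff V P r p q j) :
    K0S.mk P = K0S.mk V * K0S.mk (SVar.aff Z r) := by
  have h1 := mk_eq_of_rel (Rel.affine V P r p q j h)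
  rw [map_mul] at h1
  exact h1

/-- an additive and multiplicative invariant -/
structure Inv (Z : Base k n) (A : Type) [CommRing A] where
  θ : SVar Z → A
  iso : ∀ V W φ ψ, IsIso V W φ ψ → θ V = θ W
  scissors : ∀ (V : SVar Z) (T : Set (Pt k (Fin V.N))) (hT : Constr T) (hTS : T ⊆ V.S) (hst)
    (hT' : Constr (V.S \ T)) (hst'), θ V = θ (V.restrict T hT hTS hst) +
      θ (V.restrict (V.S \ T) hT' Set.sdiff_subset hst')
  prod : ∀ V W P p q j, IsFib V W P p q j → θ P = θ V * θ W
  one : θ (SVar.base Z) = 1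
  affine : ∀ V P r p q j, IsAff V P r p q j → θ P = θ V * θ (SVar.aff Z r)

variable {A : Type} [CommRing A]

theorem Inv.rel_zero (I : Inv Z A) (x : MvPolynomial (SVar Z) ℤ) (hx : Rel Z x) :
    eval₂Hom (Int.castRingHom A) I.θ x = 0 := by
  cases hx with
  | iso V W φ ψ h => rw [map_sub, eval₂Hom_X', eval₂Hom_X', I.iso V W φ ψ h, sub_self]
  | scissors V T hT hTS hst hT' hst' =>
    rw [map_sub, map_add, eval₂Hom_X', eval₂Hom_X', eval₂Hom_X',
      ← I.scissors V T hT hTS hst hT' hst', sub_self]
  | prod V W P p q j h =>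
    rw [map_sub, map_mul, eval₂Hom_X', eval₂Hom_X', eval₂Hom_X', I.prod V W P p q j h, sub_self]
  | one => rw [map_sub, eval₂Hom_X', map_one, I.one, sub_self]
  | affine V P r p q j h =>
    rw [map_sub, map_mul, eval₂Hom_X', eval₂Hom_X', eval₂Hom_X', I.affine V P r p q j h, sub_self]

/-- the homomorphism given by an invariant -/
noncomputable def Inv.hom (I : Inv Z A) : K0S Z →+* A :=
  Ideal.Quotient.lift _ (eval₂Hom (Int.castRingHom A) I.θ) fun x hx => by
    have h1 : Ideal.span {x | Rel Z x} ≤ RingHom.ker (eval₂Hom (Int.castRingHom A) I.θ) :=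
      Ideal.span_le.2 fun x hx => I.rel_zero x hx
    exact h1 hx

theorem Inv.hom_mk (I : Inv Z A) (V : SVar Z) : I.hom (K0S.mk V) = I.θ V := by
  unfold Inv.hom K0S.mk
  exact (Ideal.Quotient.lift_mk _ _ _).trans (eval₂Hom_X' _ _ _)

end lift

/-! ### The rings over the zero set of one polynomial -/

section one

variable {k : Type} [Field k] {n : ℕ} (F : MvPolynomial (Fin n) k)

/-- the zero set of `F` -/
def zr : Base k n := zer (r := 0) Fin.elim0 F

variable {F}

/-- a variety over the zero set -/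
def toS (V : MuVar F) : SVar (zr F) where
  N := V.N
  S := V.S
  constr := V.constr
  π := V.π
  regular_π := V.regular_π
  π_mem := fun z hz => ⟨fun i => i.elim0, V.π_mem z hz⟩
  d := V.d
  d_pos := V.d_pos
  act := V.act
  regular_act := V.regular_act
  act_mem := V.act_mem
  act_one := V.act_one
  act_mul := V.act_mul
  π_act := V.π_act

/-- a variety over the zero set -/
def toMu (V : SVar (zr F)) : MuVar F where
  N := V.N
  S := V.S
  constr := V.constr
  π := V.π
  regular_π := V.regular_π
  π_mem := fun z hz => (V.π_mem z hz).2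
  d := V.d
  d_pos := V.d_pos
  act := V.act
  regular_act := V.regular_act
  act_mem := V.act_mem
  act_one := V.act_one
  act_mul := V.act_mul
  π_act := V.π_act

theorem iso_toS {V W : MuVar F} {φ ψ} (h : IsMuIso V W φ ψ) : IsIso (toS V) (toS W) φ ψ where
  regular := h.regular
  regular' := h.regular'
  mapsTo := h.mapsTo
  mapsTo' := h.mapsTo'
  left_inv := h.left_inv
  right_inv := h.right_inv
  overBase := h.overBase
  equivariant := h.equivariant

theorem iso_toMu {V W : SVar (zr F)} {φ ψ} (h : IsIso V W φ ψ) :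
    IsMuIso (toMu V) (toMu W) φ ψ where
  regular := h.regular
  regular' := h.regular'
  mapsTo := h.mapsTo
  mapsTo' := h.mapsTo'
  left_inv := h.left_inv
  right_inv := h.right_inv
  overBase := h.overBase
  equivariant := h.equivariant

theorem fib_toS {V W P : MuVar F} {p q j} (h : IsFibreProd V W P p q j) :
    IsFib (toS V) (toS W) (toS P) p q j where
  regular_p := h.regular_p
  regular_q := h.regular_q
  regular_j := h.regular_j
  mapsTo := h.mapsTo
  mapsTo' := h.mapsTo'
  inj := h.inj
  equivariant_p := h.equivariant_p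
  equivariant_q := h.equivariant_q

theorem fib_toMu {V W P : SVar (zr F)} {p q j} (h : IsFib V W P p q j) :
    IsFibreProd (toMu V) (toMu W) (toMu P) p q j where
  regular_p := h.regular_p
  regular_q := h.regular_q
  regular_j := h.regular_j
  mapsTo := h.mapsTo
  mapsTo' := h.mapsTo'
  inj := h.inj
  equivariant_p := h.equivariant_p
  equivariant_q := h.equivariant_q

theorem aff_toS {V P : MuVar F} {r : ℕ} {p q j} (h : IsAffineLift V P r p q j) :
    IsAff (toS V) (toS P) r p q j where
  regular_p := h.regular_p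
  regular_q := h.regular_q
  regular_j := h.regular_j
  mapsTo := h.mapsTo
  mapsTo' := h.mapsTo'
  inj := h.inj
  equivariant_p := h.equivariant_p
  affine := h.affine

theorem aff_toMu {V P : SVar (zr F)} {r : ℕ} {p q j} (h : IsAff V P r p q j) :
    IsAffineLift (toMu V) (toMu P) r p q j where
  regular_p := h.regular_p
  regular_q := h.regular_q
  regular_j := h.regular_j
  mapsTo := h.mapsTo
  mapsTo' := h.mapsTo'
  inj := h.inj
  equivariant_p := h.equivariant_p
  affine := h.affine

theorem toS_base : K0S.mk (toS (MuVar.base F)) = 1 := by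
  rw [← mk_one]
  refine mk_iso (toS (MuVar.base F)) (SVar.base (zr F)) (fun z => z) (fun z => z) ?_
  exact
    { regular := regularOn_poly (fun i => IsPF.coord i) _
      regular' := regularOn_poly (fun i => IsPF.coord i) _
      mapsTo := fun z hz => ⟨fun i => i.elim0, hz⟩
      mapsTo' := fun z hz => hz.2
      left_inv := fun _ _ => rfl
      right_inv := fun _ _ => rfl
      overBase := fun _ _ => rfl
      equivariant := fun _ _ _ _ => rfl }

theorem toS_aff (r : ℕ) : K0S.mk (toS (MuVar.aff F r)) = K0S.mk (SVar.aff (zr F) r) := by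
  refine mk_iso (toS (MuVar.aff F r)) (SVar.aff (zr F) r) (fun z => z) (fun z => z) ?_
  exact
    { regular := regularOn_poly (fun i => IsPF.coord i) _
      regular' := regularOn_poly (fun i => IsPF.coord i) _
      mapsTo := fun z hz => ⟨fun i => i.elim0, hz⟩
      mapsTo' := fun z hz => hz.2
      left_inv := fun _ _ => rfl
      right_inv := fun _ _ => rfl
      overBase := fun _ _ => rfl
      equivariant := fun _ _ _ _ => rfl }

open Pool.Agent.W358.ME in
theorem toMu_base : K0Mu.mk (toMu (SVar.base (zr F))) = 1 := by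
  have h2 : K0Mu.mk (MuVar.base F) = 1 := by
    have h3 := (Ideal.Quotient.mk_eq_mk_iff_sub_mem (I := Ideal.span {x | RelMu F x})
      (X (MuVar.base F)) 1).2 (Ideal.subset_span RelMu.one)
    rw [map_one] at h3
    exact h3
  rw [← h2]
  have h4 : IsMuIso (toMu (SVar.base (zr F))) (MuVar.base F) (fun z => z) (fun z => z) :=
    { regular := regularOn_poly (fun i => IsPF.coord i) _
      regular' := regularOn_poly (fun i => IsPF.coord i) _
      mapsTo := fun z hz => hz.2
      mapsTo' := fun z hz => ⟨fun i => i.elim0, hz⟩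
      left_inv := fun _ _ => rfl
      right_inv := fun _ _ => rfl
      overBase := fun _ _ => rfl
      equivariant := fun _ _ _ _ => rfl }
  exact (Ideal.Quotient.mk_eq_mk_iff_sub_mem _ _).2 (Ideal.subset_span (RelMu.iso _ _ _ _ h4))

theorem toMu_aff (r : ℕ) : K0Mu.mk (toMu (SVar.aff (zr F) r)) = K0Mu.mk (MuVar.aff F r) := by
  have h4 : IsMuIso (toMu (SVar.aff (zr F) r)) (MuVar.aff F r) (fun z => z) (fun z => z) :=
    { regular := regularOn_poly (fun i => IsPF.coord i) _
      regular' := regularOn_poly (fun i => IsPF.coord i) _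
      mapsTo := fun z hz => hz.2
      mapsTo' := fun z hz => ⟨fun i => i.elim0, hz⟩
      left_inv := fun _ _ => rfl
      right_inv := fun _ _ => rfl
      overBase := fun _ _ => rfl
      equivariant := fun _ _ _ _ => rfl }
  exact (Ideal.Quotient.mk_eq_mk_iff_sub_mem _ _).2 (Ideal.subset_span (RelMu.iso _ _ _ _ h4))

/-- the homomorphism `K₀^μ̂(Var_Z) → K₀^μ̂(Var_{F = 0})` for `Z = {F = 0}` -/
noncomputable def invMu (F : MvPolynomial (Fin n) k) : Inv (zr F) (K0Mu F) where
  θ := fun V => K0Mu.mk (toMu V)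
  iso := fun V W φ ψ h => (Ideal.Quotient.mk_eq_mk_iff_sub_mem _ _).2
    (Ideal.subset_span (RelMu.iso _ _ φ ψ (iso_toMu h)))
  scissors := fun V T hT hTS hst hT' hst' => by
    have h1 := (Ideal.Quotient.mk_eq_mk_iff_sub_mem (I := Ideal.span {x | RelMu F x}) _ _).2
      (Ideal.subset_span (RelMu.scissors (toMu V) T hT hTS hst hT' hst'))
    rw [map_add] at h1
    exact h1
  prod := fun V W P p q j h => by
    have h1 := (Ideal.Quotient.mk_eq_mk_iff_sub_mem (I := Ideal.span {x | RelMu F x}) _ _).2
      (Ideal.subset_span (RelMu.prod _ _ _ p q j (fib_toMu h)))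
    rw [map_mul] at h1
    exact h1
  one := toMu_base
  affine := fun V P r p q j h => by
    have h1 := (Ideal.Quotient.mk_eq_mk_iff_sub_mem (I := Ideal.span {x | RelMu F x}) _ _).2
      (Ideal.subset_span (RelMu.affine _ _ r p q j (aff_toMu h)))
    rw [map_mul] at h1
    rw [toMu_aff]
    exact h1

theorem rel_zeroMu (F : MvPolynomial (Fin n) k) (x : MvPolynomial (MuVar F) ℤ) (hx : RelMu F x) :
    eval₂Hom (Int.castRingHom (K0S (zr F))) (fun V => K0S.mk (toS V)) x = 0 := by
  cases hx with
  | iso V W φ ψ h =>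
    rw [map_sub, eval₂Hom_X', eval₂Hom_X', mk_iso _ _ φ ψ (iso_toS h), sub_self]
  | scissors V T hT hTS hst hT' hst' =>
    rw [map_sub, map_add, eval₂Hom_X', eval₂Hom_X', eval₂Hom_X',
      mk_scissors (toS V) T hT hTS hst hT' hst']
    exact sub_self _
  | prod V W P p q j h =>
    rw [map_sub, map_mul, eval₂Hom_X', eval₂Hom_X', eval₂Hom_X', mk_prod _ _ _ p q j (fib_toS h),
      sub_self]
  | one => rw [map_sub, eval₂Hom_X', map_one, toS_base, sub_self]
  | affine V P r p q j h =>
    rw [map_sub, map_mul, eval₂Hom_X', eval₂Hom_X', eval₂Hom_X', mk_aff _ _ r p q j (aff_toS h),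
      toS_aff, sub_self]

/-- the homomorphism `K₀^μ̂(Var_{F = 0}) → K₀^μ̂(Var_Z)` for `Z = {F = 0}` -/
noncomputable def homS (F : MvPolynomial (Fin n) k) : K0Mu F →+* K0S (zr F) :=
  Ideal.Quotient.lift _ (eval₂Hom (Int.castRingHom (K0S (zr F))) fun V => K0S.mk (toS V))
    fun x hx => by
      have h1 : Ideal.span {x | RelMu F x} ≤ RingHom.ker (eval₂Hom
          (Int.castRingHom (K0S (zr F))) fun V => K0S.mk (toS V)) :=
        Ideal.span_le.2 fun x hx => rel_zeroMu F x hx
      exact h1 hx

theorem homS_mk (V : MuVar F) : homS F (K0Mu.mk V) = K0S.mk (toS V) := by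
  unfold homS K0Mu.mk
  exact (Ideal.Quotient.lift_mk _ _ _).trans (eval₂Hom_X' _ _ _)

theorem homS_L : homS F (LMu F) = LS (zr F) := by
  unfold LMu LS
  rw [homS_mk, toS_aff]

theorem invMu_L : (invMu F).hom (LS (zr F)) = LMu F := by
  unfold LMu LS
  rw [Inv.hom_mk]
  exact toMu_aff 1

end one

end Pool.Agent.Q221.EM
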