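import Pool.Agent.Q221.EM.Tools
import Pool.Agent.Q221.Sm.Fib

/-!
# Jets on complete intersections: equivariant classes
-/

set_option autoImplicit false
set_option linter.unusedSectionVars false
set_option linter.unusedVariables false

namespace Pool.Agent.Q221.EM

open MvPolynomial Pool.Agent.W428.MOT Pool.Agent.TH192.MT
open Pool.Agent.Q223.ID Pool.Agent.Q223.TW
open Pool.Agent.Q221.Sm (taylor coeff_ser_mul)

variable {k : Type} [Field k] {n : ℕ} {R : Type} [CommRing R]
  (M : EMeas (0 : MvPolynomial (Fin n) k) R) {σ τ : Type}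

theorem aeval_resc (l : AlgebraicClosure k) (γ : σ → PowerSeries (AlgebraicClosure k))
    (p : MvPolynomial σ k) :
    aeval (fun i => PowerSeries.rescale l (γ i)) p = PowerSeries.rescale l (aeval γ p) := by
  induction p using MvPolynomial.induction_on with
  | C a =>
    rw [algHom_C, algHom_C, PowerSeries.algebraMap_apply]
    ext j
    rw [PowerSeries.coeff_rescale, PowerSeries.coeff_C]
    split_ifs with h
    · rw [h, pow_zero, one_mul]
    · rw [mul_zero]
  | add p q hp hq => rw [map_add, map_add, map_add, hp, hq]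
  | mul_X p i hp => rw [map_mul, map_mul, map_mul, hp, aeval_X, aeval_X]

/-- the weights of the coefficients of a jet -/
def wx (σ : Type) (N : ℕ) (p : σ × Fin (N + 1)) : ℤ := ((p.2 : ℕ) : ℤ)

/-- the coordinates of the base -/
def bx {n : ℕ} (b : Fin n → σ) (N : ℕ) (i : Fin n) : Option (σ × Fin (N + 1)) := some (b i, 0)

theorem ar_wx {N : ℕ} (l : AlgebraicClosure k) (z : Pt k (σ × Fin (N + 1))) (i : σ) :
    ar (dact (wx σ N) l z) i = PowerSeries.rescale l (ar z i) := by
  ext j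
  rw [PowerSeries.coeff_rescale]
  by_cases h : j < N + 1
  · rw [coeff_ar' _ _ _ h, coeff_ar' _ _ _ h]
    show l ^ (((⟨j, h⟩ : Fin (N + 1)) : ℕ) : ℤ) * _ = _
    rw [zpow_natCast]
  · rw [ar, ar, PowerSeries.coeff_mk, PowerSeries.coeff_mk, dif_neg h, dif_neg h, mul_zero]

theorem coeff_wx {N : ℕ} (l : AlgebraicClosure k) (z : Pt k (σ × Fin (N + 1)))
    (p : MvPolynomial σ k) (j : ℕ) :
    PowerSeries.coeff j (aeval (ar (dact (wx σ N) l z)) p) =
      l ^ j * PowerSeries.coeff j (aeval (ar z) p) := by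
  rw [show ar (dact (wx σ N) l z) = fun i => PowerSeries.rescale l (ar z i) from
    funext fun i => ar_wx l z i, aeval_resc, PowerSeries.coeff_rescale]

theorem wx_zero {N : ℕ} (l : AlgebraicClosure k) (z : Pt k (σ × Fin (N + 1))) :
    (fun i => dact (wx σ N) l z (i, 0)) = fun i => z (i, 0) := by
  funext i
  simp [dact, wx]

theorem constCoeff_ar {N : ℕ} (z : Pt k (σ × Fin (N + 1))) (p : MvPolynomial σ k) :
    PowerSeries.coeff 0 (aeval (ar z) p) = aeval (fun i => z (i, 0)) p := by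
  rw [PowerSeries.coeff_zero_eq_constantCoeff_apply]
  induction p using MvPolynomial.induction_on with
  | C a => rw [algHom_C, algHom_C, PowerSeries.algebraMap_apply, PowerSeries.constantCoeff_C]
  | add p q hp hq => rw [map_add, map_add, map_add, hp, hq]
  | mul_X p i hp =>
    rw [map_mul, map_mul, map_mul, hp, aeval_X, aeval_X,
      ← PowerSeries.coeff_zero_eq_constantCoeff_apply, coeff_ar' _ _ _ (Nat.succ_pos N)]
    rfl

/-! ### The sets of jets -/

section sets

variable [Finite τ] (g : τ → MvPolynomial σ k) (f : MvPolynomial σ k) (V : Set (Pt k σ))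

/-- the jets of level `N` which begin in `V`, with `g_q = 0` modulo `t ^ i` and `f = ∑ c_l t ^ l` modulo
`t ^ j` -/
def SV (c : ℕ → ℕ) (i j N : ℕ) : Set (Pt k (σ × Fin (N + 1))) :=
  {z | (fun p => z (p, 0)) ∈ V ∧
    (∀ q, ∀ l < i, PowerSeries.coeff l (aeval (ar z) (g q)) = 0) ∧
    ∀ l < j, PowerSeries.coeff l (aeval (ar z) f) = (c l : AlgebraicClosure k)}

variable {V}

theorem constr_SV (hV : Constr V) (c : ℕ → ℕ) (i j N : ℕ) : Constr (SV g f V c i j N) := by
  refine Constr.and (hV.preimage (fun z : Pt k (σ × Fin (N + 1)) => fun p => z (p, 0))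
    fun _ => IsPF.coord _) (Constr.and (Constr.all fun q => Constr.allLt _ fun l _ =>
      Constr.eqz (isPF_coeff (g q) l)) (Constr.allLt _ fun l _ =>
        Constr.eq (isPF_coeff f l) (IsPF.natCast _)))

theorem stable_SV {c : ℕ → ℕ} {i j N : ℕ} {l : AlgebraicClosure k}
    (hl : ∀ a, l ^ a * (c a : AlgebraicClosure k) = c a) {z : Pt k (σ × Fin (N + 1))}
    (hz : z ∈ SV g f V c i j N) : dact (wx σ N) l z ∈ SV g f V c i j N := by
  refine ⟨?_, fun q a ha => ?_, fun a ha => ?_⟩
  · rw [wx_zero]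
    exact hz.1
  · rw [coeff_wx, hz.2.1 q a ha, mul_zero]
  · rw [coeff_wx, hz.2.2 a ha, hl]

theorem valid_SV (hV : Constr V) {d : ℕ} (hd : 0 < d) (b : Fin n → σ) {c : ℕ → ℕ}
    (hc : ∀ l : AlgebraicClosure k, l ^ d = 1 → ∀ a, l ^ a * (c a : AlgebraicClosure k) = c a)
    (i j N : ℕ) : Valid (0 : MvPolynomial (Fin n) k) (SV g f V c i j N) (wx σ N) d (bx b N) where
  constr := constr_SV g f hV c i j N
  pos := hd
  stable := fun l hl z hz => stable_SV g f (hc l hl) hz
  base := fun _ _ => map_zero _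
  inv := fun i j h => by
    rw [bx, Option.some.injEq] at h
    rw [← h]
    rfl

theorem hc0 (d : ℕ) : ∀ l : AlgebraicClosure k, l ^ d = 1 → ∀ a,
    l ^ a * (((0 : ℕ → ℕ) a : ℕ) : AlgebraicClosure k) = ((0 : ℕ → ℕ) a : ℕ) := by
  intro l _ a
  simp

/-- the coefficients of `t ^ N` -/
def del (N : ℕ) (a : ℕ) : ℕ := if a = N then 1 else 0

theorem hcd (N : ℕ) : ∀ l : AlgebraicClosure k, l ^ N = 1 → ∀ a,
    l ^ a * ((del N a : ℕ) : AlgebraicClosure k) = (del N a : ℕ) := by
  intro l hl a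
  rw [del]
  split_ifs with h
  · rw [h, hl, one_mul]
  · rw [Nat.cast_zero, mul_zero]

/-- the classes do not depend on the action -/
theorem valid_zero0 {ι : Type} {S : Set (Pt k ι)} (hS : Constr S) (β : Fin n → Option ι) :
    Valid (0 : MvPolynomial (Fin n) k) S 0 1 β where
  constr := hS
  pos := one_pos
  stable := fun l _ z hz => by
    have h1 : dact (0 : ι → ℤ) l z = z := by
      funext i
      simp [dact]
    rw [h1]
    exact hz
  base := fun _ _ => map_zero _
  inv := fun _ _ _ => rfl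

variable [Fintype σ]

/-- one more coefficient, freely -/
theorem echi_SV_succ (hV : Constr V) {d : ℕ} (hd : 0 < d) (b : Fin n → σ) {c : ℕ → ℕ}
    (hc : ∀ l : AlgebraicClosure k, l ^ d = 1 → ∀ a, l ^ a * (c a : AlgebraicClosure k) = c a)
    (i j N : ℕ) (hi : i ≤ N + 1) (hj : j ≤ N + 1) :
    M.χ _ (SV g f V c i j (N + 1)) (wx σ (N + 1)) d (bx b (N + 1)) =
      M.χ _ (SV g f V c i j N) (wx σ N) d (bx b N) * M.L ^ Fintype.card σ := by
  refine (echi_split M (Equiv.ofBijective _ (lastE_bij σ N)) (valid_SV g f hV hd b hc i j N)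
    (fun p => ?_) (fun p => ?_) fun z => ?_).2
  · obtain ⟨p, a⟩ := p
    rfl
  · rfl
  · have h0 : (fun p => z (p, 0)) = fun p : σ =>
        (fun i => z ((Equiv.ofBijective _ (lastE_bij σ N)) (Sum.inl i))) (p, 0) := rfl
    have h1 : ∀ (p : MvPolynomial σ k), ∀ a ≤ N, PowerSeries.coeff a (aeval (ar z) p) =
        PowerSeries.coeff a (aeval (ar fun i => z ((Equiv.ofBijective _ (lastE_bij σ N))
          (Sum.inl i))) p) := by
      intro p
      refine coeff_congr p N _ _ fun i a ha => ?_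
      rw [coeff_ar' _ _ _ (by omega), coeff_ar' _ _ _ (by omega)]
      rfl
    constructor
    · intro h
      refine ⟨by rw [← h0]; exact h.1, fun q l hl => ?_, fun l hl => ?_⟩
      · rw [← h1 (g q) l (by omega)]
        exact h.2.1 q l hl
      · rw [← h1 f l (by omega)]
        exact h.2.2 l hl
    · intro h
      refine ⟨by rw [h0]; exact h.1, fun q l hl => ?_, fun l hl => ?_⟩
      · rw [h1 (g q) l (by omega)]
        exact h.2.1 q l hl
      · rw [h1 f l (by omega)]
        exact h.2.2 l hl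

theorem echi_SV_add (hV : Constr V) {d : ℕ} (hd : 0 < d) (b : Fin n → σ) {c : ℕ → ℕ}
    (hc : ∀ l : AlgebraicClosure k, l ^ d = 1 → ∀ a, l ^ a * (c a : AlgebraicClosure k) = c a)
    (i j N l : ℕ) (hi : i ≤ N + 1) (hj : j ≤ N + 1) :
    M.χ _ (SV g f V c i j (N + l)) (wx σ (N + l)) d (bx b (N + l)) =
      M.χ _ (SV g f V c i j N) (wx σ N) d (bx b N) * M.L ^ (Fintype.card σ * l) := by
  induction l with
  | zero => rw [mul_zero, pow_zero, mul_one, add_zero]
  | succ l ih =>
    have h := echi_SV_succ M g f hV hd b hc i j (N + l) (by omega) (by omega)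
    rw [ih, mul_assoc, ← pow_add] at h
    rw [Nat.mul_succ]
    exact h

end sets

/-! ### Tubes -/

section tube

variable [Fintype σ] [Fintype τ] (g : τ → MvPolynomial σ k) (f : MvPolynomial σ k)
  {V : Set (Pt k σ)} (B : σ → τ → MvPolynomial σ k)

/-- `B` splits the normal bundle along `V`, and `df` is zero on its image -/
def IsSplit [DecidableEq τ] (V : Set (Pt k σ)) : Prop :=
  ∀ x ∈ V, (∀ q l, ∑ i, aeval x (pderiv i (g q)) * aeval x (B i l) =
    if q = l then (1 : AlgebraicClosure k) else 0) ∧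
    ∀ l, ∑ i, aeval x (pderiv i f) * aeval x (B i l) = (0 : AlgebraicClosure k)

/-- the displacement in the direction of the normal vector `c` -/
noncomputable def dis (x : Pt k σ) (c : τ → AlgebraicClosure k) (i : σ) : AlgebraicClosure k :=
  ∑ l, aeval x (B i l) * c l

/-- the jet moved by `t ^ N v` -/
noncomputable def mv {N : ℕ} (z : Pt k (σ × Fin (N + 1))) (v : σ → AlgebraicClosure k) :
    Pt k (σ × Fin (N + 1)) := fun p => z p + if (p.2 : ℕ) = N then v p.1 else 0

theorem ar_mv {m : ℕ} (z : Pt k (σ × Fin (m + 1 + 1))) (v : σ → AlgebraicClosure k) :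
    ar (mv z v) = fun i => ar z i + PowerSeries.X ^ (m + 1) * PowerSeries.C (v i) := by
  funext i
  ext j
  rw [map_add, PowerSeries.coeff_X_pow_mul', PowerSeries.coeff_C]
  by_cases h : j < m + 1 + 1
  · rw [coeff_ar' _ _ _ h, coeff_ar' _ _ _ h]
    show z (i, ⟨j, h⟩) + (if j = m + 1 then v i else 0) = _
    by_cases h1 : j = m + 1
    · subst h1
      rw [if_pos rfl, if_pos le_rfl, Nat.sub_self, if_pos rfl]
    · rw [if_neg h1, if_neg (by omega)]
  · rw [ar, ar, PowerSeries.coeff_mk, PowerSeries.coeff_mk, dif_neg h, dif_neg h,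
      if_pos (by omega), if_neg (by omega), add_zero]

theorem mv_zero {m : ℕ} (z : Pt k (σ × Fin (m + 1 + 1))) (v : σ → AlgebraicClosure k) :
    (fun i => mv z v (i, 0)) = fun i => z (i, 0) := by
  funext i
  show z (i, 0) + (if ((0 : Fin (m + 1 + 1)) : ℕ) = m + 1 then v i else 0) = _
  rw [if_neg (by simp), add_zero]

theorem mv_mv {N : ℕ} (z : Pt k (σ × Fin (N + 1))) (v w : σ → AlgebraicClosure k)
    (h : ∀ i, v i + w i = 0) : mv (mv z v) w = z := by
  funext p
  show z p + (if (p.2 : ℕ) = N then v p.1 else 0) + (if (p.2 : ℕ) = N then w p.1 else 0) = _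
  split_ifs
  · rw [add_assoc, h, add_zero]
  · rw [add_zero, add_zero]

theorem coeff_mv_low {m : ℕ} (z : Pt k (σ × Fin (m + 1 + 1))) (v : σ → AlgebraicClosure k)
    (p : MvPolynomial σ k) (j : ℕ) (hj : j < m + 1) :
    PowerSeries.coeff j (aeval (ar (mv z v)) p) = PowerSeries.coeff j (aeval (ar z) p) := by
  obtain ⟨E, h1, -⟩ := taylor (ar z) v m p
  rw [ar_mv, h1, map_add, PowerSeries.coeff_X_pow_mul', if_neg (by omega), add_zero]

theorem coeff_mv_top {m : ℕ} (z : Pt k (σ × Fin (m + 1 + 1))) (v : σ → AlgebraicClosure k)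
    (p : MvPolynomial σ k) :
    PowerSeries.coeff (m + 1) (aeval (ar (mv z v)) p) =
      PowerSeries.coeff (m + 1) (aeval (ar z) p) +
        ∑ i, aeval (fun i => z (i, 0)) (pderiv i p) * v i := by
  obtain ⟨E, h1, h2⟩ := taylor (ar z) v m p
  rw [ar_mv, h1, map_add, PowerSeries.coeff_X_pow_mul', if_pos le_rfl, Nat.sub_self,
    PowerSeries.coeff_zero_eq_constantCoeff_apply, h2]
  congr 1
  refine Finset.sum_congr rfl fun i _ => ?_
  rw [mul_comm]
  congr 3

theorem sum_dis (x : Pt k σ) (c : τ → AlgebraicClosure k) (p : MvPolynomial σ k) :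
    ∑ i, aeval x (pderiv i p) * dis B x c i =
      ∑ l, (∑ i, aeval x (pderiv i p) * aeval x (B i l)) * c l := by
  simp only [dis, Finset.mul_sum, Finset.sum_mul]
  rw [Finset.sum_comm]
  exact Finset.sum_congr rfl fun l _ => Finset.sum_congr rfl fun i _ => by ring

/-- the normal coordinates of a jet -/
noncomputable def cf {m : ℕ} (z : Pt k (σ × Fin (m + 1 + 1))) (l : τ) : AlgebraicClosure k :=
  PowerSeries.coeff (m + 1) (aeval (ar z) (g l))

/-- the projection of the tube -/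
noncomputable def dn {m : ℕ} (z : Pt k (σ × Fin (m + 1 + 1))) : Pt k (σ × Fin (m + 1 + 1)) :=
  mv z fun i => - dis B (fun i => z (i, 0)) (cf g z) i

/-- the points of the tube -/
noncomputable def up {m : ℕ} (w : Pt k (σ × Fin (m + 1 + 1))) (c : τ → AlgebraicClosure k) :
    Pt k (σ × Fin (m + 1 + 1)) := mv w (dis B (fun i => w (i, 0)) c)

section

variable [DecidableEq τ] {g f B} (hB : IsSplit g f B V) {c : ℕ → ℕ} {m : ℕ}

include hB in
theorem dn_mem {z : Pt k (σ × Fin (m + 1 + 1))} (hz : z ∈ SV g f V c (m + 1) (m + 2) (m + 1)) :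
    dn g B z ∈ SV g f V c (m + 2) (m + 2) (m + 1) := by
  obtain ⟨h1, h2, h3⟩ := hz
  obtain ⟨h4, h5⟩ := hB _ h1
  have h6 : ∀ p : MvPolynomial σ k, ∑ i, aeval (fun i => z (i, 0)) (pderiv i p) *
      (-dis B (fun i => z (i, 0)) (cf g z) i) =
      - ∑ l, (∑ i, aeval (fun i => z (i, 0)) (pderiv i p) *
        aeval (fun i => z (i, 0)) (B i l)) * cf g z l := by
    intro p
    rw [← sum_dis, ← Finset.sum_neg_distrib]
    exact Finset.sum_congr rfl fun i _ => by rw [mul_neg]
  refine ⟨?_, fun q a ha => ?_, fun a ha => ?_⟩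
  · rw [dn, mv_zero]
    exact h1
  · by_cases h : a < m + 1
    · rw [dn, coeff_mv_low _ _ _ _ h]
      exact h2 q a h
    · obtain rfl : a = m + 1 := by omega
      have h7 : ∑ l, (∑ i, aeval (fun i => z (i, 0)) (pderiv i (g q)) *
          aeval (fun i => z (i, 0)) (B i l)) * cf g z l = cf g z q := by
        rw [Finset.sum_congr rfl fun l _ => by rw [h4 q l, ite_mul, one_mul, zero_mul],
          Finset.sum_ite_eq, if_pos (Finset.mem_univ q)]
      rw [dn, coeff_mv_top, h6, h7]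
      exact add_neg_cancel _
  · by_cases h : a < m + 1
    · rw [dn, coeff_mv_low _ _ _ _ h]
      exact h3 a ha
    · obtain rfl : a = m + 1 := by omega
      have h7 : ∑ l, (∑ i, aeval (fun i => z (i, 0)) (pderiv i f) *
          aeval (fun i => z (i, 0)) (B i l)) * cf g z l = 0 :=
        Finset.sum_eq_zero fun l _ => by rw [h5 l, zero_mul]
      rw [dn, coeff_mv_top, h6, h7, neg_zero, add_zero]
      exact h3 _ ha

include hB in
theorem up_mem {w : Pt k (σ × Fin (m + 1 + 1))} (hw : w ∈ SV g f V c (m + 2) (m + 2) (m + 1))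
    (v : τ → AlgebraicClosure k) : up B w v ∈ SV g f V c (m + 1) (m + 2) (m + 1) := by
  obtain ⟨h1, h2, h3⟩ := hw
  obtain ⟨h4, h5⟩ := hB _ h1
  refine ⟨?_, fun q a ha => ?_, fun a ha => ?_⟩
  · rw [up, mv_zero]
    exact h1
  · rw [up, coeff_mv_low _ _ _ _ ha]
    exact h2 q a (by omega)
  · by_cases h : a < m + 1
    · rw [up, coeff_mv_low _ _ _ _ h]
      exact h3 a ha
    · obtain rfl : a = m + 1 := by omega
      rw [up, coeff_mv_top, sum_dis, Finset.sum_eq_zero fun l _ => by rw [h5 l, zero_mul],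
        add_zero]
      exact h3 _ ha

include hB in
theorem cf_up {w : Pt k (σ × Fin (m + 1 + 1))} (hw : w ∈ SV g f V c (m + 2) (m + 2) (m + 1))
    (v : τ → AlgebraicClosure k) : cf g (up B w v) = v := by
  obtain ⟨h1, h2, h3⟩ := hw
  obtain ⟨h4, h5⟩ := hB _ h1
  funext q
  have h8 : PowerSeries.coeff (m + 1) (aeval (ar w) (g q)) = 0 := h2 q (m + 1) (by omega)
  rw [cf, up, coeff_mv_top, sum_dis, Finset.sum_congr rfl fun l _ => by
    rw [h4 q l, ite_mul, one_mul, zero_mul], Finset.sum_ite_eq, if_pos (Finset.mem_univ q), h8,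
    zero_add]

theorem up_dn (z : Pt k (σ × Fin (m + 1 + 1))) : up B (dn g B z) (cf g z) = z := by
  rw [up, dn, mv_zero]
  exact mv_mv _ _ _ fun i => neg_add_cancel _

include hB in
theorem dn_up {w : Pt k (σ × Fin (m + 1 + 1))} (hw : w ∈ SV g f V c (m + 2) (m + 2) (m + 1))
    (v : τ → AlgebraicClosure k) : dn g B (up B w v) = w := by
  rw [dn, cf_up hB hw, up, mv_zero]
  exact mv_mv _ _ _ fun i => add_neg_cancel _

end

theorem cf_dact {m : ℕ} (a : AlgebraicClosure k) (z : Pt k (σ × Fin (m + 1 + 1))) (l : τ) :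
    cf g (dact (wx σ (m + 1)) a z) l = a ^ (m + 1) * cf g z l := coeff_wx _ _ _ _

theorem dn_dact {m : ℕ} (a : AlgebraicClosure k) (z : Pt k (σ × Fin (m + 1 + 1))) :
    dn g B (dact (wx σ (m + 1)) a z) = dact (wx σ (m + 1)) a (dn g B z) := by
  funext p
  show dact (wx σ (m + 1)) a z p + (if (p.2 : ℕ) = m + 1 then
      -dis B (fun i => dact (wx σ (m + 1)) a z (i, 0)) (cf g (dact (wx σ (m + 1)) a z)) p.1
      else 0) =
    a ^ (wx σ (m + 1) p) * (z p + if (p.2 : ℕ) = m + 1 then -dis B (fun i => z (i, 0))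
      (cf g z) p.1 else 0)
  rw [wx_zero, mul_add]
  congr 1
  by_cases h : (p.2 : ℕ) = m + 1
  · rw [if_pos h, if_pos h, wx, h, zpow_natCast, dis, dis, mul_neg, Finset.mul_sum]
    congr 1
    refine Finset.sum_congr rfl fun l _ => ?_
    rw [cf_dact]
    ring
  · rw [if_neg h, if_neg h, mul_zero]

theorem isPF_dis {ι : Type} (i : σ) (φ : Pt k ι → Pt k σ) (hφ : ∀ j, IsPF fun z => φ z j)
    (c : Pt k ι → τ → AlgebraicClosure k) (hc : ∀ l, IsPF fun z => c z l) :
    IsPF fun z => dis B (φ z) (c z) i :=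
  IsPF.sum _ _ fun l _ => ((IsPF.poly (B i l)).comp φ hφ).mul (hc l)

theorem isPF_dn {m : ℕ} (p : σ × Fin (m + 1 + 1)) :
    IsPF fun z : Pt k (σ × Fin (m + 1 + 1)) => dn g B z p := by
  show IsPF fun z : Pt k (σ × Fin (m + 1 + 1)) => z p + if (p.2 : ℕ) = m + 1 then _ else 0
  refine (IsPF.coord _).add ?_
  split_ifs
  · exact (isPF_dis B p.1 (fun z : Pt k (σ × Fin (m + 1 + 1)) => fun i => z (i, 0))
      (fun _ => IsPF.coord _) _ fun l => isPF_coeff (g l) (m + 1)).neg
  · exact IsPF.zero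

theorem isPF_up {m : ℕ} (p : σ × Fin (m + 1 + 1)) :
    IsPF fun w : Pt k ((σ × Fin (m + 1 + 1)) ⊕ τ) =>
      up B (fun p => w (Sum.inl p)) (fun l => w (Sum.inr l)) p := by
  show IsPF fun w : Pt k ((σ × Fin (m + 1 + 1)) ⊕ τ) => w (Sum.inl p) +
    if (p.2 : ℕ) = m + 1 then _ else 0
  refine (IsPF.coord _).add ?_
  split_ifs
  · exact isPF_dis B p.1 (fun w : Pt k ((σ × Fin (m + 1 + 1)) ⊕ τ) => fun i => w (Sum.inl (i, 0)))
      (fun _ => IsPF.coord _) _ fun l => IsPF.coord _
  · exact IsPF.zero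

/-- **The tube is a product.** -/
theorem echi_tube [DecidableEq τ] (hB : IsSplit g f B V) (hV : Constr V) {d : ℕ} (hd : 0 < d)
    (b : Fin n → σ) {c : ℕ → ℕ}
    (hc : ∀ l : AlgebraicClosure k, l ^ d = 1 → ∀ a, l ^ a * (c a : AlgebraicClosure k) = c a)
    (m : ℕ) :
    M.χ _ (SV g f V c (m + 1) (m + 2) (m + 1)) (wx σ (m + 1)) d (bx b (m + 1)) =
      M.χ _ (SV g f V c (m + 2) (m + 2) (m + 1)) (wx σ (m + 1)) d (bx b (m + 1)) *
        M.L ^ Fintype.card τ := by
  have hv := valid_SV g f hV hd b hc (m + 2) (m + 2) (m + 1)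
  rw [← M.aff (κ := τ) _ _ (fun _ => ((m + 1 : ℕ) : ℤ)) d _ hv]
  have hv2 := Pool.Agent.W358.ME.EK0.valid_prod (κ := τ) hv fun _ => ((m + 1 : ℕ) : ℤ)
  refine M.iso _ _ _ _ d d _ _ (valid_SV g f hV hd b hc (m + 1) (m + 2) (m + 1)) hv2
    (fun z => Sum.elim (dn g B z) (cf g z))
    (fun w => up B (fun p => w (Sum.inl p)) fun l => w (Sum.inr l))
    (regularOn_poly (fun i => ?_) _) (regularOn_poly (fun p => isPF_up B p) _) ?_ ?_ ?_ ?_ ?_ ?_
  · rcases i with p | l
    · exact isPF_dn g B p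
    · exact isPF_coeff (g l) (m + 1)
  · intro z hz
    exact dn_mem hB hz
  · intro w hw
    exact up_mem hB hw _
  · intro z _
    exact up_dn z
  · intro w hw
    have hw' : (fun i => w (Sum.inl i)) ∈ SV g f V c (m + 2) (m + 2) (m + 1) := hw
    have h1 := dn_up hB hw' fun l => w (Sum.inr l)
    have h2 := cf_up hB hw' fun l => w (Sum.inr l)
    funext i
    rcases i with p | l
    · exact congrFun h1 p
    · exact congrFun h2 l
  · intro z _
    funext i
    exact congrFun (mv_zero z fun i => - dis B (fun i => z (i, 0)) (cf g z) i) (b i)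
  · intro l _ z _
    funext i
    rcases i with p | q
    · exact congrFun (dn_dact g B (l ^ d) z) p
    · show cf g (dact (wx σ (m + 1)) (l ^ d) z) q = (l ^ d) ^ ((m + 1 : ℕ) : ℤ) * cf g z q
      rw [cf_dact, zpow_natCast]

end tube

end Pool.Agent.Q221.EM
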