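import Pool.Agent.Q221.EM.Cmp
import Pool.Agent.Q221.EM.Core4

/-!
# The zeta function of `f + ∑ y_q g_q + ∑ y_m z_m` in the ring over `X_s`
-/

set_option autoImplicit false
set_option linter.unusedSectionVars false
set_option linter.unusedVariables false

namespace Pool.Agent.Q221.EM

open MvPolynomial Pool.Agent.W428.MOT Pool.Agent.Q42.CU Pool.Agent.Q223.MM

section gen

variable {R : Type} [CommRing R] (u : Rˣ)

theorem val_pow (a : ℕ) : (u : R) ^ a = ((u ^ (a : ℤ) : Rˣ) : R) := by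
  rw [zpow_natCast, Units.val_pow_eq_pow_val]

theorem inv_pow' (a : ℕ) : ((u⁻¹ : Rˣ) : R) ^ a = ((u ^ (-(a : ℤ)) : Rˣ) : R) := by
  rw [zpow_neg, zpow_natCast, ← inv_pow, Units.val_pow_eq_pow_val]

theorem val_mul (a b : ℤ) : ((u ^ a : Rˣ) : R) * ((u ^ b : Rˣ) : R) = ((u ^ (a + b) : Rˣ) : R) := by
  rw [zpow_add, Units.val_mul]

theorem coeff_genR (n : ℕ) (c : (N : ℕ) → 0 < N → R) (N : ℕ) (h : 0 < N) :
    PowerSeries.coeff N (genR n u c) = c N h * ((u ^ (-((n * N : ℕ) : ℤ)) : Rˣ) : R) := by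
  rw [genR, PowerSeries.coeff_mk, dif_pos h]

theorem coeff_genR_zero (n : ℕ) (c : (N : ℕ) → 0 < N → R) :
    PowerSeries.coeff 0 (genR n u c) = 0 := by
  rw [genR, PowerSeries.coeff_mk, dif_neg (lt_irrefl 0)]

/-- **The members of the sequence.** -/
theorem gen_mem (d ρ : ℕ) (c : (N : ℕ) → 0 < N → R) (y : ℕ → R) :
    genR (d + 2 * ρ) u (fun N h => c N h * (u : R) ^ ρ * (u : R) ^ (ρ * N) +
      ∑ m ∈ Finset.Ico 1 N, ((u : R) ^ ρ - 1) * y m * (u : R) ^ ((d + ρ) * (N - m)) *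
        (u : R) ^ (ρ * N - (N - m))) =
      mem u (genR d u c) (genR d u fun m _ => y m) ρ := by
  ext N
  rcases Nat.eq_zero_or_pos N with rfl | hN
  · rw [coeff_genR_zero, mem, map_add, PowerSeries.coeff_C_mul, PowerSeries.coeff_C_mul,
      PowerSeries.coeff_rescale, coeff_genR_zero, PowerSeries.coeff_mul,
      Finset.Nat.antidiagonal_zero, Finset.sum_singleton,
      PowerSeries.coeff_rescale, coeff_genR_zero]
    ring
  · have h5 : PowerSeries.coeff N (PowerSeries.rescale (((u⁻¹ : Rˣ) : R) ^ ρ)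
        (genR d u fun m _ => y m) * tl ((u⁻¹ : Rˣ) : R)) =
        ∑ m ∈ Finset.Ico 1 N, (((u⁻¹ : Rˣ) : R) ^ ρ) ^ m *
          (y m * ((u ^ (-((d * m : ℕ) : ℤ)) : Rˣ) : R)) * ((u⁻¹ : Rˣ) : R) ^ (N - m) := by
      rw [PowerSeries.coeff_mul, Finset.Nat.sum_antidiagonal_eq_sum_range_succ
          (fun i j => PowerSeries.coeff i (PowerSeries.rescale (((u⁻¹ : Rˣ) : R) ^ ρ)
            (genR d u fun m _ => y m)) * PowerSeries.coeff j (tl ((u⁻¹ : Rˣ) : R)))]
      symm
      have h6 : ∀ m ∈ Finset.Ico 1 N, (((u⁻¹ : Rˣ) : R) ^ ρ) ^ m *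
          (y m * ((u ^ (-((d * m : ℕ) : ℤ)) : Rˣ) : R)) * ((u⁻¹ : Rˣ) : R) ^ (N - m) =
          PowerSeries.coeff m (PowerSeries.rescale (((u⁻¹ : Rˣ) : R) ^ ρ)
            (genR d u fun m _ => y m)) * PowerSeries.coeff (N - m) (tl ((u⁻¹ : Rˣ) : R)) := by
        intro m hm
        obtain ⟨hm1, hm2⟩ := Finset.mem_Ico.1 hm
        rw [PowerSeries.coeff_rescale, coeff_genR u _ _ m (by omega), tl,
          PowerSeries.coeff_mk, if_neg (by omega)]
      rw [Finset.sum_congr rfl h6]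
      refine Finset.sum_subset (fun m hm => ?_) fun m hm hm' => ?_
      · obtain ⟨hm1, hm2⟩ := Finset.mem_Ico.1 hm
        exact Finset.mem_range.2 (by omega)
      · rw [Finset.mem_range] at hm
        rw [Finset.mem_Ico] at hm'
        rcases Nat.eq_zero_or_pos m with rfl | hm0
        · rw [PowerSeries.coeff_rescale, coeff_genR_zero, mul_zero, zero_mul]
        · obtain rfl : m = N := by omega
          rw [Nat.sub_self, tl, PowerSeries.coeff_mk, if_pos rfl, mul_zero]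
    rw [coeff_genR u _ _ N hN, mem, map_add, PowerSeries.coeff_C_mul, PowerSeries.coeff_C_mul,
      PowerSeries.coeff_rescale, coeff_genR u _ _ N hN, add_mul, h5]
    congr 1
    · have h1 : (u : R) ^ ρ * ((u : R) ^ (ρ * N) *
          ((u ^ (-(((d + 2 * ρ) * N : ℕ) : ℤ)) : Rˣ) : R)) =
          (u : R) ^ ρ * ((((u⁻¹ : Rˣ) : R) ^ ρ) ^ N *
            ((u ^ (-((d * N : ℕ) : ℤ)) : Rˣ) : R)) := by
        rw [← pow_mul, inv_pow', val_pow u (ρ * N), val_mul, val_mul]
        congr 3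
        push_cast
        ring
      linear_combination c N hN * h1
    · rcases Nat.eq_zero_or_pos ρ with rfl | hρ
      · simp
      · rw [Finset.sum_mul, Finset.mul_sum]
        refine Finset.sum_congr rfl fun m hm => ?_
        obtain ⟨hm1, hm2⟩ := Finset.mem_Ico.1 hm
        have h2 : (u : R) ^ ((d + ρ) * (N - m)) * (u : R) ^ (ρ * N - (N - m)) *
            ((u ^ (-(((d + 2 * ρ) * N : ℕ) : ℤ)) : Rˣ) : R) =
            (((u⁻¹ : Rˣ) : R) ^ ρ) ^ m * ((u ^ (-((d * m : ℕ) : ℤ)) : Rˣ) : R) *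
              ((u⁻¹ : Rˣ) : R) ^ (N - m) := by
          rw [← pow_mul, inv_pow', inv_pow', val_pow, val_pow, val_mul, val_mul, val_mul, val_mul]
          congr 2
          have h3 : N - m ≤ ρ * N := (Nat.sub_le N m).trans (Nat.le_mul_of_pos_left N hρ)
          push_cast [Nat.cast_sub h3, Nat.cast_sub hm2.le]
          ring
        linear_combination ((u : R) ^ ρ - 1) * y m * h2

theorem map_genR {R' : Type} [CommRing R'] (φ : R →+* R') {u' : R'ˣ}
    (hu : Units.map (φ : R →* R') u = u') (n : ℕ) (c : (N : ℕ) → 0 < N → R) :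
    PowerSeries.map φ (genR n u c) = genR n u' fun N h => φ (c N h) := by
  ext N
  rw [PowerSeries.coeff_map]
  rcases Nat.eq_zero_or_pos N with rfl | hN
  · rw [coeff_genR_zero, coeff_genR_zero, map_zero]
  · rw [coeff_genR u n c N hN, coeff_genR u' n _ N hN, map_mul]
    congr 1
    rw [← hu, ← map_zpow]
    rfl

end gen

/-! ### The localized homomorphism -/

section loc

variable {k : Type} [Field k] {n r m : ℕ} {f : MvPolynomial (Fin n) k}
  {g : Fin r → MvPolynomial (Fin n) k} {P : MvPolynomial (Fin m) k}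

/-- the homomorphism `𝓜^μ̂_{P = 0} → 𝓜^μ̂_{X_s}` -/
noncomputable def HM (s : Sec (zr P) (zer g f)) : MKMu P →+* MS (zer g f) :=
  IsLocalization.Away.lift (LMu P)
    (g := (algebraMap (K0S (zer g f)) (MS (zer g f))).comp (HK s)) (by
      rw [RingHom.comp_apply, HK_L]
      exact IsLocalization.Away.algebraMap_isUnit (S := MS (zer g f)) (LS (zer g f)))

theorem HM_alg (s : Sec (zr P) (zer g f)) (x : K0Mu P) :
    HM s (algebraMap (K0Mu P) (MKMu P) x) =
      algebraMap (K0S (zer g f)) (MS (zer g f)) (HK s x) := by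
  unfold HM
  rw [IsLocalization.Away.lift_eq]
  rfl

theorem HM_Lu (s : Sec (zr P) (zer g f)) :
    Units.map (HM s : MKMu P →* MS (zer g f)) (LuMu P) = LuS (zer g f) := by
  apply Units.ext
  change HM s (((LuMu P : (MKMu P)ˣ)) : MKMu P) = ((LuS (zer g f) : (MS (zer g f))ˣ) :
    MS (zer g f))
  have h1 : (((LuMu P : (MKMu P)ˣ)) : MKMu P) = algebraMap (K0Mu P) (MKMu P) (LMu P) := rfl
  have h2 : ((LuS (zer g f) : (MS (zer g f))ˣ) : MS (zer g f)) =
    algebraMap (K0S (zer g f)) (MS (zer g f)) (LS (zer g f)) := rfl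
  rw [h1, h2, HM_alg, HK_L]

/-- the series of the classes of the jets on which `f = 0` -/
noncomputable def YX (M : EMeas (0 : MvPolynomial (Fin n) k) (K0S (zer g f))) :
    PowerSeries (MS (zer g f)) :=
  genR (n - r) (LuS (zer g f)) fun m _ =>
    algebraMap (K0S (zer g f)) (MS (zer g f)) (Y0 M f g m)

/-- **The image of the zeta function.** -/
theorem HM_zeta {M : EMeas (0 : MvPolynomial (Fin n) k) (K0S (zer g f))}
    (hM : IsMeas (zer g f) M) {B : Fin n → Fin r → MvPolynomial (Fin n) k}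
    (hB' : ∀ q l, ∑ i, pderiv i (g q) * B i l - (if q = l then 1 else 0) ∈
      Ideal.span (Set.range g)) (hr : r ≤ n) {κ : ℕ} (hm : m = n + r + (κ + κ))
    (ψ : MvPolynomial (Fin (n + r + (κ + κ))) k ≃ₐ[k] MvPolynomial (Fin m) k)
    (hψ : ψ (stb (FK f g) κ) = P) :
    PowerSeries.map (HM (datK B ψ hψ).sec) (zetaMu P) =
      EM.mem (LuS (zer g f)) (zetaX g f) (YX M) (r + κ) := by
  have h1 : zetaMu P = genR m (LuMu P) fun N h =>
      algebraMap (K0Mu P) (MKMu P) (jetCls P N h) := rfl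
  rw [h1, map_genR _ _ (HM_Lu _)]
  have h2 : (fun (N : ℕ) (h : 0 < N) => HM (datK B ψ hψ).sec
      (algebraMap (K0Mu P) (MKMu P) (jetCls P N h))) = fun N h =>
      algebraMap (K0S (zer g f)) (MS (zer g f)) (jetS g f N h) *
        ((LuS (zer g f) : (MS (zer g f))ˣ) : MS (zer g f)) ^ (r + κ) *
        ((LuS (zer g f) : (MS (zer g f))ˣ) : MS (zer g f)) ^ ((r + κ) * N) +
      ∑ m ∈ Finset.Ico 1 N, (((LuS (zer g f) : (MS (zer g f))ˣ) : MS (zer g f)) ^ (r + κ) - 1) *
        algebraMap (K0S (zer g f)) (MS (zer g f)) (Y0 M f g m) *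
        ((LuS (zer g f) : (MS (zer g f))ˣ) : MS (zer g f)) ^ ((n - r + (r + κ)) * (N - m)) *
        ((LuS (zer g f) : (MS (zer g f))ˣ) : MS (zer g f)) ^ ((r + κ) * N - (N - m)) := by
    funext N h
    have h3 : ((LuS (zer g f) : (MS (zer g f))ˣ) : MS (zer g f)) =
      algebraMap (K0S (zer g f)) (MS (zer g f)) (LS (zer g f)) := rfl
    rw [HM_alg, HK_jet hM hB' ψ hψ N h, h3]
    simp only [map_add, map_mul, map_sum, map_pow, map_sub, map_one]
    rw [show n - r + (r + κ) = n + κ by omega]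
  have h4 : m = n - r + 2 * (r + κ) := by omega
  rw [h2, h4]
  exact gen_mem (LuS (zer g f)) (n - r) (r + κ) _ _

end loc

end Pool.Agent.Q221.EM
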