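import Pool.Agent.Q221.EM.Bf

/-!
# The equivariant motivic monodromy conjecture: from smooth varieties to polynomials
-/

set_option autoImplicit false
set_option linter.unusedSectionVars false
set_option linter.unusedVariables false

namespace Pool.Agent.Q221.EM

open MvPolynomial Pool.Agent.W428.MOT Pool.Agent.Q42.CU Pool.Agent.Q223.MM
open Pool.Agent.Q223.TW (bfun_FK)
open Pool.Agent.H628R4.TP (IsBFunction)

variable {k : Type} [Field k] [Algebra k ℂ]

/-- **Q1 for the polynomial `F` on an affine space.** -/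
def Q1P {m : ℕ} (F : MvPolynomial (Fin m) k) : Prop :=
  ∀ b : Polynomial ℂ, b ≠ 0 → IsBFunction (map (algebraMap k ℂ) F) b →
    ∃ S : Finset (ℤ × ℤ), (∀ p ∈ S, 0 < p.2 ∧ b.eval ((p.1 : ℂ) / p.2) = 0) ∧
      InRat (LuMu F) S (zetaE F)

theorem comp_ne_zero {b : Polynomial ℂ} (hb : b ≠ 0) (ρ : ℕ) :
    (Polynomial.X + 1) * b.comp (Polynomial.X + Polynomial.C (ρ : ℂ)) ≠ 0 := by
  intro h0
  rcases mul_eq_zero.1 h0 with h3 | h3
  · have h4 := congrArg (Polynomial.eval 0) h3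
    simp at h4
  · have h4 := congrArg (fun p => p.comp (Polynomial.X - Polynomial.C (ρ : ℂ))) h3
    simp only [Polynomial.comp_assoc, Polynomial.zero_comp] at h4
    rw [Polynomial.add_comp, Polynomial.X_comp, Polynomial.C_comp, sub_add_cancel,
      Polynomial.comp_X] at h4
    exact hb h4

section red

variable {n r : ℕ} {f : MvPolynomial (Fin n) k} {g : Fin r → MvPolynomial (Fin n) k}

theorem Q1X_of_mem (h : f ∈ Ideal.span (Set.range g)) : Q1X g f := by
  have hk0 : CharZero k := RingHom.charZero (algebraMap k ℂ)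
  intro b _ _
  refine ⟨∅, fun p hp => absurd hp (Finset.notMem_empty p), ?_⟩
  rw [zetaX_zero fun N _ => JetX_of_mem h N]
  exact Subalgebra.zero_mem _

theorem Q1X_of_one (h : (1 : MvPolynomial (Fin n) k) ∈ Ideal.span (insert f (Set.range g))) :
    Q1X g f := by
  have hk0 : CharZero k := RingHom.charZero (algebraMap k ℂ)
  intro b _ _
  refine ⟨∅, fun p hp => absurd hp (Finset.notMem_empty p), ?_⟩
  rw [zetaX_zero fun N hN => JetX_of_one h hN]
  exact Subalgebra.zero_mem _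

/-- a `b`-function of `f + ∑ y_q g_q` -/
theorem isBFunction_FK (hg : Sm.IsCI fun q => map (algebraMap k ℂ) (g q)) {b : Polynomial ℂ}
    (hb : Sm.IsBX (map (algebraMap k ℂ) f) (fun q => map (algebraMap k ℂ) (g q)) b) :
    IsBFunction (map (algebraMap k ℂ) (FK f g)) ((Polynomial.X + 1) *
      b.comp (Polynomial.X + Polynomial.C (r : ℂ))) := by
  rw [map_FK]
  exact Sm.isBFunction_FN hg hb

/-- a `b`-function of a stably equivalent polynomial -/
theorem isBFunction_St (hg : Sm.IsCI fun q => map (algebraMap k ℂ) (g q))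
    (hd : (FK f g).totalDegree ≠ 0) {b : Polynomial ℂ}
    (hb : Sm.IsBX (map (algebraMap k ℂ) f) (fun q => map (algebraMap k ℂ) (g q)) b)
    {κ m : ℕ} {Φ : MvPolynomial (Fin m) k} (hst : StEq (FK f g) κ Φ) :
    IsBFunction (map (algebraMap k ℂ) Φ) ((Polynomial.X + 1) *
      b.comp (Polynomial.X + Polynomial.C ((r + κ : ℕ) : ℂ))) := by
  obtain ⟨e, ψ, hψ⟩ := hst.alg
  have h1 := bfun_FK hd (isBFunction_FK hg hb) ψ hψ
  have h2 : (b.comp (Polynomial.X + Polynomial.C (r : ℂ))).comp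
      (Polynomial.X + Polynomial.C (κ : ℂ)) =
      b.comp (Polynomial.X + Polynomial.C ((r + κ : ℕ) : ℂ)) := by
    rw [Polynomial.comp_assoc, Polynomial.add_comp, Polynomial.X_comp, Polynomial.C_comp,
      add_assoc, ← Polynomial.C_add]
    congr 3
    push_cast
    ring
  rw [h2] at h1
  exact (cast_prop (P := fun m G => IsBFunction (map (algebraMap k ℂ) G) ((Polynomial.X + 1) *
      b.comp (Polynomial.X + Polynomial.C ((r + κ : ℕ) : ℂ)))) e Φ).1 h1

/-- **Four polynomials are enough.** -/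
theorem reduce_one (hg : Sm.IsCI fun q => map (algebraMap k ℂ) (g q))
    (hI : (Ideal.span (Set.range g)).IsPrime) {κ : ℕ} {m : ℕ → ℕ}
    {Φ : ∀ j, MvPolynomial (Fin (m j)) k} (hst : ∀ j < 4, StEq (FK f g) (κ + j) (Φ j))
    (hΦ : ∀ j < 4, Q1P (Φ j)) : Q1X g f := by
  have hk0 : CharZero k := RingHom.charZero (algebraMap k ℂ)
  by_cases h1 : f ∈ Ideal.span (Set.range g)
  · exact Q1X_of_mem h1
  by_cases h2 : (1 : MvPolynomial (Fin n) k) ∈ Ideal.span (insert f (Set.range g))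
  · exact Q1X_of_one h2
  intro b hb0 hb
  obtain ⟨M, hM⟩ := exists_meas (zer g f)
  obtain ⟨B, hB'⟩ := exists_split hg
  refine core4 (zetaX g f) (YX M) (r + κ) b (neg_one_root hI h1 h2 hb) fun j hj => ?_
  have h3 := isBFunction_St hg (FK_deg h1 h2) hb (hst j hj)
  rw [← add_assoc] at h3
  obtain ⟨S, hS, hz⟩ := hΦ j hj _ (comp_ne_zero hb0 (r + κ + j)) h3
  refine ⟨S, hS, ?_⟩
  obtain ⟨e, ψ, hψ⟩ := hst j hj
  have h4 := map_mem (HM (datK B ψ hψ).sec) (HM_Lu _) (fun q hq => (hS q hq).1)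
    (show zetaMu (Φ j) ∈ ratR (LuMu (Φ j)) S from hz)
  rw [HM_zeta hM hB' (card_leK hg hI) e ψ hψ, ← add_assoc] at h4
  exact h4

theorem stEq_stb (F : MvPolynomial (Fin n) k) (κ : ℕ) : StEq F κ (stb F κ) :=
  ⟨rfl, AlgEquiv.refl, rfl⟩

/-- **The stabilisations of `f + ∑ y_q g_q`.** -/
theorem reduce_stb (hg : Sm.IsCI fun q => map (algebraMap k ℂ) (g q))
    (hI : (Ideal.span (Set.range g)).IsPrime) (κ : ℕ)
    (h : ∀ j < 4, Q1P (stb (FK f g) (κ + j))) : Q1X g f :=
  reduce_one hg hI (m := fun j => n + r + (κ + j + (κ + j)))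
    (Φ := fun j => stb (FK f g) (κ + j)) (fun j _ => stEq_stb _ _) h

end red

/-! ### Affine spaces -/

section aff

variable {m : ℕ} {F : MvPolynomial (Fin m) k}

/-- the homomorphism -/
noncomputable def HI (F : MvPolynomial (Fin m) k) : MS (zr F) →+* MKMu F :=
  IsLocalization.Away.lift (LS (zr F))
    (g := (algebraMap (K0Mu F) (MKMu F)).comp (invMu F).hom) (by
      rw [RingHom.comp_apply, invMu_L]
      exact IsLocalization.Away.algebraMap_isUnit (S := MKMu F) (LMu F))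

theorem HI_alg (x : K0S (zr F)) :
    HI F (algebraMap (K0S (zr F)) (MS (zr F)) x) =
      algebraMap (K0Mu F) (MKMu F) ((invMu F).hom x) := by
  unfold HI
  rw [IsLocalization.Away.lift_eq]
  rfl

theorem HI_Lu : Units.map (HI F : MS (zr F) →* MKMu F) (LuS (zr F)) = LuMu F := by
  apply Units.ext
  change HI F (((LuS (zr F) : (MS (zr F))ˣ)) : MS (zr F)) = ((LuMu F : (MKMu F)ˣ) : MKMu F)
  have h1 : (((LuS (zr F) : (MS (zr F))ˣ)) : MS (zr F)) =
    algebraMap (K0S (zr F)) (MS (zr F)) (LS (zr F)) := rfl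
  have h2 : ((LuMu F : (MKMu F)ˣ) : MKMu F) = algebraMap (K0Mu F) (MKMu F) (LMu F) := rfl
  rw [h1, h2, HI_alg, invMu_L]

theorem HI_jet (N : ℕ) (hN : 0 < N) :
    (invMu F).hom (jetS (Fin.elim0 : Fin 0 → MvPolynomial (Fin m) k) F N hN) = jetCls F N hN := by
  have h1 : (invMu F).hom (jetS (Fin.elim0 : Fin 0 → MvPolynomial (Fin m) k) F N hN) =
      K0Mu.mk (toMu (diagS (jetX_valid (Fin.elim0 : Fin 0 → MvPolynomial (Fin m) k) F N hN)
        (jetX_base _ F N hN))) := (invMu F).hom_mk _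
  rw [h1, jetCls]
  have h4 : IsMuIso (toMu (diagS (jetX_valid (Fin.elim0 : Fin 0 → MvPolynomial (Fin m) k) F N hN)
      (jetX_base _ F N hN))) (diagVar (jetValid F N hN)) (fun z => z) (fun z => z) :=
    { regular := regularOn_poly (fun i => IsPF.coord i) _
      regular' := regularOn_poly (fun i => IsPF.coord i) _
      mapsTo := fun z hz => hz.2
      mapsTo' := fun z hz => ⟨fun i => i.elim0, hz⟩
      left_inv := fun _ _ => rfl
      right_inv := fun _ _ => rfl
      overBase := fun _ _ => rfl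
      equivariant := fun _ _ _ _ => rfl }
  exact (Ideal.Quotient.mk_eq_mk_iff_sub_mem _ _).2 (Ideal.subset_span (RelMu.iso _ _ _ _ h4))

theorem HI_zeta : PowerSeries.map (HI F)
    (zetaX (Fin.elim0 : Fin 0 → MvPolynomial (Fin m) k) F) = zetaE F := by
  have h2 : (fun (N : ℕ) (h : 0 < N) => HI F (algebraMap (K0S (zr F)) (MS (zr F))
      (jetS (Fin.elim0 : Fin 0 → MvPolynomial (Fin m) k) F N h))) = fun N h =>
      algebraMap (K0Mu F) (MKMu F) (jetCls F N h) := by
    funext N h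
    exact (HI_alg (F := F) _).trans (congrArg _ (HI_jet N h))
  have h3 := map_genR (LuS (zr F)) (HI F) HI_Lu (m - 0) fun N h =>
    algebraMap (K0S (zr F)) (MS (zr F)) (jetS (Fin.elim0 : Fin 0 → MvPolynomial (Fin m) k) F N h)
  rw [h2] at h3
  exact h3

/-- the case of an affine space -/
theorem Q1P_of (h : Q1X (Fin.elim0 : Fin 0 → MvPolynomial (Fin m) k) F) : Q1P F := by
  intro b hb0 hb
  have h0 : (fun q : Fin 0 => map (algebraMap k ℂ)
      ((Fin.elim0 : Fin 0 → MvPolynomial (Fin m) k) q)) = Fin.elim0 :=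
    funext fun q => q.elim0
  obtain ⟨S, hS, hz⟩ := h b hb0 (by rw [h0]; exact Sm.isBX_of_isBFunction hb)
  refine ⟨S, hS, ?_⟩
  have h4 := map_mem (HI F) HI_Lu (fun q hq => (hS q hq).1)
    (show zetaX (Fin.elim0 : Fin 0 → MvPolynomial (Fin m) k) F ∈ ratR (LuS (zr F)) S from hz)
  rw [HI_zeta] at h4
  exact h4

theorem isCI_elim0K {n : ℕ} : Sm.IsCI fun q : Fin 0 => map (algebraMap k ℂ)
    ((Fin.elim0 : Fin 0 → MvPolynomial (Fin n) k) q) := by
  have h0 : (fun q : Fin 0 => map (algebraMap k ℂ)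
      ((Fin.elim0 : Fin 0 → MvPolynomial (Fin n) k) q)) = Fin.elim0 :=
    funext fun q => q.elim0
  rw [h0]
  exact Sm.isCI_elim0

theorem prime_elim0K {n : ℕ} :
    (Ideal.span (Set.range (Fin.elim0 : Fin 0 → MvPolynomial (Fin n) k))).IsPrime := by
  rw [Set.range_eq_empty, Ideal.span_empty]
  exact Ideal.isPrime_bot

end aff

/-! ### Coefficients -/

section coeffs

theorem X_mul_CfK {σ : Type} {A : AddSubgroup k} (i : σ) {p : MvPolynomial σ k}
    (hp : p ∈ Cf σ A) : X i * p ∈ Cf σ A := by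
  classical
  rw [mem_Cf]
  intro d
  rw [coeff_X_mul']
  split_ifs
  · exact hp _
  · exact A.zero_mem

/-- the coefficients of `f + ∑ y_q g_q` -/
theorem FK_span [CharZero k] {n r : ℕ} {f : MvPolynomial (Fin n) k}
    {g : Fin r → MvPolynomial (Fin n) k}
    {S : Set k} (hf : ∀ d, coeff d f ∈ Submodule.span ℚ S)
    (hg : ∀ q d, coeff d (g q) ∈ Submodule.span ℚ S) (d : Fin (n + r) →₀ ℕ) :
    coeff d (FK f g) ∈ Submodule.span ℚ S := by
  have h1 : FK f g ∈ Cf (Fin (n + r)) (ratSpan S) := by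
    rw [FK]
    refine AddSubgroup.add_mem _ (rename_Cf _ (mem_Cf.2 fun d => mem_ratSpan.2 (hf d))) ?_
    exact AddSubgroup.sum_mem _ fun q _ => X_mul_CfK _
      (rename_Cf _ (mem_Cf.2 fun d => mem_ratSpan.2 (hg q d)))
  exact mem_ratSpan.1 (mem_Cf.1 h1 d)

end coeffs

/-! ### The equivalence -/

/-- **The reduction to triple systems.** -/
theorem equiv_span [CharZero k] (S : Set k) (hS : (1 : k) ∈ S) (N : ℕ) :
    (∀ (n r : ℕ) (g : Fin r → MvPolynomial (Fin n) k) (f : MvPolynomial (Fin n) k),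
      Sm.IsCI (fun q => map (algebraMap k ℂ) (g q)) → (Ideal.span (Set.range g)).IsPrime →
      (∀ q d, coeff d (g q) ∈ Submodule.span ℚ S) →
      (∀ d, coeff d f ∈ Submodule.span ℚ S) → Q1X g f) ↔
    ∀ (m r : ℕ) (E : Fin r → Finset (Fin m)) (c : Fin r → k), 0 < m → IsTriple S E c →
      MinExp N (map (algebraMap k ℂ) (Phi 24⁻¹ E c)) → Q1P (Phi 24⁻¹ E c) := by
  constructor
  · intro h m r E c _ hc _
    exact Q1P_of (h _ 0 Fin.elim0 _ isCI_elim0K prime_elim0K (fun q => q.elim0)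
      (Phi_span inv24k hS hc))
  · intro h n r g f hg hI hgS hfS
    by_cases h1 : f ∈ Ideal.span (Set.range g)
    · exact Q1X_of_mem h1
    by_cases h2 : (1 : MvPolynomial (Fin n) k) ∈ Ideal.span (insert f (Set.range g))
    · exact Q1X_of_one h2
    by_cases hb : ∃ b : Polynomial ℂ, b ≠ 0 ∧ IsBFunction (map (algebraMap k ℂ) (FK f g)) b
    · obtain ⟨κ₁, h3⟩ := exists_phisK S hS N _ (FK f g) (FK_deg h1 h2) (FK_span hfS hgS)
      choose m r' E c hm hc hst hmin using fun j : ℕ => h3 (κ₁ + j) (Nat.le_add_right _ _)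
      exact reduce_one hg hI (m := fun j => m j + r' j) (Φ := fun j => Phi 24⁻¹ (E j) (c j))
        (fun j _ => hst j) fun j _ => h _ _ _ _ (hm j) (hc j) (hmin j hb)
    · intro b hb0 hb'
      exact absurd ⟨_, comp_ne_zero hb0 r, isBFunction_FK hg hb'⟩ hb

end Pool.Agent.Q221.EM
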