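import Pool.Agent.Q221.EM.Hom

/-!
# Base change along closed immersions with a retraction
-/

set_option autoImplicit false
set_option linter.unusedSectionVars false

namespace Pool.Agent.Q221.EM

open MvPolynomial Pool.Agent.W428.MOT

section reg

variable {k : Type} [Field k] {ι κ : Type}

theorem isRF_polyc {S : Set (Pt k ι)} {f : Pt k ι → Pt k κ} (hf : RegularOn S f)
    (P : MvPolynomial κ k) : IsRF S fun z => aeval (f z) P := by
  induction P using MvPolynomial.induction_on with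
  | C a =>
    refine IsRF.congr ((IsPF.const a).isRF S) fun z _ => ?_
    rw [algHom_C]
  | add p q hp hq =>
    refine IsRF.congr (hp.add hq) fun z _ => ?_
    rw [map_add]
  | mul_X p i hp =>
    refine IsRF.congr (hp.mul (hf i)) fun z _ => ?_
    rw [map_mul, aeval_X]

theorem constr_reg {S : Set (Pt k ι)} {f : Pt k ι → Pt k κ} (hS : Constr S) (hf : RegularOn S f)
    {T : Set (Pt k κ)} (hT : Constr T) : Constr {z | z ∈ S ∧ f z ∈ T} := by
  induction hT with
  | zero P =>
    obtain ⟨P', Q', h⟩ := isRF_polyc hf P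
    have h1 : {z | z ∈ S ∧ f z ∈ {z | aeval z P = 0}} = S ∩ {z | aeval z P' = 0} := by
      ext z
      constructor
      · rintro ⟨h2, h3⟩
        refine ⟨h2, ?_⟩
        obtain ⟨h4, h5⟩ := h z h2
        have h6 : aeval (f z) P = 0 := h3
        beta_reduce at h5
        rw [h6] at h5
        exact (div_eq_zero_iff.1 h5.symm).resolve_right h4
      · rintro ⟨h2, h3⟩
        refine ⟨h2, ?_⟩
        obtain ⟨h4, h5⟩ := h z h2
        beta_reduce at h5
        show aeval (f z) P = 0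
        rw [h5, show aeval z P' = 0 from h3, zero_div]
    rw [h1]
    exact hS.inter (Constr.zero P')
  | @compl T _ ih =>
    have h1 : {z | z ∈ S ∧ f z ∈ Tᶜ} = S ∩ {z | z ∈ S ∧ f z ∈ T}ᶜ := by
      ext z
      constructor
      · rintro ⟨h2, h3⟩
        exact ⟨h2, fun h4 => h3 h4.2⟩
      · rintro ⟨h2, h3⟩
        exact ⟨h2, fun h4 => h3 ⟨h2, h4⟩⟩
    rw [h1]
    exact hS.inter ih.compl
  | @inter T T' _ _ ih1 ih2 =>
    have h1 : {z | z ∈ S ∧ f z ∈ T ∩ T'} = {z | z ∈ S ∧ f z ∈ T} ∩ {z | z ∈ S ∧ f z ∈ T'} := by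
      ext z
      constructor
      · rintro ⟨h2, h3, h4⟩
        exact ⟨⟨h2, h3⟩, h2, h4⟩
      · rintro ⟨⟨h2, h3⟩, -, h4⟩
        exact ⟨h2, h3, h4⟩
    rw [h1]
    exact ih1.inter ih2

theorem RegularOn.mono {S T : Set (Pt k ι)} {f : Pt k ι → Pt k κ} (h : RegularOn S f) (hT : T ⊆ S) :
    RegularOn T f := fun i => by
  obtain ⟨P, Q, h'⟩ := h i
  exact ⟨P, Q, fun z hz => h' z (hT hz)⟩

end reg

section bc

variable {k : Type} [Field k] {m n : ℕ} {Z' : Base k m} {Z : Base k n}

/-- A closed immersion of `Z` in `Z'` with a retraction, given by polynomials. -/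
structure Sec (Z' : Base k m) (Z : Base k n) where
  φ : Fin m → MvPolynomial (Fin n) k
  ψ : Fin n → MvPolynomial (Fin m) k
  mem : ∀ x ∈ Z.1, (fun j => aeval x (φ j)) ∈ Z'.1
  left : ∀ x ∈ Z.1, (fun i => aeval (fun j => aeval x (φ j)) (ψ i)) = x

variable (s : Sec Z' Z)

/-- the immersion -/
noncomputable def Sec.P (x : Pt k (Fin n)) : Pt k (Fin m) := fun j => aeval x (s.φ j)

/-- the retraction -/
noncomputable def Sec.Q (y : Pt k (Fin m)) : Pt k (Fin n) := fun i => aeval y (s.ψ i)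

/-- the image -/
def Sec.In (y : Pt k (Fin m)) : Prop := s.Q y ∈ Z.1 ∧ s.P (s.Q y) = y

theorem Sec.isPF_P (j : Fin m) : IsPF fun x => s.P x j := IsPF.poly (s.φ j)

theorem Sec.isPF_Q (i : Fin n) : IsPF fun y => s.Q y i := IsPF.poly (s.ψ i)

theorem Sec.P_mem {x : Pt k (Fin n)} (hx : x ∈ Z.1) : s.P x ∈ Z'.1 := s.mem x hx

theorem Sec.QP {x : Pt k (Fin n)} (hx : x ∈ Z.1) : s.Q (s.P x) = x := s.left x hx

theorem Sec.In_P {x : Pt k (Fin n)} (hx : x ∈ Z.1) : s.In (s.P x) := by
  refine ⟨?_, ?_⟩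
  · rw [s.QP hx]
    exact hx
  · rw [s.QP hx]

theorem Sec.constr_In : Constr {y | s.In y} := by
  refine Constr.and (Z.2.preimage s.Q s.isPF_Q) ?_
  have h1 : {y | s.P (s.Q y) = y} = {y : Pt k (Fin m) | ∀ j, s.P (s.Q y) j = y j} := by
    ext y
    exact funext_iff
  rw [h1]
  exact Constr.all fun j => Constr.eq ((s.isPF_P j).comp s.Q s.isPF_Q) (IsPF.coord j)

/-- the base change of a variety -/
noncomputable def Sec.pull (V : SVar Z') : SVar Z where
  N := V.N
  S := {z | z ∈ V.S ∧ s.In (V.π z)}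
  constr := constr_reg V.constr V.regular_π s.constr_In
  π := fun z => s.Q (V.π z)
  regular_π := fun i => isRF_polyc (RegularOn.mono V.regular_π fun _ hz => hz.1) (s.ψ i)
  π_mem := fun _ hz => hz.2.1
  d := V.d
  d_pos := V.d_pos
  act := V.act
  regular_act := RegularOn.mono V.regular_act fun _ hz => ⟨hz.1, hz.2.1⟩
  act_mem := fun ζ hζ z hz => ⟨V.act_mem ζ hζ z hz.1, by rw [V.π_act ζ hζ z hz.1]; exact hz.2⟩
  act_one := fun z hz => V.act_one z hz.1
  act_mul := fun ζ ζ' h h' z hz => V.act_mul ζ ζ' h h' z hz.1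
  π_act := fun ζ h z hz => by rw [V.π_act ζ h z hz.1]

theorem Sec.pull_iso {V W : SVar Z'} {φ ψ} (h : IsIso V W φ ψ) :
    IsIso (s.pull V) (s.pull W) φ ψ where
  regular := RegularOn.mono h.regular fun _ hz => hz.1
  regular' := RegularOn.mono h.regular' fun _ hz => hz.1
  mapsTo := fun z hz => ⟨h.mapsTo hz.1, by rw [h.overBase z hz.1]; exact hz.2⟩
  mapsTo' := fun w hw => ⟨h.mapsTo' hw.1, by
    rw [← h.overBase _ (h.mapsTo' hw.1), h.right_inv w hw.1]
    exact hw.2⟩
  left_inv := fun z hz => h.left_inv z hz.1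
  right_inv := fun w hw => h.right_inv w hw.1
  overBase := fun z hz => by
    show s.Q (W.π (φ z)) = s.Q (V.π z)
    rw [h.overBase z hz.1]
  equivariant := fun l hl z hz => h.equivariant l hl z hz.1

theorem Sec.pull_restrict (V : SVar Z') (T : Set (Pt k (Fin V.N))) (hT : Constr T) (hTS : T ⊆ V.S)
    (hst) (U : Set (Pt k (Fin V.N))) (hU : Constr U) (hUS : U ⊆ (s.pull V).S) (hst')
    (h : ∀ z ∈ V.S, s.In (V.π z) → (z ∈ T ↔ z ∈ U)) :
    K0S.mk (s.pull (V.restrict T hT hTS hst)) = K0S.mk ((s.pull V).restrict U hU hUS hst') := by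
  refine mk_iso (s.pull (V.restrict T hT hTS hst)) ((s.pull V).restrict U hU hUS hst')
    (fun z => z) (fun z => z) ?_
  exact
    { regular := regularOn_poly (fun i => IsPF.coord i) _
      regular' := regularOn_poly (fun i => IsPF.coord i) _
      mapsTo := fun z hz => (h z (hTS hz.1) hz.2).1 hz.1
      mapsTo' := fun z hz => ⟨(h z (hUS hz).1 (hUS hz).2).2 hz, (hUS hz).2⟩
      left_inv := fun _ _ => rfl
      right_inv := fun _ _ => rfl
      overBase := fun _ _ => rfl
      equivariant := fun _ _ _ _ => rfl }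

theorem Sec.pull_fib {V W P : SVar Z'} {p q j} (h : IsFib V W P p q j) :
    IsFib (s.pull V) (s.pull W) (s.pull P) p q j where
  regular_p := RegularOn.mono h.regular_p fun _ hz => hz.1
  regular_q := RegularOn.mono h.regular_q fun _ hz => hz.1
  regular_j := RegularOn.mono h.regular_j fun w hw => by
    refine ⟨hw.1.1, hw.2.1.1, ?_⟩
    have h1 : s.Q (V.π fun i => w (Sum.inl i)) = s.Q (W.π fun i => w (Sum.inr i)) := hw.2.2
    have h2 : s.P (s.Q (V.π fun i => w (Sum.inl i))) = V.π fun i => w (Sum.inl i) := hw.1.2.2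
    have h3 : s.P (s.Q (W.π fun i => w (Sum.inr i))) = W.π fun i => w (Sum.inr i) := hw.2.1.2.2
    exact h2.symm.trans ((congrArg s.P h1).trans h3)
  mapsTo := fun z hz => by
    obtain ⟨h1, h2, h3, h4⟩ := h.mapsTo z hz.1
    refine ⟨⟨h1, ?_⟩, ⟨h2, ?_⟩, ?_, ?_⟩
    · rw [h4]
      exact hz.2
    · rw [← h3, h4]
      exact hz.2
    · show s.Q _ = s.Q _
      rw [h3]
    · show s.Q _ = s.Q _
      rw [h4]
  mapsTo' := fun v hv w hw hvw => by
    have h1 : s.Q (V.π v) = s.Q (W.π w) := hvw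
    have h2 : V.π v = W.π w := by rw [← hv.2.2, ← hw.2.2, h1]
    obtain ⟨h3, h4, h5⟩ := h.mapsTo' v hv.1 w hw.1 h2
    have key : ∀ y, y = V.π v → s.In y := fun y hy => hy ▸ hv.2
    exact ⟨⟨h3, key _ (((h.mapsTo _ h3).2.2.2.symm).trans (congrArg V.π h4))⟩, h4, h5⟩
  inj := fun z hz => h.inj z hz.1
  equivariant_p := fun l hl z hz => h.equivariant_p l hl z hz.1
  equivariant_q := fun l hl z hz => h.equivariant_q l hl z hz.1

theorem Sec.pull_isAff {V P : SVar Z'} {r : ℕ} {p q j} (h : IsAff V P r p q j) :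
    IsAff (s.pull V) (s.pull P) r p q j where
  regular_p := RegularOn.mono h.regular_p fun _ hz => hz.1
  regular_q := RegularOn.mono h.regular_q fun _ hz => hz.1
  regular_j := RegularOn.mono h.regular_j fun w hw => hw.1
  mapsTo := fun z hz => by
    obtain ⟨h1, h4⟩ := h.mapsTo z hz.1
    refine ⟨⟨h1, ?_⟩, ?_⟩
    · rw [h4]
      exact hz.2
    · show s.Q _ = s.Q _
      rw [h4]
  mapsTo' := fun v hv w => by
    obtain ⟨h3, h4, h5⟩ := h.mapsTo' v hv.1 w
    have key : ∀ y, y = V.π v → s.In y := fun y hy => hy ▸ hv.2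
    exact ⟨⟨h3, key _ (((h.mapsTo _ h3).2.symm).trans (congrArg V.π h4))⟩, h4, h5⟩
  inj := fun z hz => h.inj z hz.1
  equivariant_p := fun l hl z hz => h.equivariant_p l hl z hz.1
  affine := fun l hl v hv => by
    obtain ⟨A, b, h1⟩ := h.affine l hl v hv.1
    exact ⟨A, b, fun z hz hv => h1 z hz.1 hv⟩

theorem Sec.pull_base : K0S.mk (s.pull (SVar.base Z')) = 1 := by
  rw [← mk_one]
  refine mk_iso (s.pull (SVar.base Z')) (SVar.base Z) s.Q s.P ?_
  exact
    { regular := regularOn_poly s.isPF_Q _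
      regular' := regularOn_poly s.isPF_P _
      mapsTo := fun z hz => hz.2.1
      mapsTo' := fun x hx => ⟨s.P_mem hx, s.In_P hx⟩
      left_inv := fun z hz => hz.2.2
      right_inv := fun x hx => s.QP hx
      overBase := fun _ _ => rfl
      equivariant := fun _ _ _ _ => rfl }

theorem Sec.pull_aff (r : ℕ) : K0S.mk (s.pull (SVar.aff Z' r)) = K0S.mk (SVar.aff Z r) := by
  have e1 : ∀ (a : ℕ) (z : Pt k (Fin (a + r))),
      (fun i => Fin.addCases (motive := fun _ => AlgebraicClosure k)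
        (fun i => z (Fin.castAdd r i)) (fun i => z (Fin.natAdd a i)) i) = z := by
    intro a z
    funext i
    refine Fin.addCases (fun i => ?_) (fun i => ?_) i
    · rw [Fin.addCases_left]
    · rw [Fin.addCases_right]
  have e2 : ∀ (a : ℕ) (x : Pt k (Fin a)) (y : Pt k (Fin r)),
      (fun i => Fin.addCases (motive := fun _ => AlgebraicClosure k) x y (Fin.castAdd r i)) = x := by
    intro a x y
    funext i
    exact Fin.addCases_left (motive := fun _ => AlgebraicClosure k) i
  have e3 : ∀ (a : ℕ) (x : Pt k (Fin a)) (y : Pt k (Fin r)),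
      (fun i => Fin.addCases (motive := fun _ => AlgebraicClosure k) x y (Fin.natAdd a i)) = y := by
    intro a x y
    funext i
    exact Fin.addCases_right (motive := fun _ => AlgebraicClosure k) i
  set A : Pt k (Fin (m + r)) → Pt k (Fin (n + r)) := fun z j =>
    Fin.addCases (motive := fun _ => AlgebraicClosure k)
      (s.Q fun i => z (Fin.castAdd r i)) (fun i => z (Fin.natAdd m i)) j with hA
  set B : Pt k (Fin (n + r)) → Pt k (Fin (m + r)) := fun w j =>
    Fin.addCases (motive := fun _ => AlgebraicClosure k)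
      (s.P fun i => w (Fin.castAdd r i)) (fun i => w (Fin.natAdd n i)) j with hB
  have l1 : ∀ z : Pt k (Fin (m + r)), s.P (s.Q fun i => z (Fin.castAdd r i)) =
      (fun i => z (Fin.castAdd r i)) → B (A z) = z := by
    intro z h1
    rw [hA, hB]
    beta_reduce
    rw [e2, e3, h1, e1]
  have l2 : ∀ w : Pt k (Fin (n + r)), (fun i => w (Fin.castAdd r i)) ∈ Z.1 → A (B w) = w := by
    intro w hw
    rw [hA, hB]
    beta_reduce
    rw [e2, e3, s.QP hw, e1]
  have l3 : ∀ z : Pt k (Fin (m + r)), (fun i => A z (Fin.castAdd r i)) =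
      s.Q fun i => z (Fin.castAdd r i) := fun z => e2 n _ _
  have l4 : ∀ w : Pt k (Fin (n + r)), (fun i => B w (Fin.castAdd r i)) =
      s.P fun i => w (Fin.castAdd r i) := fun w => e2 m _ _
  have l5 : ∀ w : Pt k (Fin (n + r)), (fun i => w (Fin.castAdd r i)) ∈ Z.1 →
      (fun i => B w (Fin.castAdd r i)) ∈ Z'.1 ∧ s.In (fun i => B w (Fin.castAdd r i)) := by
    intro w hw
    rw [l4]
    exact ⟨s.P_mem hw, s.In_P hw⟩
  have l6 : ∀ z : Pt k (Fin (m + r)), (s.Q fun i => z (Fin.castAdd r i)) ∈ Z.1 →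
      (fun i => A z (Fin.castAdd r i)) ∈ Z.1 := by
    intro z hz
    rw [l3]
    exact hz
  refine mk_iso (s.pull (SVar.aff Z' r)) (SVar.aff Z r) A B ?_
  exact
    { regular := by
        refine regularOn_poly (fun i => ?_) _
        refine Fin.addCases (fun i => ?_) (fun i => ?_) i
        · simp only [hA, Fin.addCases_left]
          exact (s.isPF_Q i).comp (fun z : Pt k (Fin (m + r)) => fun i => z (Fin.castAdd r i))
            fun _ => IsPF.coord _
        · simp only [hA, Fin.addCases_right]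
          exact IsPF.coord _
      regular' := by
        refine regularOn_poly (fun i => ?_) _
        refine Fin.addCases (fun i => ?_) (fun i => ?_) i
        · simp only [hB, Fin.addCases_left]
          exact (s.isPF_P i).comp (fun z : Pt k (Fin (n + r)) => fun i => z (Fin.castAdd r i))
            fun _ => IsPF.coord _
        · simp only [hB, Fin.addCases_right]
          exact IsPF.coord _
      mapsTo := fun z hz => l6 z hz.2.1
      mapsTo' := fun w hw => l5 w hw
      left_inv := fun z hz => l1 z hz.2.2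
      right_inv := fun w hw => l2 w hw
      overBase := fun z _ => l3 z
      equivariant := fun _ _ _ _ => rfl }

/-- the base change as an invariant -/
noncomputable def Sec.inv : Inv Z' (K0S Z) where
  θ := fun V => K0S.mk (s.pull V)
  iso := fun V W φ ψ h => mk_iso _ _ φ ψ (s.pull_iso h)
  scissors := fun V T hT hTS hst hT' hst' => by
    have hc : Constr {z | z ∈ T ∧ s.In (V.π z)} :=
      constr_reg hT (RegularOn.mono V.regular_π hTS) s.constr_In
    have hc' : Constr ((s.pull V).S \ {z | z ∈ T ∧ s.In (V.π z)}) := by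
      rw [Set.sdiff_eq]
      exact (s.pull V).constr.inter hc.compl
    have hs1 : ∀ ζ : AlgebraicClosure k, ζ ^ V.d = 1 → ∀ z ∈ {z | z ∈ T ∧ s.In (V.π z)},
        V.act ζ z ∈ {z | z ∈ T ∧ s.In (V.π z)} := fun ζ hζ z hz => ⟨hst ζ hζ z hz.1, by
      rw [V.π_act ζ hζ z (hTS hz.1)]
      exact hz.2⟩
    have hs2 : ∀ ζ : AlgebraicClosure k, ζ ^ V.d = 1 →
        ∀ z ∈ (s.pull V).S \ {z | z ∈ T ∧ s.In (V.π z)},
        V.act ζ z ∈ (s.pull V).S \ {z | z ∈ T ∧ s.In (V.π z)} := fun ζ hζ z hz => by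
      have h1 := hst' ζ hζ z ⟨hz.1.1, fun h => hz.2 ⟨h, hz.1.2⟩⟩
      exact ⟨(s.pull V).act_mem ζ hζ z hz.1, fun h => h1.2 h.1⟩
    have h1 := mk_scissors (s.pull V) {z | z ∈ T ∧ s.In (V.π z)} hc
      (fun z hz => ⟨hTS hz.1, hz.2⟩) hs1 hc' hs2
    rw [h1]
    have h2 := s.pull_restrict V T hT hTS hst {z | z ∈ T ∧ s.In (V.π z)} hc
      (fun z hz => ⟨hTS hz.1, hz.2⟩) hs1 fun z _ hz => ⟨fun h => ⟨h, hz⟩, fun h => h.1⟩
    have h3 := s.pull_restrict V _ hT' Set.sdiff_subset hst'
      ((s.pull V).S \ {z | z ∈ T ∧ s.In (V.π z)}) hc' Set.sdiff_subset hs2 fun z hz hz' =>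
        ⟨fun h => ⟨⟨hz, hz'⟩, fun h' => h.2 h'.1⟩, fun h => ⟨hz, fun h' => h.2 ⟨h', hz'⟩⟩⟩
    exact (congrArg₂ (· + ·) h2 h3).symm
  prod := fun V W P p q j h => mk_prod _ _ _ p q j (s.pull_fib h)
  one := s.pull_base
  affine := fun V P r p q j h => by
    rw [s.pull_aff]
    exact mk_aff _ _ r p q j (s.pull_isAff h)

theorem Sec.hom_L : s.inv.hom (LS Z') = LS Z := by
  unfold LS
  rw [Inv.hom_mk]
  exact s.pull_aff 1

end bc

end Pool.Agent.Q221.EM
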