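import Pool.Agent.W428.MOT.EShort
import Pool.Agent.Q223.TW.Inter

/-!
# Rings of rational functions over a commutative ring with a unit
-/

set_option autoImplicit false

namespace Pool.Agent.Q221.EM

open Pool.Agent.W428.MOT (geoR InRat genR)
open Pool.Agent.Q223.TW (two_slopes)

variable {R : Type} [CommRing R] (u : Rˣ)

/-- the subring generated by `R`, `T` and the `1 / (1 - u ^ a T ^ b)` -/
noncomputable def ratR (S : Set (ℤ × ℤ)) : Subalgebra R (PowerSeries R) :=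
  Algebra.adjoin R ({PowerSeries.X} ∪ {g | ∃ p ∈ S, g = geoR u p.1 p.2})

theorem inRat_iff' (S : Set (ℤ × ℤ)) (z : PowerSeries R) : InRat u S z ↔ z ∈ ratR u S := Iff.rfl

theorem geoR_mul (a b : ℤ) (hb : 0 < b) :
    (1 - PowerSeries.C ((u ^ a : Rˣ) : R) * PowerSeries.X ^ b.toNat) * geoR u a b = 1 := by
  unfold geoR
  refine PowerSeries.mul_invOfUnit _ 1 ?_
  have hb' : b.toNat ≠ 0 := by omega
  simp [hb']

variable {u}

theorem geoR_mem {S : Set (ℤ × ℤ)} {p : ℤ × ℤ} (hp : p ∈ S) : geoR u p.1 p.2 ∈ ratR u S :=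
  Algebra.subset_adjoin (Or.inr ⟨p, hp, rfl⟩)

theorem X_mem (S : Set (ℤ × ℤ)) : (PowerSeries.X : PowerSeries R) ∈ ratR u S :=
  Algebra.subset_adjoin (Or.inl rfl)

theorem C_mem (S : Set (ℤ × ℤ)) (a : R) : PowerSeries.C a ∈ ratR u S := by
  have := (ratR u S).algebraMap_mem a
  simpa [PowerSeries.algebraMap_apply] using this

theorem poly_mem (S : Set (ℤ × ℤ)) (P : Polynomial R) : (P : PowerSeries R) ∈ ratR u S := by
  induction P using Polynomial.induction_on' with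
  | add p q hp hq =>
    rw [Polynomial.coe_add]
    exact (ratR u S).add_mem hp hq
  | monomial n a =>
    rw [← Polynomial.C_mul_X_pow_eq_monomial, Polynomial.coe_mul, Polynomial.coe_C,
      Polynomial.coe_pow, Polynomial.coe_X]
    exact (ratR u S).mul_mem (C_mem S a) ((ratR u S).pow_mem (X_mem S) n)

theorem ratR_mono {S T : Set (ℤ × ℤ)} (h : S ⊆ T) : ratR u S ≤ ratR u T := by
  refine Algebra.adjoin_mono ?_
  rintro x (hx | ⟨p, hp, rfl⟩)
  · exact Or.inl hx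
  · exact Or.inr ⟨p, h hp, rfl⟩

/-! ### Homomorphisms -/

theorem map_geoR {R' : Type} [CommRing R'] (φ : R →+* R') {u' : R'ˣ}
    (hu : Units.map (φ : R →* R') u = u') (a b : ℤ) (hb : 0 < b) :
    PowerSeries.map φ (geoR u a b) = geoR u' a b := by
  have h3 := congrArg (PowerSeries.map φ) (geoR_mul u a b hb)
  rw [map_mul, map_one, map_sub, map_one, map_mul, map_pow, PowerSeries.map_X,
    PowerSeries.map_C] at h3
  have h4 : φ ((u ^ a : Rˣ) : R) = ((u' ^ a : R'ˣ) : R') := by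
    rw [← hu, ← map_zpow]
    rfl
  rw [h4] at h3
  have h5 := geoR_mul u' a b hb
  calc PowerSeries.map φ (geoR u a b) = PowerSeries.map φ (geoR u a b) *
      ((1 - PowerSeries.C ((u' ^ a : R'ˣ) : R') * PowerSeries.X ^ b.toNat) * geoR u' a b) := by
        rw [h5, mul_one]
    _ = ((1 - PowerSeries.C ((u' ^ a : R'ˣ) : R') * PowerSeries.X ^ b.toNat) *
      PowerSeries.map φ (geoR u a b)) * geoR u' a b := by ring
    _ = _ := by rw [h3, one_mul]

theorem map_mem {R' : Type} [CommRing R'] (φ : R →+* R') {u' : R'ˣ}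
    (hu : Units.map (φ : R →* R') u = u') {S : Set (ℤ × ℤ)} (hS : ∀ q ∈ S, 0 < q.2)
    {z : PowerSeries R} (hz : z ∈ ratR u S) : PowerSeries.map φ z ∈ ratR u' S := by
  unfold ratR at hz
  refine Algebra.adjoin_induction (p := fun z _ => PowerSeries.map φ z ∈ ratR u' S)
    ?_ ?_ ?_ ?_ hz
  · rintro x (hx | ⟨p, hp, hx⟩)
    · rw [Set.mem_singleton_iff.1 hx, PowerSeries.map_X]
      exact X_mem S
    · rw [hx, map_geoR φ hu _ _ (hS p hp)]
      exact geoR_mem hp
  · intro a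
    have h1 : PowerSeries.map φ (algebraMap R (PowerSeries R) a) = PowerSeries.C (φ a) := by
      change PowerSeries.map φ (PowerSeries.C a) = PowerSeries.C (φ a)
      rw [PowerSeries.map_C]
    rw [h1]
    exact C_mem S _
  · intro x y _ _ hx hy
    rw [map_add]
    exact Subalgebra.add_mem _ hx hy
  · intro x y _ _ hx hy
    rw [map_mul]
    exact Subalgebra.mul_mem _ hx hy

/-! ### Shifts -/

theorem resc_C (c a : R) : PowerSeries.rescale c (PowerSeries.C a) = PowerSeries.C a := by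
  ext j
  rw [PowerSeries.coeff_rescale, PowerSeries.coeff_C]
  split_ifs with h
  · rw [h, pow_zero, one_mul]
  · rw [mul_zero]

/-- the shifted pairs -/
def shn (κ : ℕ) (S : Set (ℤ × ℤ)) : Set (ℤ × ℤ) := (fun q : ℤ × ℤ => (q.1 + κ * q.2, q.2)) '' S

theorem shn_pos {κ : ℕ} {S : Set (ℤ × ℤ)} (hS : ∀ q ∈ S, 0 < q.2) : ∀ q ∈ shn κ S, 0 < q.2 := by
  rintro _ ⟨q, hq, rfl⟩
  exact hS q hq

theorem resc_geoR (κ : ℕ) (a b : ℤ) (hb : 0 < b) :
    PowerSeries.rescale ((u ^ κ : Rˣ) : R) (geoR u a b) = geoR u (a + κ * b) b := by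
  have h3 := congrArg (PowerSeries.rescale ((u ^ κ : Rˣ) : R)) (geoR_mul u a b hb)
  rw [map_mul, map_one, map_sub, map_one, map_mul, map_pow, PowerSeries.rescale_X,
    resc_C, mul_pow, ← mul_assoc, ← map_pow, ← map_mul] at h3
  have h4 : ((u ^ a : Rˣ) : R) * ((u ^ κ : Rˣ) : R) ^ b.toNat = ((u ^ (a + κ * b) : Rˣ) : R) := by
    rw [← Units.val_pow_eq_pow_val, ← Units.val_mul]
    congr 1
    rw [← zpow_natCast, ← zpow_natCast, ← zpow_mul, Int.toNat_of_nonneg hb.le, ← zpow_add]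
  rw [h4] at h3
  have h5 := geoR_mul u (a + κ * b) b hb
  set G := geoR u (a + κ * b) b
  set H := PowerSeries.rescale ((u ^ κ : Rˣ) : R) (geoR u a b)
  calc H = H * ((1 - PowerSeries.C ((u ^ (a + κ * b) : Rˣ) : R) * PowerSeries.X ^ b.toNat) * G) := by
        rw [h5, mul_one]
    _ = ((1 - PowerSeries.C ((u ^ (a + κ * b) : Rˣ) : R) * PowerSeries.X ^ b.toNat) * H) * G := by
        ring
    _ = _ := by rw [h3, one_mul]

theorem resc_mem (κ : ℕ) {S : Set (ℤ × ℤ)} (hS : ∀ q ∈ S, 0 < q.2)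
    {z : PowerSeries R} (hz : z ∈ ratR u S) :
    PowerSeries.rescale ((u ^ κ : Rˣ) : R) z ∈ ratR u (shn κ S) := by
  unfold ratR at hz
  refine Algebra.adjoin_induction (p := fun z _ => PowerSeries.rescale ((u ^ κ : Rˣ) : R) z ∈
    ratR u (shn κ S)) ?_ ?_ ?_ ?_ hz
  · rintro x (hx | ⟨p, hp, hx⟩)
    · rw [Set.mem_singleton_iff.1 hx, PowerSeries.rescale_X]
      exact (ratR u _).mul_mem (C_mem _ _) (X_mem _)
    · rw [hx, resc_geoR κ _ _ (hS p hp)]
      exact geoR_mem (p := (p.1 + κ * p.2, p.2)) ⟨p, hp, rfl⟩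
  · intro a
    have h1 : PowerSeries.rescale ((u ^ κ : Rˣ) : R) (algebraMap R (PowerSeries R) a) =
        PowerSeries.C a := resc_C _ _
    rw [h1]
    exact C_mem _ _
  · intro x y _ _ hx hy
    rw [map_add]
    exact Subalgebra.add_mem _ hx hy
  · intro x y _ _ hx hy
    rw [map_mul]
    exact Subalgebra.mul_mem _ hx hy

/-! ### Denominators -/

variable (u)

/-- the factor `1 - u ^ a T ^ b` -/
noncomputable def gc (p : ℤ × ℤ) : Polynomial R :=
  1 - Polynomial.C ((u ^ p.1 : Rˣ) : R) * Polynomial.X ^ p.2.toNat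

theorem coe_gc (p : ℤ × ℤ) : (gc u p : PowerSeries R) =
    1 - PowerSeries.C ((u ^ p.1 : Rˣ) : R) * PowerSeries.X ^ p.2.toNat := by
  unfold gc
  rw [Polynomial.coe_sub, Polynomial.coe_one, Polynomial.coe_mul, Polynomial.coe_C,
    Polynomial.coe_pow, Polynomial.coe_X]

theorem gc_geo {p : ℤ × ℤ} (hp : 0 < p.2) : (gc u p : PowerSeries R) * geoR u p.1 p.2 = 1 := by
  rw [coe_gc]
  exact geoR_mul _ _ _ hp

variable {u}

/-- the denominators of the elements of the ring -/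
theorem exists_denom {S : Set (ℤ × ℤ)} (hS : ∀ p ∈ S, 0 < p.2) {Z : PowerSeries R}
    (hZ : Z ∈ ratR u S) : ∃ s : Multiset (ℤ × ℤ), (∀ p ∈ s, p ∈ S) ∧
      ∃ P : Polynomial R, Z * ((s.map (gc u)).prod : Polynomial R) = P := by
  unfold ratR at hZ
  refine Algebra.adjoin_induction (p := fun (Z : PowerSeries R) _ =>
    ∃ s : Multiset (ℤ × ℤ), (∀ p ∈ s, p ∈ S) ∧
      ∃ P : Polynomial R, Z * ((s.map (gc u)).prod : Polynomial R) = P) ?_ ?_ ?_ ?_ hZ
  · rintro x (hx | ⟨p, hp, rfl⟩)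
    · rw [Set.mem_singleton_iff] at hx
      refine ⟨0, fun p hp => absurd hp (Multiset.notMem_zero p), Polynomial.X, ?_⟩
      rw [Multiset.map_zero, Multiset.prod_zero, Polynomial.coe_one, mul_one, Polynomial.coe_X, hx]
    · refine ⟨{p}, fun q hq => ?_, 1, ?_⟩
      · rw [Multiset.mem_singleton] at hq
        rw [hq]
        exact hp
      · rw [Multiset.map_singleton, Multiset.prod_singleton, mul_comm, gc_geo u (hS p hp),
          Polynomial.coe_one]
  · intro r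
    refine ⟨0, fun p hp => absurd hp (Multiset.notMem_zero p), Polynomial.C r, ?_⟩
    rw [Multiset.map_zero, Multiset.prod_zero, Polynomial.coe_one, mul_one, Polynomial.coe_C,
      PowerSeries.algebraMap_apply, Algebra.algebraMap_self, RingHom.id_apply]
  · rintro x y _ _ ⟨s, hs, P, hP⟩ ⟨t, ht, Q, hQ⟩
    refine ⟨s + t, fun p hp => ?_, P * (t.map (gc u)).prod + Q * (s.map (gc u)).prod, ?_⟩
    · rcases Multiset.mem_add.1 hp with h | h
      · exact hs p h
      · exact ht p h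
    · rw [Multiset.map_add, Multiset.prod_add, Polynomial.coe_add, Polynomial.coe_mul,
        Polynomial.coe_mul, Polynomial.coe_mul, ← hP, ← hQ]
      ring
  · rintro x y _ _ ⟨s, hs, P, hP⟩ ⟨t, ht, Q, hQ⟩
    refine ⟨s + t, fun p hp => ?_, P * Q, ?_⟩
    · rcases Multiset.mem_add.1 hp with h | h
      · exact hs p h
      · exact ht p h
    · rw [Multiset.map_add, Multiset.prod_add, Polynomial.coe_mul, Polynomial.coe_mul, ← hP, ← hQ]
      ring

theorem inv_denom {S : Set (ℤ × ℤ)} (hS : ∀ p ∈ S, 0 < p.2) (s : Multiset (ℤ × ℤ))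
    (hs : ∀ p ∈ s, p ∈ S) : ∃ V ∈ ratR u S,
      (((s.map (gc u)).prod : Polynomial R) : PowerSeries R) * V = 1 := by
  induction s using Multiset.induction_on with
  | empty =>
    refine ⟨1, (ratR u S).one_mem, ?_⟩
    rw [Multiset.map_zero, Multiset.prod_zero, Polynomial.coe_one, mul_one]
  | cons p s ih =>
    obtain ⟨V, hV, h⟩ := ih fun q hq => hs q (Multiset.mem_cons_of_mem hq)
    have hp := hs p (Multiset.mem_cons_self p s)
    refine ⟨geoR u p.1 p.2 * V, (ratR u S).mul_mem (geoR_mem hp) hV, ?_⟩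
    rw [Multiset.map_cons, Multiset.prod_cons, Polynomial.coe_mul]
    have h1 := gc_geo u (hS p hp)
    linear_combination (gc u p * geoR u p.1 p.2 : PowerSeries R) * h + h1

theorem mem_of_denom {S : Set (ℤ × ℤ)} (hS : ∀ p ∈ S, 0 < p.2) {s : Multiset (ℤ × ℤ)}
    (hs : ∀ p ∈ s, p ∈ S) {Z : PowerSeries R} {P : Polynomial R}
    (h : Z * ((s.map (gc u)).prod : Polynomial R) = P) : Z ∈ ratR u S := by
  obtain ⟨V, hV, h1⟩ := inv_denom (u := u) hS s hs
  have h2 : Z = P * V := by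
    rw [← h]
    linear_combination (-Z) * h1
  rw [h2]
  exact (ratR u S).mul_mem (poly_mem _ _) hV

/-- **The intersection** (the proof of helper223 for `𝓜_K`). -/
theorem ratR_inter {S T : Set (ℤ × ℤ)} (hS : ∀ p ∈ S, 0 < p.2) (hT : ∀ p ∈ T, 0 < p.2)
    {Z : PowerSeries R} (hZS : Z ∈ ratR u S) (hZT : Z ∈ ratR u T) :
    ∃ D : ℕ, 0 < D ∧ Z ∈ ratR u
      (insert (-(D : ℤ), (D : ℤ)) {p ∈ S | ∃ q ∈ T, p.1 * q.2 = q.1 * p.2}) := by
  classical
  obtain ⟨s, hs, P, hP⟩ := exists_denom hS hZS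
  obtain ⟨t, ht, Q, hQ⟩ := exists_denom hT hZT
  -- the exponent `D`
  set dt : (ℤ × ℤ) → (ℤ × ℤ) → ℕ := fun p q => max 1 (p.1 * q.2 - q.1 * p.2).natAbs with hdt
  set D : ℕ := (s.map fun p => (t.map fun q => dt p q).prod).prod with hD
  have hD0 : 0 < D := by
    rw [hD]
    refine Nat.pos_of_ne_zero fun h0 => ?_
    rw [Multiset.prod_eq_zero_iff, Multiset.mem_map] at h0
    obtain ⟨p, -, h1⟩ := h0
    rw [Multiset.prod_eq_zero_iff, Multiset.mem_map] at h1
    obtain ⟨q, -, h2⟩ := h1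
    have h3 : 1 ≤ dt p q := le_max_left _ _
    omega
  have hdvd : ∀ p ∈ s, ∀ q ∈ t, p.1 * q.2 ≠ q.1 * p.2 → p.1 * q.2 - q.1 * p.2 ∣ (D : ℤ) := by
    intro p hp q hq hne
    have h1 : dt p q ∣ D := (Multiset.dvd_prod (Multiset.mem_map_of_mem _ hq)).trans
      (Multiset.dvd_prod (Multiset.mem_map_of_mem (fun p => (t.map fun q => dt p q).prod) hp))
    have h2 : dt p q = (p.1 * q.2 - q.1 * p.2).natAbs := by
      refine max_eq_right ?_
      have := Int.natAbs_pos.2 (sub_ne_zero.2 hne)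
      omega
    rw [h2] at h1
    exact Int.natAbs_dvd_natAbs.1 (by simpa using h1)
  refine ⟨D, hD0, ?_⟩
  set U : Set (ℤ × ℤ) := insert (-(D : ℤ), (D : ℤ)) {p ∈ S | ∃ q ∈ T, p.1 * q.2 = q.1 * p.2}
    with hU
  set w : Multiset (ℤ × ℤ) := (-(D : ℤ), (D : ℤ)) ::ₘ s.filter fun p =>
    ∃ q ∈ T, p.1 * q.2 = q.1 * p.2 with hw
  have hwU : ∀ p ∈ w, p ∈ U := by
    intro p hp
    rcases Multiset.mem_cons.1 hp with rfl | h
    · exact Set.mem_insert _ _
    · rw [Multiset.mem_filter] at h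
      exact Set.mem_insert_of_mem _ ⟨hs p h.1, h.2⟩
  have hUpos : ∀ p ∈ U, 0 < p.2 := by
    rintro p (rfl | ⟨h, -⟩)
    · exact Int.natCast_pos.2 hD0
    · exact hS p h
  set J : Ideal (Polynomial R) := Ideal.span {(s.map (gc u)).prod, (t.map (gc u)).prod}
    with hJ
  set Lp : (Polynomial R)ˣ := Units.map (Polynomial.C : R →+* _).toMonoidHom u
    with hLp
  have hgc : ∀ p : ℤ × ℤ, gc u p = 1 - ((Lp ^ p.1 : (Polynomial R)ˣ) : Polynomial R) *
      Polynomial.X ^ p.2.toNat := by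
    intro p
    unfold gc
    rw [hLp, ← map_zpow]
    rfl
  have hrad : (w.map (gc u)).prod ∈ J.radical := by
    rw [Ideal.radical_eq_sInf, Ideal.mem_sInf]
    rintro Q ⟨hJQ, hQp⟩
    have h1 : (s.map (gc u)).prod ∈ Q := hJQ (Ideal.subset_span (Or.inl rfl))
    have h2 : (t.map (gc u)).prod ∈ Q := hJQ (Ideal.subset_span (Or.inr rfl))
    rw [hQp.multiset_prod_mem_iff_exists_mem] at h1 h2
    obtain ⟨x, hx, h1⟩ := h1
    obtain ⟨y, hy, h2⟩ := h2
    rw [Multiset.mem_map] at hx hy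
    obtain ⟨p, hp, rfl⟩ := hx
    obtain ⟨q, hq, rfl⟩ := hy
    rw [hQp.multiset_prod_mem_iff_exists_mem]
    by_cases hc : ∃ q ∈ T, p.1 * q.2 = q.1 * p.2
    · exact ⟨gc u p, Multiset.mem_map_of_mem _ (Multiset.mem_cons_of_mem
        (Multiset.mem_filter.2 ⟨hp, hc⟩)), h1⟩
    · refine ⟨gc u (-(D : ℤ), (D : ℤ)), Multiset.mem_map_of_mem _ (Multiset.mem_cons_self _ _), ?_⟩
      have hne : p.1 * q.2 ≠ q.1 * p.2 := fun h => hc ⟨q, ht q hq, h⟩
      rw [hgc] at h1 h2 ⊢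
      exact two_slopes Q Lp _ (hS p (hs p hp)) (hT q (ht q hq)) h1 h2 (hdvd p hp q hq hne)
  obtain ⟨N, hN⟩ := hrad
  rw [hJ, Ideal.mem_span_pair] at hN
  obtain ⟨a, v, huv⟩ := hN
  have hfin : Z * (((N • w).map (gc u)).prod : Polynomial R) = (a * P + v * Q :
      Polynomial R) := by
    rw [Multiset.map_nsmul, Multiset.prod_nsmul, ← huv, Polynomial.coe_add, Polynomial.coe_mul,
      Polynomial.coe_mul, Polynomial.coe_add, Polynomial.coe_mul, Polynomial.coe_mul, ← hP, ← hQ]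
    ring
  exact mem_of_denom hUpos (fun p hp => hwU p (Multiset.mem_of_mem_nsmul hp)) hfin

/-- finitely many pairs suffice -/
theorem exists_finset {S : Set (ℤ × ℤ)} (hS : ∀ p ∈ S, 0 < p.2) {Z : PowerSeries R}
    (hZ : Z ∈ ratR u S) : ∃ S' : Finset (ℤ × ℤ), (∀ p ∈ S', p ∈ S) ∧ Z ∈ ratR u S' := by
  classical
  obtain ⟨s, hs, P, hP⟩ := exists_denom hS hZ
  exact ⟨s.toFinset, fun p hp => hs p (Multiset.mem_toFinset.1 hp),
    mem_of_denom (S := (s.toFinset : Set (ℤ × ℤ)))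
      (fun p hp => hS p (hs p (Multiset.mem_toFinset.1 hp)))
      (fun p hp => Multiset.mem_toFinset.2 hp) hP⟩

/-! ### The descent -/

/-- the series `∑_{j ≥ 1} v ^ j T ^ j` -/
noncomputable def tl (v : R) : PowerSeries R :=
  PowerSeries.mk fun j => if j = 0 then 0 else v ^ j

theorem tl_mul (v : R) : (1 - PowerSeries.C v * PowerSeries.X) * tl v =
    PowerSeries.C v * PowerSeries.X := by
  ext j
  rw [sub_mul, one_mul, map_sub, mul_assoc, PowerSeries.coeff_C_mul, PowerSeries.coeff_C_mul]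
  rcases j with _ | j
  · simp [tl]
  · rw [PowerSeries.coeff_succ_X_mul, tl, PowerSeries.coeff_mk, PowerSeries.coeff_mk,
      if_neg (Nat.succ_ne_zero j)]
    rcases j with _ | j
    · simp
    · rw [if_neg (Nat.succ_ne_zero j), PowerSeries.coeff_X, if_neg (by omega), pow_succ' v (j + 1)]
      ring

theorem resc_tl (c v : R) : PowerSeries.rescale c (tl v) = tl (c * v) := by
  ext j
  rw [PowerSeries.coeff_rescale, tl, tl, PowerSeries.coeff_mk, PowerSeries.coeff_mk]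
  split_ifs
  · rw [mul_zero]
  · rw [mul_pow]

/-- the members of the sequence: `u ^ ρ Z(u ^ (-ρ) T) + (u ^ ρ - 1) Y(u ^ (-ρ) T) u⁻¹ T / (1 - u⁻¹ T)` -/
noncomputable def mem (u : Rˣ) (Z Y : PowerSeries R) (ρ : ℕ) : PowerSeries R :=
  PowerSeries.C ((u : R) ^ ρ) * PowerSeries.rescale (((u⁻¹ : Rˣ) : R) ^ ρ) Z +
    PowerSeries.C ((u : R) ^ ρ - 1) * (PowerSeries.rescale (((u⁻¹ : Rˣ) : R) ^ ρ) Y *
      tl ((u⁻¹ : Rˣ) : R))

theorem resc_mem' (Z Y : PowerSeries R) (ρ : ℕ) :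
    PowerSeries.rescale ((u ^ ρ : Rˣ) : R) (mem u Z Y ρ) =
      PowerSeries.C ((u : R) ^ ρ) * Z + PowerSeries.C ((u : R) ^ ρ - 1) *
        (Y * tl ((u : R) ^ ρ * ((u⁻¹ : Rˣ) : R))) := by
  have h1 : ((u ^ ρ : Rˣ) : R) = (u : R) ^ ρ := Units.val_pow_eq_pow_val _ _
  have h2 : ((u⁻¹ : Rˣ) : R) ^ ρ * (u : R) ^ ρ = 1 := by
    rw [← mul_pow, Units.inv_mul, one_pow]
  have h3 : ∀ A : PowerSeries R, PowerSeries.rescale ((u : R) ^ ρ)
      (PowerSeries.rescale (((u⁻¹ : Rˣ) : R) ^ ρ) A) = A := by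
    intro A
    ext j
    rw [PowerSeries.coeff_rescale, PowerSeries.coeff_rescale, ← mul_assoc, ← mul_pow,
      mul_comm ((u : R) ^ ρ), h2, one_pow, one_mul]
  rw [h1, mem, map_add, map_mul, map_mul, map_mul, resc_C, resc_C,
    h3, h3, resc_tl]

/-- **The descent for two consecutive members.** -/
theorem descend (Z Y : PowerSeries R) (ρ : ℕ) {S T : Set (ℤ × ℤ)} (hS : ∀ q ∈ S, 0 < q.2)
    (hT : ∀ q ∈ T, 0 < q.2) (h0 : mem u Z Y ρ ∈ ratR u S) (h1 : mem u Z Y (ρ + 1) ∈ ratR u T) :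
    Z ∈ ratR u (insert (-1, 1) (shn ρ S ∪ shn (ρ + 1) T)) := by
  set U : Set (ℤ × ℤ) := insert (-1, 1) (shn ρ S ∪ shn (ρ + 1) T) with hU
  have e0 := ratR_mono (u := u) (T := U)
    (fun p hp => Set.mem_insert_of_mem _ (Or.inl hp)) (resc_mem (u := u) ρ hS h0)
  have e1 := ratR_mono (u := u) (T := U)
    (fun p hp => Set.mem_insert_of_mem _ (Or.inr hp)) (resc_mem (u := u) (ρ + 1) hT h1)
  rw [resc_mem'] at e0 e1
  set a : R := (u : R) ^ ρ with ha
  set w : R := ((u⁻¹ : Rˣ) : R) with hw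
  have huw : (u : R) * w = 1 := Units.mul_inv u
  have ha1 : (u : R) ^ (ρ + 1) = u * a := pow_succ' _ _
  rw [ha1, show (u : R) * a * w = a by linear_combination a * huw] at e1
  set G0 := tl (a * w) with hG0
  set G1 := tl a with hG1
  have t0 := tl_mul (a * w)
  have t1 := tl_mul a
  rw [← hG0] at t0
  rw [← hG1] at t1
  set q : R := ∑ i ∈ Finset.range ρ, (u : R) ^ i with hq
  have hqa : ((u : R) - 1) * q = a - 1 := by
    rw [mul_comm, hq, geom_sum_mul]
  have key : PowerSeries.C ((u : R) * a ^ 2) * ((1 - PowerSeries.C w * PowerSeries.X) * Z) =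
      (1 - PowerSeries.C (a * w) * PowerSeries.X) * PowerSeries.C ((u : R) * (q + a)) *
        (PowerSeries.C a * Z + PowerSeries.C (a - 1) * (Y * G0)) -
      (1 - PowerSeries.C a * PowerSeries.X) * PowerSeries.C q *
        (PowerSeries.C ((u : R) * a) * Z + PowerSeries.C ((u : R) * a - 1) * (Y * G1)) := by
    have c1 : PowerSeries.C (u : R) * PowerSeries.C w = 1 := by rw [← map_mul, huw, map_one]
    have c2 : (PowerSeries.C (u : R) - 1) * PowerSeries.C q = PowerSeries.C a - 1 := by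
      rw [← map_one (PowerSeries.C (R := R)), ← map_sub, ← map_mul, hqa, map_sub, map_one]
    simp only [map_mul, map_add, map_sub, map_one, map_pow] at t0 t1 ⊢
    set cu := PowerSeries.C (u : R)
    set cw := PowerSeries.C w
    set ca := PowerSeries.C a
    set cq := PowerSeries.C q
    linear_combination (-(cu * (cq + ca) * (ca - 1) * Y)) * t0 +
      (cq * (cu * ca - 1) * Y) * t1 +
      (-((cq + ca) * ca * (ca - 1) * PowerSeries.X * Y) +
        ca ^ 2 * PowerSeries.X * Z * (cq + ca - 1)) * c1 +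
      (PowerSeries.X * ca ^ 2 * Y - ca ^ 2 * PowerSeries.X * Z) * c2
  have hin : PowerSeries.C ((u : R) * a ^ 2) * ((1 - PowerSeries.C w * PowerSeries.X) * Z) ∈
      ratR u U := by
    rw [key]
    refine (ratR u U).sub_mem ?_ ?_
    · exact (ratR u U).mul_mem ((ratR u U).mul_mem ((ratR u U).sub_mem (ratR u U).one_mem
        ((ratR u U).mul_mem (C_mem _ _) (X_mem _))) (C_mem _ _)) e0
    · exact (ratR u U).mul_mem ((ratR u U).mul_mem ((ratR u U).sub_mem (ratR u U).one_mem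
        ((ratR u U).mul_mem (C_mem _ _) (X_mem _))) (C_mem _ _)) e1
  have hg := geoR_mul u (-1) 1 one_pos
  rw [show (1 : ℤ).toNat = 1 from rfl, zpow_neg_one, pow_one, ← hw] at hg
  have hwa : (w ^ ρ) ^ 2 * w * ((u : R) * a ^ 2) = 1 := by
    have h2 : w ^ ρ * a = 1 := by rw [ha, ← mul_pow, mul_comm, huw, one_pow]
    linear_combination (w ^ ρ * a + 1) * (u * w) * h2 + huw
  have hZ : Z = PowerSeries.C ((w ^ ρ) ^ 2 * w) * geoR u (-1) 1 *
      (PowerSeries.C ((u : R) * a ^ 2) * ((1 - PowerSeries.C w * PowerSeries.X) * Z)) := by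
    have c3 : PowerSeries.C ((w ^ ρ) ^ 2 * w) * PowerSeries.C ((u : R) * a ^ 2) = 1 := by
      rw [← map_mul, hwa, map_one]
    linear_combination (-Z) * c3 * ((1 - PowerSeries.C w * PowerSeries.X) * geoR u (-1) 1) +
      (-Z) * hg
  rw [hZ]
  exact (ratR u U).mul_mem ((ratR u U).mul_mem (C_mem _ _)
    (geoR_mem (p := ((-1 : ℤ), (1 : ℤ))) (Set.mem_insert _ _))) hin

end Pool.Agent.Q221.EM
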