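import Pool.Agent.Q221.EM.Pull
import Pool.Agent.Q57.QE.Gm

/-!
# Tools for equivariant additive invariants
-/

set_option autoImplicit false
set_option linter.unusedSectionVars false
set_option linter.unusedVariables false

namespace Pool.Agent.Q221.EM

open MvPolynomial Pool.Agent.W428.MOT
open Pool.Agent.W358.ME.EK0 (valid_union valid_prod)

variable {k : Type} [Field k] {n : ℕ} {f : MvPolynomial (Fin n) k} {R : Type} [CommRing R]

/-- the image of an invariant -/
def emap {R' : Type} [CommRing R'] (M : EMeas f R) (h : R →+* R') : EMeas f R' where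
  χ := fun ι _ S ρ d β => h (M.χ ι S ρ d β)
  L := h M.L
  iso := fun S T ρ ρ' d d' β β' h1 h2 φ ψ h3 h4 h5 h6 h7 h8 h9 h10 =>
    congrArg h (M.iso S T ρ ρ' d d' β β' h1 h2 φ ψ h3 h4 h5 h6 h7 h8 h9 h10)
  add := fun S T ρ d β h1 h2 h3 => by rw [M.add S T ρ d β h1 h2 h3, map_add]
  aff := fun S ρ ρ' d β h1 => by rw [M.aff S ρ ρ' d β h1, map_mul, map_pow]

variable (M : EMeas f R)

theorem ne_zero_of_pow {l : AlgebraicClosure k} {d : ℕ} (hd : 0 < d) (hl : l ^ d = 1) : l ≠ 0 := by
  rintro rfl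
  rw [zero_pow hd.ne'] at hl
  exact zero_ne_one hl

theorem valid_diff {ι : Type} {S T : Set (Pt k ι)} {ρ : ι → ℤ} {d : ℕ} {β : Fin n → Option ι}
    (hS : Valid f S ρ d β) (hT : Valid f T ρ d β) : Valid f (S \ T) ρ d β where
  constr := by
    rw [Set.sdiff_eq]
    exact hS.constr.inter hT.constr.compl
  pos := hS.pos
  stable := fun l hl z hz => by
    refine ⟨hS.stable l hl z hz.1, fun h => hz.2 ?_⟩
    have hl0 := ne_zero_of_pow hS.pos hl
    have hl' : l⁻¹ ^ d = 1 := by rw [inv_pow, hl, inv_one]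
    have h1 := hT.stable l⁻¹ hl' _ h
    have h2 : dact ρ l⁻¹ (dact ρ l z) = z := by
      funext i
      simp only [dact]
      rw [inv_zpow, ← mul_assoc, inv_mul_cancel₀ (zpow_ne_zero _ hl0), one_mul]
    rwa [h2] at h1
  base := fun z hz => hS.base z hz.1
  inv := hS.inv

theorem echi_diff {ι : Type} [Fintype ι] {S T : Set (Pt k ι)} {ρ : ι → ℤ} {d : ℕ}
    {β : Fin n → Option ι} (hS : Valid f S ρ d β) (hT : Valid f T ρ d β) (h : T ⊆ S) :
    M.χ ι (S \ T) ρ d β = M.χ ι S ρ d β - M.χ ι T ρ d β := by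
  have h2 := M.add (S \ T) T ρ d β (valid_diff hS hT) hT Set.disjoint_sdiff_left
  rw [Set.sdiff_union_of_subset h] at h2
  rw [h2, add_sub_cancel_right]

theorem valid_empty {ι : Type} {ρ : ι → ℤ} {d : ℕ} {β : Fin n → Option ι} (hd : 0 < d)
    (hinv : ∀ i j, β i = some j → ρ j = 0) : Valid f (∅ : Set (Pt k ι)) ρ d β where
  constr := Constr.empty
  pos := hd
  stable := fun _ _ _ h => h.elim
  base := fun _ h => h.elim
  inv := hinv

theorem echi_empty {ι : Type} [Fintype ι] {ρ : ι → ℤ} {d : ℕ} {β : Fin n → Option ι}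
    (h : Valid f (∅ : Set (Pt k ι)) ρ d β) : M.χ ι ∅ ρ d β = 0 := by
  have h1 := M.add ∅ ∅ ρ d β h h (Set.disjoint_empty _)
  rw [Set.union_empty] at h1
  exact left_eq_add.1 h1

theorem valid_biUnion {ι α : Type} (T : Finset α) {D : α → Set (Pt k ι)} {ρ : ι → ℤ} {d : ℕ}
    {β : Fin n → Option ι} (hd : 0 < d) (hinv : ∀ i j, β i = some j → ρ j = 0)
    (hD : ∀ j ∈ T, Valid f (D j) ρ d β) : Valid f (⋃ j ∈ T, D j) ρ d β := by
  classical
  induction T using Finset.induction_on with
  | empty =>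
    simp only [Finset.notMem_empty, Set.iUnion_of_empty, Set.iUnion_empty]
    exact valid_empty hd hinv
  | insert a T ha ih =>
    rw [Finset.set_biUnion_insert]
    exact valid_union (hD a (Finset.mem_insert_self _ _))
      (ih fun j hj => hD j (Finset.mem_insert_of_mem hj))

theorem echi_biUnion {ι α : Type} [Fintype ι] (T : Finset α) {D : α → Set (Pt k ι)} {ρ : ι → ℤ}
    {d : ℕ} {β : Fin n → Option ι} (hd : 0 < d) (hinv : ∀ i j, β i = some j → ρ j = 0)
    (hD : ∀ j ∈ T, Valid f (D j) ρ d β) (hdis : ∀ i j, i ≠ j → Disjoint (D i) (D j)) :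
    M.χ ι (⋃ j ∈ T, D j) ρ d β = ∑ j ∈ T, M.χ ι (D j) ρ d β := by
  classical
  induction T using Finset.induction_on with
  | empty =>
    simp only [Finset.notMem_empty, Set.iUnion_of_empty, Set.iUnion_empty, Finset.sum_empty]
    exact echi_empty M (valid_empty hd hinv)
  | insert a T ha ih =>
    rw [Finset.set_biUnion_insert, M.add _ _ _ _ _ (hD a (Finset.mem_insert_self _ _))
      (valid_biUnion T hd hinv fun j hj => hD j (Finset.mem_insert_of_mem hj)),
      Finset.sum_insert ha, ih fun j hj => hD j (Finset.mem_insert_of_mem hj)]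
    rw [Set.disjoint_iUnion₂_right]
    intro j hj
    exact hdis a j (by rintro rfl; exact ha hj)

/-- free coordinates -/
theorem echi_split {ι κ τ : Type} [Fintype ι] [Fintype κ] [Fintype τ] (e : ι ⊕ κ ≃ τ)
    {S : Set (Pt k τ)} {T : Set (Pt k ι)} {ρ : ι → ℤ} {ρ' : τ → ℤ} {d : ℕ} {β : Fin n → Option ι}
    {β' : Fin n → Option τ} (hT : Valid f T ρ d β) (hρ : ∀ i, ρ' (e (Sum.inl i)) = ρ i)
    (hβ : ∀ i, β' i = (β i).map fun j => e (Sum.inl j))
    (hS : ∀ z, z ∈ S ↔ (fun i => z (e (Sum.inl i))) ∈ T) :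
    Valid f S ρ' d β' ∧ M.χ τ S ρ' d β' = M.χ ι T ρ d β * M.L ^ Fintype.card κ := by
  have hSe : S = {z | (fun i => z (e (Sum.inl i))) ∈ T} := Set.ext hS
  have hcb : ∀ z : Pt k τ, cbase β' z = cbase β fun i => z (e (Sum.inl i)) := by
    intro z
    funext i
    simp only [cbase, hβ]
    cases β i <;> rfl
  have hda : ∀ (l : AlgebraicClosure k) (z : Pt k τ),
      (fun i => dact ρ' l z (e (Sum.inl i))) = dact ρ l fun i => z (e (Sum.inl i)) := by
    intro l z
    funext i
    simp only [dact, hρ]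
  have hv : Valid f S ρ' d β' :=
    { constr := by
        rw [hSe]
        exact hT.constr.preimage (fun (z : Pt k τ) i => z (e (Sum.inl i))) fun _ => IsPF.coord _
      pos := hT.pos
      stable := fun l hl z hz => by
        rw [hS, hda]
        exact hT.stable l hl _ ((hS z).1 hz)
      base := fun z hz => by
        rw [hcb]
        exact hT.base _ ((hS z).1 hz)
      inv := fun i j h => by
        rw [hβ, Option.map_eq_some_iff] at h
        obtain ⟨a, ha, rfl⟩ := h
        rw [hρ]
        exact hT.inv i a ha }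
  refine ⟨hv, ?_⟩
  rw [← M.aff T ρ (fun j => ρ' (e (Sum.inr j))) d β hT]
  have hv' := valid_prod (κ := κ) hT fun j => ρ' (e (Sum.inr j))
  refine M.iso S _ ρ' _ d d β' _ hv hv' (fun z i => z (e i)) (fun w j => w (e.symm j))
    (regularOn_poly (fun _ => IsPF.coord _) _) (regularOn_poly (fun _ => IsPF.coord _) _)
    ?_ ?_ ?_ ?_ ?_ ?_
  · intro z hz
    exact (hS z).1 hz
  · intro w hw
    rw [hS]
    simp only [Equiv.symm_apply_apply]
    exact hw
  · intro z _
    funext j
    simp
  · intro w _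
    funext i
    simp
  · intro z _
    rw [hcb]
    funext i
    simp only [cbase]
    cases β i <;> rfl
  · intro l _ z _
    funext i
    rcases i with i | i
    · simp only [dact, Sum.elim_inl, hρ]
    · simp only [dact, Sum.elim_inr]

/-! ### Linear systems -/

/-- the solutions of a linear system over `S` -/
def ELS {ι : Type} {q p : ℕ} (S : Set (Pt k ι)) (B : Fin q → Fin p → Pt k ι → AlgebraicClosure k)
    (c : Fin q → Pt k ι → AlgebraicClosure k) : Set (Pt k (ι ⊕ Fin p)) :=
  {z | (fun i => z (Sum.inl i)) ∈ S ∧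
    ∀ i, ∑ b, B i b (fun i => z (Sum.inl i)) * z (Sum.inr b) = c i fun i => z (Sum.inl i)}

theorem constr_ELS {ι : Type} {q p : ℕ} {S : Set (Pt k ι)} (hS : Constr S)
    {B : Fin q → Fin p → Pt k ι → AlgebraicClosure k} (hB : ∀ i b, IsPF (B i b))
    {c : Fin q → Pt k ι → AlgebraicClosure k} (hc : ∀ i, IsPF (c i)) : Constr (ELS S B c) := by
  refine Constr.and (hS.preimage (fun z : Pt k (ι ⊕ Fin p) => fun i => z (Sum.inl i))
    fun i => IsPF.coord _) (Constr.all fun i => Constr.eq (IsPF.sum _ _ fun b _ => ?_) ?_)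
  · exact ((hB i b).comp (fun z : Pt k (ι ⊕ Fin p) => fun i => z (Sum.inl i))
      fun i => IsPF.coord _).mul (IsPF.coord _)
  · exact (hc i).comp (fun z : Pt k (ι ⊕ Fin p) => fun i => z (Sum.inl i)) fun i => IsPF.coord _

/-- the system is homogeneous for the action -/
structure Homog {ι : Type} {q p : ℕ} (S : Set (Pt k ι)) (ρ : ι → ℤ) (d : ℕ)
    (μ : Fin p → ℤ) (ν : Fin q → ℤ) (B : Fin q → Fin p → Pt k ι → AlgebraicClosure k)
    (c : Fin q → Pt k ι → AlgebraicClosure k) : Prop where
  hB : ∀ l : AlgebraicClosure k, l ^ d = 1 → ∀ z ∈ S, ∀ i b,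
    B i b (dact ρ l z) = l ^ (ν i - μ b) * B i b z
  hc : ∀ l : AlgebraicClosure k, l ^ d = 1 → ∀ z ∈ S, ∀ i, c i (dact ρ l z) = l ^ ν i * c i z

theorem Homog.mono {ι : Type} {q p : ℕ} {S T : Set (Pt k ι)} {ρ : ι → ℤ} {d : ℕ}
    {μ : Fin p → ℤ} {ν : Fin q → ℤ} {B : Fin q → Fin p → Pt k ι → AlgebraicClosure k}
    {c : Fin q → Pt k ι → AlgebraicClosure k} (h : Homog S ρ d μ ν B c) (hT : T ⊆ S) :
    Homog T ρ d μ ν B c :=
  ⟨fun l hl z hz => h.hB l hl z (hT hz), fun l hl z hz => h.hc l hl z (hT hz)⟩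

theorem valid_ELS {ι : Type} {q p : ℕ} {S : Set (Pt k ι)} {ρ : ι → ℤ} {d : ℕ}
    {β : Fin n → Option ι} (hS : Valid f S ρ d β) {μ : Fin p → ℤ} {ν : Fin q → ℤ}
    {B : Fin q → Fin p → Pt k ι → AlgebraicClosure k} (hB : ∀ i b, IsPF (B i b))
    {c : Fin q → Pt k ι → AlgebraicClosure k} (hc : ∀ i, IsPF (c i))
    (hH : Homog S ρ d μ ν B c) :
    Valid f (ELS S B c) (Sum.elim ρ μ) d fun i => (β i).map Sum.inl where
  constr := constr_ELS hS.constr hB hc
  pos := hS.pos
  stable := fun l hl z hz => by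
    obtain ⟨h1, h2⟩ := hz
    have hl0 := ne_zero_of_pow hS.pos hl
    have h3 : (fun i => dact (Sum.elim ρ μ) l z (Sum.inl i)) =
        dact ρ l fun i => z (Sum.inl i) := rfl
    refine ⟨?_, fun i => ?_⟩
    · rw [h3]
      exact hS.stable l hl _ h1
    · rw [h3, hH.hc l hl _ h1, ← h2 i, Finset.mul_sum]
      refine Finset.sum_congr rfl fun b _ => ?_
      rw [hH.hB l hl _ h1]
      have h4 : dact (Sum.elim ρ μ) l z (Sum.inr b) = l ^ μ b * z (Sum.inr b) := rfl
      rw [h4, zpow_sub₀ hl0]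
      field_simp
  base := fun z hz => by
    have h1 : cbase (fun i => (β i).map Sum.inl) z = cbase β (fun i => z (Sum.inl i)) := by
      funext i
      simp only [cbase]
      cases β i <;> rfl
    rw [h1]
    exact hS.base _ hz.1
  inv := fun i j h => by
    rw [Option.map_eq_some_iff] at h
    obtain ⟨a, ha, rfl⟩ := h
    exact hS.inv i a ha

/-- elimination of one unknown -/
theorem echi_step {ι : Type} [Fintype ι] {q p : ℕ} {S : Set (Pt k ι)} {ρ : ι → ℤ} {d : ℕ}
    {β : Fin n → Option ι} (hS : Valid f S ρ d β) {μ : Fin (p + 1) → ℤ} {ν : Fin (q + 1) → ℤ}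
    {B : Fin (q + 1) → Fin (p + 1) → Pt k ι → AlgebraicClosure k} (hB : ∀ i b, IsPF (B i b))
    {c : Fin (q + 1) → Pt k ι → AlgebraicClosure k} (hc : ∀ i, IsPF (c i))
    (hH : Homog S ρ d μ ν B c) (j : Fin (p + 1)) (hj : ∀ z ∈ S, B 0 j z ≠ 0) :
    Homog S ρ d (fun b => μ (j.succAbove b)) (fun i => ν 0 - μ j + ν i.succ)
      (fun (i : Fin q) (b : Fin p) z =>
        B 0 j z * B i.succ (j.succAbove b) z - B i.succ j z * B 0 (j.succAbove b) z)
      (fun i z => B 0 j z * c i.succ z - B i.succ j z * c 0 z) ∧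
    M.χ _ (ELS S B c) (Sum.elim ρ μ) d (fun i => (β i).map Sum.inl) =
      M.χ _ (ELS S (fun (i : Fin q) (b : Fin p) z =>
        B 0 j z * B i.succ (j.succAbove b) z - B i.succ j z * B 0 (j.succAbove b) z)
        fun i z => B 0 j z * c i.succ z - B i.succ j z * c 0 z)
        (Sum.elim ρ fun b => μ (j.succAbove b)) d (fun i => (β i).map Sum.inl) := by
  have hH' : Homog S ρ d (fun b => μ (j.succAbove b)) (fun i => ν 0 - μ j + ν i.succ)
      (fun (i : Fin q) (b : Fin p) z =>
        B 0 j z * B i.succ (j.succAbove b) z - B i.succ j z * B 0 (j.succAbove b) z)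
      (fun i z => B 0 j z * c i.succ z - B i.succ j z * c 0 z) := by
    refine ⟨fun l hl z hz i b => ?_, fun l hl z hz i => ?_⟩
    · have hl0 := ne_zero_of_pow hS.pos hl
      rw [hH.hB l hl z hz, hH.hB l hl z hz, hH.hB l hl z hz, hH.hB l hl z hz]
      rw [show ν 0 - μ j + ν i.succ - μ (j.succAbove b) = (ν 0 - μ j) +
        (ν i.succ - μ (j.succAbove b)) by ring, zpow_add₀ hl0]
      have h1 : l ^ (ν i.succ - μ j) * l ^ (ν 0 - μ (j.succAbove b)) =
          l ^ (ν 0 - μ j) * l ^ (ν i.succ - μ (j.succAbove b)) := by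
        rw [← zpow_add₀ hl0, ← zpow_add₀ hl0]
        congr 1
        ring
      linear_combination (-(B i.succ j z * B 0 (j.succAbove b) z)) * h1
    · have hl0 := ne_zero_of_pow hS.pos hl
      rw [hH.hB l hl z hz, hH.hB l hl z hz, hH.hc l hl z hz, hH.hc l hl z hz]
      rw [zpow_add₀ hl0]
      have h1 : l ^ (ν i.succ - μ j) * l ^ ν 0 = l ^ (ν 0 - μ j) * l ^ ν i.succ := by
        rw [← zpow_add₀ hl0, ← zpow_add₀ hl0]
        congr 1
        ring
      linear_combination (-(B i.succ j z * c 0 z)) * h1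
  refine ⟨hH', ?_⟩
  have hpre : ∀ {F : Pt k ι → AlgebraicClosure k} {p' : ℕ}, IsPF F →
      IsPF fun z : Pt k (ι ⊕ Fin p') => F fun i => z (Sum.inl i) := fun hF =>
    hF.comp (fun z : Pt k (ι ⊕ Fin _) => fun i => z (Sum.inl i)) fun i => IsPF.coord _
  refine M.iso _ _ _ _ d d _ _ (valid_ELS hS hB hc hH) (valid_ELS hS
    (fun i b => ((hB 0 j).mul (hB _ _)).sub ((hB _ j).mul (hB 0 _)))
    (fun i => ((hB 0 j).mul (hc _)).sub ((hB _ j).mul (hc 0))) hH')
    (fun z => Sum.elim (fun i => z (Sum.inl i)) fun b => z (Sum.inr (j.succAbove b)))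
    (fun w => Sum.elim (fun i => w (Sum.inl i)) fun b => Fin.insertNth (α := fun _ =>
      AlgebraicClosure k) j
      ((c 0 (fun i => w (Sum.inl i)) - ∑ b, B 0 (j.succAbove b) (fun i => w (Sum.inl i)) *
        w (Sum.inr b)) / B 0 j fun i => w (Sum.inl i)) (fun b => w (Sum.inr b)) b)
    (regularOn_poly (fun i => ?_) _) ?_ ?_ ?_ ?_ ?_ ?_ ?_
  · rcases i with i | i
    · exact IsPF.coord _
    · exact IsPF.coord _
  · rintro (i | b)
    · exact (IsPF.coord _).isRF _
    · refine Fin.succAboveCases j ?_ (fun b => ?_) b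
      · simp only [Sum.elim_inr, Fin.insertNth_apply_same]
        refine IsRF.div (IsPF.isRF ?_ _) ((hpre (hB 0 j)).isRF _) fun w hw => hj _ hw.1
        exact (hpre (hc 0)).sub (IsPF.sum _ _ fun b _ => (hpre (hB 0 _)).mul (IsPF.coord _))
      · simp only [Sum.elim_inr, Fin.insertNth_apply_succAbove]
        exact (IsPF.coord _).isRF _
  · rintro z ⟨h1, h2⟩
    refine ⟨h1, fun i => ?_⟩
    have e0 := h2 0
    have e1 := h2 i.succ
    rw [Fin.sum_univ_succAbove _ j] at e0 e1
    simp only [Sum.elim_inr, Sum.elim_inl]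
    have e2 : ∑ b, (B 0 j (fun i => z (Sum.inl i)) * B i.succ (j.succAbove b)
          (fun i => z (Sum.inl i)) - B i.succ j (fun i => z (Sum.inl i)) * B 0 (j.succAbove b)
          (fun i => z (Sum.inl i))) * z (Sum.inr (j.succAbove b)) =
        B 0 j (fun i => z (Sum.inl i)) * (∑ b, B i.succ (j.succAbove b) (fun i => z (Sum.inl i)) *
          z (Sum.inr (j.succAbove b))) - B i.succ j (fun i => z (Sum.inl i)) *
          (∑ b, B 0 (j.succAbove b) (fun i => z (Sum.inl i)) * z (Sum.inr (j.succAbove b))) := by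
      rw [Finset.mul_sum, Finset.mul_sum, ← Finset.sum_sub_distrib]
      exact Finset.sum_congr rfl fun b _ => by ring
    rw [e2]
    linear_combination (B 0 j fun i => z (Sum.inl i)) * e1 -
      (B i.succ j fun i => z (Sum.inl i)) * e0
  · rintro w ⟨h1, h2⟩
    have hj0 := hj _ h1
    refine ⟨h1, fun i => ?_⟩
    rw [Fin.sum_univ_succAbove _ j]
    simp only [Sum.elim_inr, Sum.elim_inl, Fin.insertNth_apply_same,
      Fin.insertNth_apply_succAbove]
    refine Fin.cases ?_ (fun i => ?_) i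
    · field_simp
      ring
    · have e1 := h2 i
      have e2 : ∑ b, (B 0 j (fun i => w (Sum.inl i)) * B i.succ (j.succAbove b)
          (fun i => w (Sum.inl i)) - B i.succ j (fun i => w (Sum.inl i)) * B 0 (j.succAbove b)
          (fun i => w (Sum.inl i))) * w (Sum.inr b) =
        B 0 j (fun i => w (Sum.inl i)) * (∑ b, B i.succ (j.succAbove b) (fun i => w (Sum.inl i)) *
          w (Sum.inr b)) - B i.succ j (fun i => w (Sum.inl i)) *
          (∑ b, B 0 (j.succAbove b) (fun i => w (Sum.inl i)) * w (Sum.inr b)) := by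
        rw [Finset.mul_sum, Finset.mul_sum, ← Finset.sum_sub_distrib]
        exact Finset.sum_congr rfl fun b _ => by ring
      rw [e2] at e1
      generalize (∑ b, B i.succ (j.succAbove b) (fun i => w (Sum.inl i)) * w (Sum.inr b)) = a1
        at e1 ⊢
      generalize (∑ b, B 0 (j.succAbove b) (fun i => w (Sum.inl i)) * w (Sum.inr b)) = a2
        at e1 ⊢
      field_simp
      linear_combination e1
  · rintro z ⟨h1, h2⟩
    have hj0 := hj _ h1
    funext i
    rcases i with i | b
    · rfl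
    · refine Fin.succAboveCases j ?_ (fun b => ?_) b
      · simp only [Sum.elim_inr, Sum.elim_inl, Fin.insertNth_apply_same]
        have e0 := h2 0
        rw [Fin.sum_univ_succAbove _ j] at e0
        rw [div_eq_iff hj0]
        linear_combination -e0
      · simp only [Sum.elim_inr, Fin.insertNth_apply_succAbove]
  · rintro w _
    funext i
    rcases i with i | b
    · rfl
    · simp only [Sum.elim_inr, Fin.insertNth_apply_succAbove]
  · intro z _
    funext i
    simp only [cbase]
    cases β i <;> rfl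
  · intro l _ z _
    funext i
    rcases i with i | b
    · rfl
    · rfl

/-- **The class of the solutions of a surjective linear system.** -/
theorem echi_ELS {ι : Type} [Fintype ι] (q : ℕ) : ∀ (p : ℕ) {S : Set (Pt k ι)} {ρ : ι → ℤ} {d : ℕ}
    {β : Fin n → Option ι} (_ : Valid f S ρ d β) {μ : Fin p → ℤ} {ν : Fin q → ℤ}
    {B : Fin q → Fin p → Pt k ι → AlgebraicClosure k} (_ : ∀ i b, IsPF (B i b))
    {c : Fin q → Pt k ι → AlgebraicClosure k} (_ : ∀ i, IsPF (c i))
    (_ : Homog S ρ d μ ν B c)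
    (_ : ∀ z ∈ S, ∀ v : Fin q → AlgebraicClosure k, ∃ y : Fin p → AlgebraicClosure k,
      ∀ i, ∑ b, B i b z * y b = v i),
    M.χ _ (ELS S B c) (Sum.elim ρ μ) d (fun i => (β i).map Sum.inl) =
      M.χ _ S ρ d β * M.L ^ (p - q) := by
  induction q with
  | zero =>
    intro p S ρ d β hS μ ν B hB c hc _ _
    have h := (echi_split M (Equiv.refl (ι ⊕ Fin p)) (S := ELS S B c) (T := S)
      (ρ' := Sum.elim ρ μ) (β' := fun i => (β i).map Sum.inl) hS (fun _ => rfl) (fun _ => rfl)
      fun z => ⟨fun h => h.1, fun h => ⟨h, fun i => i.elim0⟩⟩).2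
    rw [h, Fintype.card_fin, Nat.sub_zero]
  | succ q ih =>
    intro p S ρ d β hS μ ν B hB c hc hH hsurj
    rcases p with _ | p
    · have hS0 : S = ∅ := by
        rw [Set.eq_empty_iff_forall_notMem]
        intro z hz
        obtain ⟨y, hy⟩ := hsurj z hz fun _ => 1
        have := hy 0
        rw [Finset.univ_eq_empty, Finset.sum_empty] at this
        exact zero_ne_one this
      have h1 : ELS S B c = ∅ := by
        rw [Set.eq_empty_iff_forall_notMem]
        rintro z ⟨h, -⟩
        rw [hS0] at h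
        exact h
      have h2 := valid_ELS hS hB hc hH
      rw [h1] at h2 ⊢
      rw [hS0] at hS ⊢
      rw [echi_empty M h2, echi_empty M hS, zero_mul]
    · set D : Fin (p + 1) → Set (Pt k ι) := fun j =>
        {z | z ∈ S ∧ ((∀ i, i < j → B 0 i z = 0) ∧ B 0 j z ≠ 0)} with hD
      have hDc : ∀ j, Constr (D j) := fun j => Constr.and hS.constr (Constr.and
        (Constr.all fun i => Constr.imp' fun _ => Constr.eqz (hB 0 i))
        (Constr.not (Constr.eqz (hB 0 j))))
      have hDv : ∀ j, Valid f (D j) ρ d β := fun j =>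
        { constr := hDc j
          pos := hS.pos
          stable := fun l hl z hz => by
            have hl0 := ne_zero_of_pow hS.pos hl
            refine ⟨hS.stable l hl z hz.1, fun i hi => ?_, ?_⟩
            · rw [hH.hB l hl z hz.1, hz.2.1 i hi, mul_zero]
            · rw [hH.hB l hl z hz.1]
              exact mul_ne_zero (zpow_ne_zero _ hl0) hz.2.2
          base := fun z hz => hS.base z hz.1
          inv := hS.inv }
      have hDd : ∀ i j, i ≠ j → Disjoint (D i) (D j) := by
        intro i j hij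
        rw [Set.disjoint_left]
        rintro z ⟨-, h1, h2⟩ ⟨-, h3, h4⟩
        rcases lt_or_gt_of_ne hij with h | h
        · exact h2 (h3 i h)
        · exact h4 (h1 j h)
      have hDS : S = ⋃ j ∈ (Finset.univ : Finset (Fin (p + 1))), D j := by
        ext z
        simp only [Finset.mem_univ, Set.iUnion_true, Set.mem_iUnion]
        constructor
        · intro hz
          have hne : ∃ j, B 0 j z ≠ 0 := by
            by_contra hcon
            push Not at hcon
            obtain ⟨y, hy⟩ := hsurj z hz fun _ => 1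
            have := hy 0
            rw [Finset.sum_eq_zero fun b _ => by rw [hcon b, zero_mul]] at this
            exact zero_ne_one this
          classical
          have hne' : ((Finset.univ : Finset (Fin (p + 1))).filter fun j => B 0 j z ≠ 0).Nonempty :=
            let ⟨j, hj⟩ := hne
            ⟨j, Finset.mem_filter.2 ⟨Finset.mem_univ _, hj⟩⟩
          refine ⟨Finset.min' _ hne', hz, fun i hi => ?_, (Finset.mem_filter.1
            (Finset.min'_mem _ hne')).2⟩
          by_contra hcon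
          exact absurd (Finset.min'_le _ i (Finset.mem_filter.2 ⟨Finset.mem_univ _, hcon⟩))
            (not_le.2 hi)
        · rintro ⟨j, hj⟩
          exact hj.1
      have hLS : ELS S B c = ⋃ j ∈ (Finset.univ : Finset (Fin (p + 1))), ELS (D j) B c := by
        ext z
        simp only [Finset.mem_univ, Set.iUnion_true, Set.mem_iUnion]
        constructor
        · rintro ⟨h1, h2⟩
          rw [hDS] at h1
          simp only [Finset.mem_univ, Set.iUnion_true, Set.mem_iUnion] at h1
          obtain ⟨j, hj⟩ := h1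
          exact ⟨j, hj, h2⟩
        · rintro ⟨j, hj, h2⟩
          exact ⟨hj.1, h2⟩
      have hLd : ∀ i j, i ≠ j → Disjoint (ELS (D i) B c) (ELS (D j) B c) := by
        intro i j hij
        rw [Set.disjoint_left]
        rintro z ⟨h1, -⟩ ⟨h2, -⟩
        exact Set.disjoint_left.1 (hDd i j hij) h1 h2
      have hinv' : ∀ i j, (fun i => (β i).map Sum.inl) i = some j →
          (Sum.elim ρ μ : ι ⊕ Fin (p + 1) → ℤ) j = 0 := (valid_ELS hS hB hc hH).inv
      rw [hLS, echi_biUnion M _ hS.pos hinv' (fun j _ => valid_ELS (hDv j) hB hc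
        (hH.mono fun z hz => hz.1)) hLd]
      conv_rhs => rw [hDS]
      rw [echi_biUnion M _ hS.pos hS.inv (fun j _ => hDv j) hDd, Finset.sum_mul]
      refine Finset.sum_congr rfl fun j _ => ?_
      obtain ⟨hH', h3⟩ := echi_step M (hDv j) hB hc (hH.mono fun z hz => hz.1) j
        fun z hz => hz.2.2
      rw [h3, ih p (hDv j)
        (fun i b => ((hB 0 j).mul (hB _ _)).sub ((hB _ j).mul (hB 0 _)))
        (fun i => ((hB 0 j).mul (hc _)).sub ((hB _ j).mul (hc 0))) hH' ?_, Nat.add_sub_add_right]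
      rintro z ⟨hz, -, hj0⟩ v
      obtain ⟨y, hy⟩ := hsurj z hz (Fin.cons 0 fun i => v i / B 0 j z)
      refine ⟨fun b => y (j.succAbove b), fun i => ?_⟩
      have e0 := hy 0
      have e1 := hy i.succ
      rw [Fin.sum_univ_succAbove _ j] at e0 e1
      rw [Fin.cons_zero] at e0
      rw [Fin.cons_succ] at e1
      have e2 : ∑ b, (B 0 j z * B i.succ (j.succAbove b) z - B i.succ j z *
          B 0 (j.succAbove b) z) * y (j.succAbove b) =
          B 0 j z * (∑ b, B i.succ (j.succAbove b) z * y (j.succAbove b)) - B i.succ j z *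
            ∑ b, B 0 (j.succAbove b) z * y (j.succAbove b) := by
        rw [Finset.mul_sum, Finset.mul_sum, ← Finset.sum_sub_distrib]
        exact Finset.sum_congr rfl fun b _ => by ring
      rw [e2]
      have e3 : B 0 j z * (v i / B 0 j z) = v i := mul_div_cancel₀ _ hj0
      linear_combination (B 0 j z) * e1 - (B i.succ j z) * e0 + e3

/-- the same with arbitrary unknowns -/
theorem echi_lin {ι τ : Type} [Fintype ι] [Fintype τ] {q : ℕ} {S : Set (Pt k ι)} {ρ : ι → ℤ}
    {d : ℕ} {β : Fin n → Option ι} (hS : Valid f S ρ d β) {μ : τ → ℤ} {ν : Fin q → ℤ}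
    {B : Fin q → τ → Pt k ι → AlgebraicClosure k} (hB : ∀ i b, IsPF (B i b))
    {c : Fin q → Pt k ι → AlgebraicClosure k} (hc : ∀ i, IsPF (c i))
    (hHB : ∀ l : AlgebraicClosure k, l ^ d = 1 → ∀ z ∈ S, ∀ i b,
      B i b (dact ρ l z) = l ^ (ν i - μ b) * B i b z)
    (hHc : ∀ l : AlgebraicClosure k, l ^ d = 1 → ∀ z ∈ S, ∀ i, c i (dact ρ l z) = l ^ ν i * c i z)
    (hsurj : ∀ z ∈ S, ∀ v : Fin q → AlgebraicClosure k, ∃ y : τ → AlgebraicClosure k,
      ∀ i, ∑ b, B i b z * y b = v i) :
    Valid f {z : Pt k (ι ⊕ τ) | (fun i => z (Sum.inl i)) ∈ S ∧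
      ∀ i, ∑ b, B i b (fun i => z (Sum.inl i)) * z (Sum.inr b) = c i fun i => z (Sum.inl i)}
      (Sum.elim ρ μ) d (fun i => (β i).map Sum.inl) ∧
    M.χ (ι ⊕ τ) {z | (fun i => z (Sum.inl i)) ∈ S ∧
      ∀ i, ∑ b, B i b (fun i => z (Sum.inl i)) * z (Sum.inr b) = c i fun i => z (Sum.inl i)}
      (Sum.elim ρ μ) d (fun i => (β i).map Sum.inl) =
      M.χ _ S ρ d β * M.L ^ (Fintype.card τ - q) := by
  classical
  set e := Fintype.equivFin τ with he
  have hH : Homog S ρ d (fun b => μ (e.symm b)) ν (fun i b => B i (e.symm b)) c :=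
    ⟨fun l hl z hz i b => hHB l hl z hz i _, hHc⟩
  have hC : Constr {z : Pt k (ι ⊕ τ) | (fun i => z (Sum.inl i)) ∈ S ∧ ∀ i, ∑ b, B i b
      (fun i => z (Sum.inl i)) * z (Sum.inr b) = c i fun i => z (Sum.inl i)} := by
    refine Constr.and (hS.constr.preimage (fun z : Pt k (ι ⊕ τ) => fun i => z (Sum.inl i))
      fun i => IsPF.coord _) (Constr.all fun i => Constr.eq (IsPF.sum _ _ fun b _ => ?_) ?_)
    · exact ((hB i b).comp (fun z : Pt k (ι ⊕ τ) => fun i => z (Sum.inl i))
        fun i => IsPF.coord _).mul (IsPF.coord _)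
    · exact (hc i).comp (fun z : Pt k (ι ⊕ τ) => fun i => z (Sum.inl i)) fun i => IsPF.coord _
  have hV : Valid f {z : Pt k (ι ⊕ τ) | (fun i => z (Sum.inl i)) ∈ S ∧
      ∀ i, ∑ b, B i b (fun i => z (Sum.inl i)) * z (Sum.inr b) = c i fun i => z (Sum.inl i)}
      (Sum.elim ρ μ) d (fun i => (β i).map Sum.inl) :=
    { constr := hC
      pos := hS.pos
      stable := fun l hl z hz => by
        obtain ⟨h1, h2⟩ := hz
        have hl0 := ne_zero_of_pow hS.pos hl
        have h3 : (fun i => dact (Sum.elim ρ μ) l z (Sum.inl i)) =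
            dact ρ l fun i => z (Sum.inl i) := rfl
        refine ⟨?_, fun i => ?_⟩
        · rw [h3]
          exact hS.stable l hl _ h1
        · rw [h3, hHc l hl _ h1, ← h2 i, Finset.mul_sum]
          refine Finset.sum_congr rfl fun b _ => ?_
          rw [hHB l hl _ h1]
          have h4 : dact (Sum.elim ρ μ) l z (Sum.inr b) = l ^ μ b * z (Sum.inr b) := rfl
          rw [h4, zpow_sub₀ hl0]
          field_simp
      base := fun z hz => by
        have h1 : cbase (fun i => (β i).map Sum.inl) z = cbase β (fun i => z (Sum.inl i)) := by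
          funext i
          simp only [cbase]
          cases β i <;> rfl
        rw [h1]
        exact hS.base _ hz.1
      inv := fun i j h => by
        rw [Option.map_eq_some_iff] at h
        obtain ⟨a, ha, rfl⟩ := h
        exact hS.inv i a ha }
  refine ⟨hV, ?_⟩
  have hsurj' : ∀ z ∈ S, ∀ v : Fin q → AlgebraicClosure k,
      ∃ y : Fin (Fintype.card τ) → AlgebraicClosure k, ∀ i, ∑ b, B i (e.symm b) z * y b = v i := by
    intro z hz v
    obtain ⟨y, hy⟩ := hsurj z hz v
    refine ⟨fun b => y (e.symm b), fun i => ?_⟩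
    rw [← hy i, ← e.symm.sum_comp]
  rw [← echi_ELS M q (Fintype.card τ) hS (B := fun i b => B i (e.symm b)) (fun i b => hB _ _) hc
    hH hsurj']
  refine M.iso _ _ _ _ d d _ _ hV (valid_ELS hS (fun i b => hB _ _) hc hH)
    (fun z => Sum.elim (fun i => z (Sum.inl i)) fun b => z (Sum.inr (e.symm b)))
    (fun w => Sum.elim (fun i => w (Sum.inl i)) fun b => w (Sum.inr (e b)))
    (regularOn_poly (fun i => ?_) _) (regularOn_poly (fun i => ?_) _) ?_ ?_ ?_ ?_ ?_ ?_
  · rcases i with i | i
    · exact IsPF.coord _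
    · exact IsPF.coord _
  · rcases i with i | i
    · exact IsPF.coord _
    · exact IsPF.coord _
  · rintro z ⟨h1, h2⟩
    refine ⟨h1, fun i => ?_⟩
    have := h2 i
    rw [← e.symm.sum_comp] at this
    exact this
  · rintro w ⟨h1, h2⟩
    refine ⟨h1, fun i => ?_⟩
    have := h2 i
    rw [← e.sum_comp] at this
    simp only [Equiv.symm_apply_apply] at this
    exact this
  · intro z _
    funext i
    rcases i with i | i
    · rfl
    · simp
  · intro w _
    funext i
    rcases i with i | i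
    · rfl
    · simp
  · intro z _
    funext i
    simp only [cbase]
    cases β i <;> rfl
  · intro l _ z _
    funext i
    rcases i with i | b
    · rfl
    · rfl

end Pool.Agent.Q221.EM
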